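import Mathlib
import Pool.Graph.R_seed8.H401R2.Stir

set_option autoImplicit false

/-!
# Bounds for the Gamma function in vertical strips (from Stirling's formula)
-/

namespace Pool.Agent.H16.MM

open Complex Filter Topology Set MeasureTheory

/-- the argument of a point of the first quadrant -/
theorem arg_bounds {z : ℂ} (hr : 0 < z.re) (hi : 0 < z.im) :
    0 ≤ Real.pi / 2 - arg z ∧ z.im * (Real.pi / 2 - arg z) ≤ 2 * z.re := by
  have hz : z ≠ 0 := by intro h; rw [h] at hr; simp at hr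
  have hn : 0 < ‖z‖ := norm_pos_iff.2 hz
  have h1 : |arg z| ≤ Real.pi / 2 := Complex.abs_arg_le_pi_div_two_iff.2 hr.le
  have h2 : arg z ≤ Real.pi / 2 := (abs_le.1 h1).2
  have h3 : 0 ≤ arg z := Complex.arg_nonneg_iff.2 hi.le
  refine ⟨by linarith, ?_⟩
  have h4 := Real.mul_le_sin (x := Real.pi / 2 - arg z) (by linarith) (by linarith)
  rw [Real.sin_pi_div_two_sub, Complex.cos_arg hz] at h4
  have hpi := Real.pi_pos
  have h5 : Real.pi / 2 - arg z ≤ Real.pi / 2 * (z.re / ‖z‖) := by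
    calc Real.pi / 2 - arg z = Real.pi / 2 * (2 / Real.pi * (Real.pi / 2 - arg z)) := by field_simp
      _ ≤ Real.pi / 2 * (z.re / ‖z‖) := mul_le_mul_of_nonneg_left h4 (by positivity)
  have h6 : z.im * (z.re / ‖z‖) ≤ z.re := by
    rw [← mul_div_assoc, div_le_iff₀ hn]
    nlinarith [Complex.im_le_norm z]
  have h7 := Real.pi_le_four
  calc z.im * (Real.pi / 2 - arg z) ≤ z.im * (Real.pi / 2 * (z.re / ‖z‖)) :=
        mul_le_mul_of_nonneg_left h5 hi.le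
    _ = Real.pi / 2 * (z.im * (z.re / ‖z‖)) := by ring
    _ ≤ Real.pi / 2 * z.re := mul_le_mul_of_nonneg_left h6 (by positivity)
    _ ≤ 2 * z.re := by nlinarith

theorem Gamma_eq_sA (z : ℂ) : ‖Complex.Gamma z‖ = ‖Pool.Agent.H401R2.sA z‖ *
    Real.exp ((z.re - 1 / 2) * Real.log ‖z‖ - z.im * arg z - z.re) := by
  have h : Complex.Gamma z = Pool.Agent.H401R2.sA z * cexp ((z - 1/2) * Complex.log z - z) := by
    unfold Pool.Agent.H401R2.sA
    rw [mul_assoc, ← Complex.exp_add, neg_add_cancel, Complex.exp_zero, mul_one]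
  conv_lhs => rw [h]
  rw [norm_mul, Complex.norm_exp]
  congr 2
  rw [Complex.sub_re, Complex.mul_re, Complex.log_re, Complex.log_im]
  simp

theorem sA_bounds {z : ℂ} (hr : 0 < z.re) (hi : 1 ≤ z.im) :
    1 ≤ ‖Pool.Agent.H401R2.sA z‖ ∧ ‖Pool.Agent.H401R2.sA z‖ ≤ 6 := by
  have h := Pool.Agent.H401R2.stirling hr hi
  have hpi := Real.pi_pos
  have hpi4 := Real.pi_le_four
  have hpi3 := Real.pi_gt_three
  have h1 : Real.pi / (8 * z.im) ≤ 1 / 2 := by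
    rw [div_le_iff₀ (by linarith)]
    linarith
  have hs : 0 < √(2 * Real.pi) := by positivity
  have hs1 : 2 ≤ √(2 * Real.pi) := by
    apply Real.le_sqrt_of_sq_le
    linarith
  have hs2 : √(2 * Real.pi) ≤ 3 := by
    rw [Real.sqrt_le_left (by norm_num)]
    linarith
  set w := Pool.Agent.H401R2.sA z / ((√(2 * Real.pi) : ℝ) : ℂ) with hw
  have h2 : ‖w - 1‖ ≤ 1 / 2 := h.trans h1
  have h3 : ‖w‖ = ‖Pool.Agent.H401R2.sA z‖ / √(2 * Real.pi) := by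
    rw [hw, norm_div, Complex.norm_real, Real.norm_of_nonneg hs.le]
  have h4 : ‖w‖ ≤ 3 / 2 := by
    calc ‖w‖ = ‖(w - 1) + 1‖ := by congr 1; ring
      _ ≤ ‖w - 1‖ + ‖(1:ℂ)‖ := norm_add_le _ _
      _ ≤ 3 / 2 := by rw [norm_one]; linarith
  have h5 : 1 / 2 ≤ ‖w‖ := by
    have : ‖(1:ℂ)‖ ≤ ‖w‖ + ‖w - 1‖ := by
      calc ‖(1:ℂ)‖ = ‖w - (w - 1)‖ := by congr 1; ring
        _ ≤ ‖w‖ + ‖w - 1‖ := norm_sub_le _ _
    rw [norm_one] at this
    linarith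
  rw [h3] at h4 h5
  rw [div_le_iff₀ hs] at h4
  rw [le_div_iff₀ hs] at h5
  constructor <;> nlinarith

/-- upper bound for `Γ` in the strip `1/4 ≤ Re s ≤ 4` -/
theorem Gamma_up : ∃ K : ℝ, 0 < K ∧ ∀ z : ℂ, 1 / 4 ≤ z.re → z.re ≤ 4 → 1 ≤ z.im →
    ‖Complex.Gamma z‖ ≤ K * z.im ^ (z.re - 1 / 2) * Real.exp (-(Real.pi / 2 * z.im)) := by
  refine ⟨6 * Real.exp 4 * 5 ^ (4:ℝ), by positivity, fun z h1 h2 h3 => ?_⟩
  have hr : 0 < z.re := by linarith
  have hi : 0 < z.im := by linarith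
  obtain ⟨ha1, ha2⟩ := arg_bounds hr hi
  obtain ⟨hs1, hs2⟩ := sA_bounds hr h3
  rw [Gamma_eq_sA]
  have hn1 : z.im ≤ ‖z‖ := Complex.im_le_norm z
  have hn0 : 0 < ‖z‖ := by linarith
  have hn2 : ‖z‖ ≤ 5 * z.im := by
    have := Complex.norm_le_abs_re_add_abs_im z
    rw [abs_of_pos hr, abs_of_pos hi] at this
    linarith
  have e1 : Real.exp ((z.re - 1 / 2) * Real.log ‖z‖ - z.im * arg z - z.re) =
      ‖z‖ ^ (z.re - 1 / 2) * Real.exp (-(Real.pi / 2 * z.im)) * Real.exp (z.im * (Real.pi / 2 - arg z) - z.re) := by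
    rw [Real.rpow_def_of_pos hn0, ← Real.exp_add, ← Real.exp_add]
    congr 1
    ring
  rw [e1]
  have h4 : ‖z‖ ^ (z.re - 1 / 2) ≤ 5 ^ (4:ℝ) * z.im ^ (z.re - 1 / 2) := by
    rcases le_total (1/2) z.re with h | h
    · calc ‖z‖ ^ (z.re - 1 / 2) ≤ (5 * z.im) ^ (z.re - 1 / 2) :=
            Real.rpow_le_rpow hn0.le hn2 (by linarith)
        _ = 5 ^ (z.re - 1 / 2) * z.im ^ (z.re - 1 / 2) := Real.mul_rpow (by norm_num) hi.le
        _ ≤ 5 ^ (4:ℝ) * z.im ^ (z.re - 1 / 2) := by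
            apply mul_le_mul_of_nonneg_right _ (by positivity)
            exact Real.rpow_le_rpow_of_exponent_le (by norm_num) (by linarith)
    · calc ‖z‖ ^ (z.re - 1 / 2) ≤ z.im ^ (z.re - 1 / 2) :=
            Real.rpow_le_rpow_of_nonpos hi hn1 (by linarith)
        _ = 1 * z.im ^ (z.re - 1 / 2) := (one_mul _).symm
        _ ≤ 5 ^ (4:ℝ) * z.im ^ (z.re - 1 / 2) := by
            apply mul_le_mul_of_nonneg_right _ (by positivity)
            exact Real.one_le_rpow (by norm_num) (by norm_num)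
  have h5 : Real.exp (z.im * (Real.pi / 2 - arg z) - z.re) ≤ Real.exp 4 :=
    Real.exp_le_exp.2 (by linarith)
  calc ‖Pool.Agent.H401R2.sA z‖ * (‖z‖ ^ (z.re - 1 / 2) * Real.exp (-(Real.pi / 2 * z.im)) *
        Real.exp (z.im * (Real.pi / 2 - arg z) - z.re))
      ≤ 6 * ((5 ^ (4:ℝ) * z.im ^ (z.re - 1 / 2)) * Real.exp (-(Real.pi / 2 * z.im)) * Real.exp 4) := by
        gcongr
    _ = _ := by ring

/-- lower bound for `Γ` in the strip `1/4 ≤ Re s ≤ 4` -/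
theorem Gamma_lo : ∃ κ : ℝ, 0 < κ ∧ ∀ z : ℂ, 1 / 2 ≤ z.re → z.re ≤ 4 → 1 ≤ z.im →
    κ * z.im ^ (z.re - 1 / 2) * Real.exp (-(Real.pi / 2 * z.im)) ≤ ‖Complex.Gamma z‖ := by
  refine ⟨Real.exp (-4), by positivity, fun z h1 h2 h3 => ?_⟩
  have hr : 0 < z.re := by linarith
  have hi : 0 < z.im := by linarith
  obtain ⟨ha1, ha2⟩ := arg_bounds hr hi
  obtain ⟨hs1, hs2⟩ := sA_bounds hr h3
  rw [Gamma_eq_sA]
  have hn1 : z.im ≤ ‖z‖ := Complex.im_le_norm z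
  have hn0 : 0 < ‖z‖ := by linarith
  have e1 : Real.exp ((z.re - 1 / 2) * Real.log ‖z‖ - z.im * arg z - z.re) =
      ‖z‖ ^ (z.re - 1 / 2) * Real.exp (-(Real.pi / 2 * z.im)) * Real.exp (z.im * (Real.pi / 2 - arg z) - z.re) := by
    rw [Real.rpow_def_of_pos hn0, ← Real.exp_add, ← Real.exp_add]
    congr 1
    ring
  rw [e1]
  have h4 : z.im ^ (z.re - 1 / 2) ≤ ‖z‖ ^ (z.re - 1 / 2) :=
    Real.rpow_le_rpow hi.le hn1 (by linarith)
  have h5 : Real.exp (-4) ≤ Real.exp (z.im * (Real.pi / 2 - arg z) - z.re) := by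
    apply Real.exp_le_exp.2
    have : 0 ≤ z.im * (Real.pi / 2 - arg z) := mul_nonneg hi.le ha1
    linarith
  calc Real.exp (-4) * z.im ^ (z.re - 1 / 2) * Real.exp (-(Real.pi / 2 * z.im))
      = 1 * (z.im ^ (z.re - 1 / 2) * Real.exp (-(Real.pi / 2 * z.im)) * Real.exp (-4)) := by ring
    _ ≤ _ := by gcongr

end Pool.Agent.H16.MM
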