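import Mathlib
import Pool.Agent.H16.MM.G1

set_option autoImplicit false

/-!
# The kernel `Γ(s) x^(-s) e^(-iθs)` and the difference trick
-/

namespace Pool.Agent.H16.MM

open Complex Filter Topology Set MeasureTheory

/-- the kernel -/
noncomputable def gg (x θ : ℝ) (s : ℂ) : ℂ := Complex.Gamma s * (x : ℂ) ^ (-s) * cexp (-((θ : ℂ) * I) * s)

theorem gg_succ {x θ : ℝ} (hx : 0 < x) {s : ℂ} (hs : s ≠ 0) :
    gg x θ (s + 1) = gg x θ s * (s / (x * cexp (θ * I))) := by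
  have hx' : (x : ℂ) ≠ 0 := by exact_mod_cast hx.ne'
  unfold gg
  rw [Complex.Gamma_add_one s hs, show -(s + 1) = -s + (-1) by ring, Complex.cpow_add _ _ hx',
    Complex.cpow_neg_one, show -((θ : ℂ) * I) * (s + 1) = -((θ : ℂ) * I) * s + -((θ : ℂ) * I) by ring,
    Complex.exp_add, Complex.exp_neg ((θ : ℂ) * I)]
  have := Complex.exp_ne_zero ((θ : ℂ) * I)
  field_simp

theorem norm_gg {x θ : ℝ} (hx : 0 < x) (s : ℂ) :
    ‖gg x θ s‖ = ‖Complex.Gamma s‖ * x ^ (-s.re) * Real.exp (θ * s.im) := by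
  unfold gg
  rw [norm_mul, norm_mul, Complex.norm_cpow_eq_rpow_re_of_pos hx, Complex.norm_exp, Complex.neg_re]
  congr 2
  simp

theorem gg_diff {x θ : ℝ} (hx : 0 < x) {s : ℂ} (hs : 0 < s.im) : DifferentiableAt ℂ (gg x θ) s := by
  have hx' : (x : ℂ) ≠ 0 := by exact_mod_cast hx.ne'
  unfold gg
  apply DifferentiableAt.mul
  · apply DifferentiableAt.mul
    · apply Complex.differentiableAt_Gamma
      intro m h
      rw [h] at hs
      simp at hs
    · apply DifferentiableAt.const_cpow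
      · fun_prop
      · exact Or.inl hx'
  · fun_prop

theorem gg_bound : ∃ K : ℝ, 0 < K ∧ ∀ x θ : ℝ, 0 < x → θ ≤ Real.pi / 2 → ∀ s : ℂ, 1 / 4 ≤ s.re → s.re ≤ 4 →
    1 ≤ s.im → ‖gg x θ s‖ ≤ K * s.im ^ (s.re - 1 / 2) * x ^ (-s.re) ∧
      ‖gg x θ s‖ ≤ K * s.im ^ (s.re - 1 / 2) * x ^ (-s.re) * Real.exp (-((Real.pi / 2 - θ) * s.im)) := by
  obtain ⟨K, hK, h⟩ := Gamma_up
  refine ⟨K, hK, fun x θ hx hθ s h1 h2 h3 => ?_⟩
  have h4 := h s h1 h2 h3
  have hm : ‖gg x θ s‖ ≤ K * s.im ^ (s.re - 1 / 2) * x ^ (-s.re) * Real.exp (-((Real.pi / 2 - θ) * s.im)) := by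
    rw [norm_gg hx]
    calc ‖Complex.Gamma s‖ * x ^ (-s.re) * Real.exp (θ * s.im)
        ≤ (K * s.im ^ (s.re - 1 / 2) * Real.exp (-(Real.pi / 2 * s.im))) * x ^ (-s.re) * Real.exp (θ * s.im) := by
          gcongr
      _ = K * s.im ^ (s.re - 1 / 2) * x ^ (-s.re) * (Real.exp (-(Real.pi / 2 * s.im)) * Real.exp (θ * s.im)) := by ring
      _ = _ := by rw [← Real.exp_add]; congr 2; ring
  refine ⟨hm.trans ?_, hm⟩
  have h5 : Real.exp (-((Real.pi / 2 - θ) * s.im)) ≤ 1 := by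
    rw [Real.exp_le_one_iff]
    have : 0 ≤ (Real.pi / 2 - θ) * s.im := mul_nonneg (by linarith) (by linarith)
    linarith
  have h6 : 0 ≤ K * s.im ^ (s.re - 1 / 2) * x ^ (-s.re) := by
    have : 0 ≤ s.im := by linarith
    positivity
  nlinarith

/-- integration along a vertical segment through a primitive -/
theorem vert_eq {P g : ℂ → ℂ} {σ a b : ℝ}
    (hP : ∀ t ∈ uIcc a b, HasDerivAt P (g (σ + t * I)) (σ + t * I))
    (hg : ContinuousOn (fun t : ℝ => g (σ + t * I)) (uIcc a b)) :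
    P (σ + b * I) - P (σ + a * I) = I * ∫ t in a..b, g (σ + t * I) := by
  have hder : ∀ t ∈ uIcc a b, HasDerivAt (fun t : ℝ => P (σ + t * I)) (I * g (σ + t * I)) t := by
    intro t ht
    have h1 : HasDerivAt (fun z : ℂ => σ + z * I) (1 * I) (t : ℂ) :=
      ((hasDerivAt_id _).mul_const I).const_add _
    have h3 := ((hP t ht).comp (t : ℂ) h1).comp_ofReal
    have e : g (σ + t * I) * (1 * I) = I * g (σ + t * I) := by ring
    rw [e] at h3
    exact h3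
  rw [← intervalIntegral.integral_const_mul]
  exact (intervalIntegral.integral_eq_sub_of_hasDerivAt hder
    ((continuousOn_const.mul hg).intervalIntegrable)).symm

/-- the difference of the values of a primitive at the ends of a horizontal segment -/
theorem hor_le {P g : ℂ → ℂ} {u v b M : ℝ} (huv : u ≤ v)
    (hP : ∀ x : ℝ, u ≤ x → x ≤ v → HasDerivAt P (g (x + b * I)) (x + b * I))
    (hM : ∀ x : ℝ, u ≤ x → x ≤ v → ‖g (x + b * I)‖ ≤ M) :
    ‖P (v + b * I) - P (u + b * I)‖ ≤ M * (v - u) := by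
  have hder : ∀ x ∈ Icc u v, HasDerivWithinAt (fun x : ℝ => P (x + b * I)) (g (x + b * I)) (Icc u v) x := by
    intro x hx
    have h1 : HasDerivAt (fun z : ℂ => z + b * I) 1 (x : ℂ) := (hasDerivAt_id _).add_const _
    have h3 := ((hP x hx.1 hx.2).comp (x : ℂ) h1).comp_ofReal
    rw [mul_one] at h3
    exact h3.hasDerivWithinAt
  have h := norm_image_sub_le_of_norm_deriv_le_segment' hder (C := M)
    (fun x hx => hM x hx.1 hx.2.le) v (right_mem_Icc.2 huv)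
  exact h

/-- the difference lemma: `g(s+1) = g(s) s / r` gives a gain in `∫ g` away from `Im s = |r|` -/
theorem diff_lem {g : ℂ → ℂ} {r : ℂ} (hr : r ≠ 0) {U : Set ℂ} (hUo : IsOpen U) (hUc : Convex ℝ U)
    (hUi : ∀ s ∈ U, 0 < s.im) (hrU : ∀ s ∈ U, r - s ≠ 0)
    (hgd : ∀ s : ℂ, 0 < s.im → DifferentiableAt ℂ g s)
    (hgs : ∀ s : ℂ, 0 < s.im → g (s + 1) = g s * (s / r))
    {σ a b : ℝ} (hab : a ≤ b) (hR : ∀ x t : ℝ, σ ≤ x → x ≤ σ + 1 → a ≤ t → t ≤ b → (x + t * I : ℂ) ∈ U)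
    {Ma Mb : ℝ} (hMa : ∀ x : ℝ, σ ≤ x → x ≤ σ + 1 → ‖g (x + a * I) * (r / (r - (x + a * I)))‖ ≤ Ma)
    (hMb : ∀ x : ℝ, σ ≤ x → x ≤ σ + 1 → ‖g (x + b * I) * (r / (r - (x + b * I)))‖ ≤ Mb)
    {φ : ℝ → ℝ} (hφ : IntervalIntegrable φ volume a b)
    (hφ' : ∀ t ∈ Icc a b, ‖g (((σ + 1 : ℝ) : ℂ) + t * I)‖ *
      ‖r / ((r - (((σ + 1 : ℝ) : ℂ) + t * I)) * (r - ((σ : ℂ) + t * I)))‖ ≤ φ t) :
    ‖∫ t in a..b, g (σ + t * I)‖ ≤ Ma + Mb + ∫ t in a..b, φ t := by
  set f : ℂ → ℂ := fun s => g s * (r / (r - s)) with hf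
  have hfd : ∀ s ∈ U, DifferentiableAt ℂ f s := by
    intro s hs
    rw [hf]
    apply DifferentiableAt.mul (hgd s (hUi s hs))
    apply DifferentiableAt.div (by fun_prop) (by fun_prop) (hrU s hs)
  obtain ⟨Q, hQ⟩ := hUc.exists_forall_hasDerivWithinAt (f := f)
    (fun s hs => (hfd s hs).differentiableWithinAt)
  have hQd : ∀ s ∈ U, HasDerivAt Q (f s) s := fun s hs => (hQ s hs).hasDerivAt (hUo.mem_nhds hs)
  have hmem : ∀ t ∈ uIcc a b, ((σ : ℂ) + t * I) ∈ U := by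
    intro t ht
    rw [uIcc_of_le hab] at ht
    exact hR σ t le_rfl (by linarith) ht.1 ht.2
  have hmem1 : ∀ t ∈ uIcc a b, (((σ + 1 : ℝ) : ℂ) + t * I) ∈ U := by
    intro t ht
    rw [uIcc_of_le hab] at ht
    exact hR (σ + 1) t (by linarith) le_rfl ht.1 ht.2
  have hcg : ∀ (τ : ℝ), (∀ t ∈ uIcc a b, ((τ : ℂ) + t * I) ∈ U) →
      ContinuousOn (fun t : ℝ => g (τ + t * I)) (uIcc a b) := by
    intro τ hτ t ht
    apply ContinuousAt.continuousWithinAt
    exact ContinuousAt.comp (f := fun t : ℝ => (τ : ℂ) + t * I)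
      (hgd _ (hUi _ (hτ t ht))).continuousAt (by fun_prop)
  have hcf : ∀ (τ : ℝ), (∀ t ∈ uIcc a b, ((τ : ℂ) + t * I) ∈ U) →
      ContinuousOn (fun t : ℝ => f (τ + t * I)) (uIcc a b) := by
    intro τ hτ t ht
    apply ContinuousAt.continuousWithinAt
    exact ContinuousAt.comp (f := fun t : ℝ => (τ : ℂ) + t * I)
      (hfd _ (hτ t ht)).continuousAt (by fun_prop)
  have hcw : ContinuousOn (fun t : ℝ => r / (r - (σ + t * I))) (uIcc a b) := by
    apply ContinuousOn.div continuousOn_const (by fun_prop)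
    intro t ht
    exact hrU _ (hmem t ht)
  have v0 := vert_eq (P := Q) (g := f) (σ := σ) (a := a) (b := b) (fun t ht => hQd _ (hmem t ht)) (hcf σ hmem)
  have v1 := vert_eq (P := Q) (g := f) (σ := σ + 1) (a := a) (b := b) (fun t ht => hQd _ (hmem1 t ht)) (hcf _ hmem1)
  -- pointwise identity
  have hpt : ∀ t ∈ uIcc a b, g (σ + t * I) = f (σ + t * I) - g (((σ + 1 : ℝ) : ℂ) + t * I) * (r / (r - (σ + t * I))) := by
    intro t ht
    have h1 := hrU _ (hmem t ht)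
    have e : (((σ + 1 : ℝ) : ℂ) + t * I) = (σ + t * I) + 1 := by push_cast; ring
    rw [e, hgs _ (hUi _ (hmem t ht)), hf]
    simp only
    field_simp
  have hcgw : ContinuousOn (fun t : ℝ => g (((σ + 1 : ℝ) : ℂ) + t * I) * (r / (r - (σ + t * I)))) (uIcc a b) :=
    (hcg _ hmem1).mul hcw
  have e1 : ∫ t in a..b, g (σ + t * I) = (∫ t in a..b, f (σ + t * I)) -
      ∫ t in a..b, g (((σ + 1 : ℝ) : ℂ) + t * I) * (r / (r - (σ + t * I))) := by
    rw [← intervalIntegral.integral_sub (hcf σ hmem).intervalIntegrable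
      hcgw.intervalIntegrable]
    exact intervalIntegral.integral_congr hpt
  have hdiff : ∫ t in a..b, g (((σ + 1 : ℝ) : ℂ) + t * I) *
      (r / ((r - (((σ + 1 : ℝ) : ℂ) + t * I)) * (r - ((σ : ℂ) + t * I)))) =
      (∫ t in a..b, f (((σ + 1 : ℝ) : ℂ) + t * I)) -
      ∫ t in a..b, g (((σ + 1 : ℝ) : ℂ) + t * I) * (r / (r - (σ + t * I))) := by
    rw [← intervalIntegral.integral_sub (hcf _ hmem1).intervalIntegrable
      hcgw.intervalIntegrable]
    apply intervalIntegral.integral_congr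
    intro t ht
    have h1 := hrU _ (hmem t ht)
    have h2 := hrU _ (hmem1 t ht)
    have e : (((σ + 1 : ℝ) : ℂ) + t * I) = (σ + t * I) + 1 := by push_cast; ring
    rw [e] at h2
    simp only [hf]
    rw [e, ← mul_sub]
    congr 1
    field_simp
    ring
  have e2 : ∫ t in a..b, g (σ + t * I) =
      -I * (Q (σ + b * I) - Q (((σ + 1 : ℝ) : ℂ) + b * I)) + I * (Q (σ + a * I) - Q (((σ + 1 : ℝ) : ℂ) + a * I)) +
      ∫ t in a..b, g (((σ + 1 : ℝ) : ℂ) + t * I) *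
      (r / ((r - (((σ + 1 : ℝ) : ℂ) + t * I)) * (r - ((σ : ℂ) + t * I)))) := by
    rw [e1, hdiff]
    have i0 : ∫ t in a..b, f (σ + t * I) = -I * (Q (σ + b * I) - Q (σ + a * I)) := by
      rw [v0, ← mul_assoc]; simp
    have i1 : ∫ t in a..b, f (((σ + 1 : ℝ) : ℂ) + t * I) = -I * (Q (((σ + 1 : ℝ) : ℂ) + b * I) - Q (((σ + 1 : ℝ) : ℂ) + a * I)) := by
      rw [v1, ← mul_assoc]; simp
    rw [i0, i1]
    ring
  have hb := hor_le (P := Q) (g := f) (u := σ) (v := σ + 1) (b := b) (M := Mb) (by linarith)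
    (fun x h1 h2 => hQd _ (hR x b h1 h2 hab le_rfl)) hMb
  have ha := hor_le (P := Q) (g := f) (u := σ) (v := σ + 1) (b := a) (M := Ma) (by linarith)
    (fun x h1 h2 => hQd _ (hR x a h1 h2 le_rfl hab)) hMa
  have hv : ‖∫ t in a..b, g (((σ + 1 : ℝ) : ℂ) + t * I) *
      (r / ((r - (((σ + 1 : ℝ) : ℂ) + t * I)) * (r - ((σ : ℂ) + t * I))))‖ ≤ ∫ t in a..b, φ t := by
    apply intervalIntegral.norm_integral_le_of_norm_le hab _ hφ
    refine ae_of_all _ (fun t ht => ?_)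
    rw [norm_mul]
    exact hφ' t ⟨ht.1.le, ht.2⟩
  rw [e2]
  refine (norm_add₃_le).trans ?_
  rw [norm_mul, norm_mul, norm_neg, Complex.norm_I, one_mul, one_mul, norm_sub_rev (Q (σ + b * I)),
    norm_sub_rev (Q (σ + a * I))]
  linarith

end Pool.Agent.H16.MM
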