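import Mathlib
import Pool.Agent.H16.MM.G2
import Pool.Graph.R_seed8.TH150.FM.Series

set_option autoImplicit false

/-!
# The truncated Mellin integral of `e^(-ix)`
-/

namespace Pool.Agent.H16.MM

open Complex Filter Topology Set MeasureTheory

theorem norm_r {x θ : ℝ} (hx : 0 < x) : ‖(x : ℂ) * cexp (θ * I)‖ = x := by
  rw [norm_mul, Complex.norm_exp_ofReal_mul_I, mul_one, Complex.norm_real, Real.norm_of_nonneg hx.le]

theorem im_r (x θ : ℝ) : ((x : ℂ) * cexp (θ * I)).im = x * Real.sin θ := by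
  rw [Complex.im_ofReal_mul, Complex.exp_ofReal_mul_I_im]

theorem r_ne {x θ : ℝ} (hx : 0 < x) : (x : ℂ) * cexp (θ * I) ≠ 0 :=
  mul_ne_zero (by exact_mod_cast hx.ne') (Complex.exp_ne_zero _)

/-- bound for the weight -/
theorem w_le {x θ : ℝ} (hx : 0 < x) {s : ℂ} {d : ℝ} (hd : 0 < d) (h : d ≤ |((x : ℂ) * cexp (θ * I) - s).im|) :
    ‖(x : ℂ) * cexp (θ * I) / ((x : ℂ) * cexp (θ * I) - s)‖ ≤ x / d := by
  rw [norm_div, norm_r hx]
  have := h.trans (Complex.abs_im_le_norm _)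
  exact div_le_div_of_nonneg_left hx.le hd this

theorem ww_le {x θ : ℝ} (hx : 0 < x) {s s' : ℂ} {d : ℝ} (hd : 0 < d)
    (h : d ≤ |((x : ℂ) * cexp (θ * I) - s).im|) (h' : d ≤ |((x : ℂ) * cexp (θ * I) - s').im|) :
    ‖(x : ℂ) * cexp (θ * I) / (((x : ℂ) * cexp (θ * I) - s) * ((x : ℂ) * cexp (θ * I) - s'))‖ ≤ x / d ^ 2 := by
  rw [norm_div, norm_r hx, norm_mul]
  have h1 := h.trans (Complex.abs_im_le_norm _)
  have h2 := h'.trans (Complex.abs_im_le_norm _)
  apply div_le_div_of_nonneg_left hx.le (by positivity)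
  rw [sq]
  exact mul_le_mul h1 h2 hd.le (hd.le.trans h1)

theorem rpow_ratio_le {T x u σ : ℝ} (hT : 0 < T) (hTx : T ≤ x) (hu : σ ≤ u) :
    T ^ (u - 1 / 2) * x ^ (-u) ≤ T ^ (σ - 1 / 2) * x ^ (-σ) := by
  have hx : 0 < x := hT.trans_le hTx
  have e1 : T ^ (u - 1 / 2) = T ^ (σ - 1 / 2) * T ^ (u - σ) := by
    rw [← Real.rpow_add hT]; congr 1; ring
  have e2 : x ^ (-u) = x ^ (-σ) * x ^ (-(u - σ)) := by
    rw [← Real.rpow_add hx]; congr 1; ring
  have e3 : T ^ (u - σ) * x ^ (-(u - σ)) ≤ 1 := by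
    rw [Real.rpow_neg hx.le, ← div_eq_mul_inv, ← Real.div_rpow hT.le hx.le]
    exact Real.rpow_le_one (by positivity) ((div_le_one hx).2 hTx) (by linarith)
  calc T ^ (u - 1 / 2) * x ^ (-u) = (T ^ (σ - 1 / 2) * x ^ (-σ)) * (T ^ (u - σ) * x ^ (-(u - σ))) := by
        rw [e1, e2]; ring
    _ ≤ (T ^ (σ - 1 / 2) * x ^ (-σ)) * 1 := by
        apply mul_le_mul_of_nonneg_left e3; positivity
    _ = _ := mul_one _

theorem rpow_ratio_le' {T x u σ : ℝ} (hx : 0 < x) (hTx : x ≤ T) (hu : u ≤ σ) :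
    T ^ (u - 1 / 2) * x ^ (-u) ≤ T ^ (σ - 1 / 2) * x ^ (-σ) := by
  have hT : 0 < T := hx.trans_le hTx
  have e1 : T ^ (σ - 1 / 2) = T ^ (u - 1 / 2) * T ^ (σ - u) := by
    rw [← Real.rpow_add hT]; congr 1; ring
  have e2 : x ^ (-σ) = x ^ (-u) * x ^ (-(σ - u)) := by
    rw [← Real.rpow_add hx]; congr 1; ring
  have e3 : 1 ≤ T ^ (σ - u) * x ^ (-(σ - u)) := by
    rw [Real.rpow_neg hx.le, ← div_eq_mul_inv, ← Real.div_rpow hT.le hx.le]
    exact Real.one_le_rpow ((one_le_div hx).2 hTx) (by linarith)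
  calc T ^ (u - 1 / 2) * x ^ (-u) = (T ^ (u - 1 / 2) * x ^ (-u)) * 1 := (mul_one _).symm
    _ ≤ (T ^ (u - 1 / 2) * x ^ (-u)) * (T ^ (σ - u) * x ^ (-(σ - u))) := by
        apply mul_le_mul_of_nonneg_left e3; positivity
    _ = _ := by rw [e1, e2]; ring

/-- the case `x > T` -/
theorem case_U : ∃ K : ℝ, 0 < K ∧ ∀ x T c : ℝ, 2 ≤ T → T < x → 1 ≤ c → c ≤ 2 →
    ‖∫ t in (1:ℝ)..T, gg x (Real.pi / 2) (c + t * I)‖ ≤
      K * (x ^ (-c) + T ^ (c - 1 / 2) * x ^ (-c) * (x / (x - T))) := by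
  obtain ⟨K, hK, hb⟩ := gg_bound
  refine ⟨2 * K, by positivity, fun x T c hT hTx hc1 hc2 => ?_⟩
  have hx : 0 < x := by linarith
  have hT0 : 0 < T := by linarith
  have hxT : 0 < x - T := by linarith
  set r : ℂ := (x : ℂ) * cexp (((Real.pi / 2 : ℝ) : ℂ) * I) with hr
  have hrim : r.im = x := by rw [hr, im_r, Real.sin_pi_div_two, mul_one]
  have hgen : ∀ s : ℂ, 1 / 4 ≤ s.re → s.re ≤ 4 → 1 ≤ s.im →
      ‖gg x (Real.pi / 2) s‖ ≤ K * s.im ^ (s.re - 1 / 2) * x ^ (-s.re) := fun s h1 h2 h3 =>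
    (hb x (Real.pi / 2) hx le_rfl s h1 h2 h3).1
  have hlem := diff_lem (g := gg x (Real.pi / 2)) (r := r) (r_ne hx)
    (U := {s : ℂ | 0 < s.im} ∩ {s : ℂ | s.im < x})
    ((isOpen_lt continuous_const Complex.continuous_im).inter (isOpen_lt Complex.continuous_im continuous_const))
    ((convex_halfSpace_im_gt 0).inter (convex_halfSpace_im_lt x))
    (fun s hs => hs.1)
    (fun s hs h => by
      have h1 : r.im = s.im := by
        have := congrArg Complex.im h
        rw [Complex.sub_im, Complex.zero_im] at this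
        linarith
      rw [hrim] at h1
      have := hs.2
      simp only [mem_ofPred_eq] at this
      linarith)
    (fun s hs => gg_diff hx hs)
    (fun s hs => by
      rw [hr]
      exact gg_succ hx (by intro h; rw [h] at hs; simp at hs))
    (σ := c) (a := 1) (b := T) (by linarith)
    (fun y t h1 h2 h3 h4 => by
      constructor
      · simp; linarith
      · simp; linarith)
    (Ma := K * x ^ (-c) * 2) (Mb := K * (T ^ (c - 1 / 2) * x ^ (-c)) * (x / (x - T)))
    (fun y h1 h2 => by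
      have hy : ((y : ℂ) + (1:ℝ) * I).re = y := by simp
      have hyi : ((y : ℂ) + (1:ℝ) * I).im = 1 := by simp
      rw [norm_mul]
      have g1 := hgen (y + (1:ℝ) * I) (by rw [hy]; linarith) (by rw [hy]; linarith) (by rw [hyi])
      rw [hy, hyi, Real.one_rpow, mul_one] at g1
      have g2 : ‖r / (r - (y + (1:ℝ) * I))‖ ≤ x / (x - 1) := by
        apply w_le hx (by linarith)
        rw [Complex.sub_im, ← hr, hrim, hyi]
        exact le_abs_self _
      have g3 : x / (x - 1) ≤ 2 := by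
        rw [div_le_iff₀ (by linarith)]; linarith
      have g4 : x ^ (-y) ≤ x ^ (-c) := Real.rpow_le_rpow_of_exponent_le (by linarith) (by linarith)
      calc ‖gg x (Real.pi / 2) (y + (1:ℝ) * I)‖ * ‖r / (r - (y + (1:ℝ) * I))‖ ≤ (K * x ^ (-y)) * 2 := by
            apply mul_le_mul g1 (g2.trans g3) (norm_nonneg _) (by positivity)
        _ ≤ K * x ^ (-c) * 2 := by gcongr)
    (fun y h1 h2 => by
      have hy : ((y : ℂ) + T * I).re = y := by simp
      have hyi : ((y : ℂ) + T * I).im = T := by simp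
      rw [norm_mul]
      have g1 := hgen (y + T * I) (by rw [hy]; linarith) (by rw [hy]; linarith) (by rw [hyi]; linarith)
      rw [hy, hyi, mul_assoc] at g1
      have g2 : ‖r / (r - (y + T * I))‖ ≤ x / (x - T) := by
        apply w_le hx hxT
        rw [Complex.sub_im, ← hr, hrim, hyi]
        exact le_abs_self _
      have g4 := rpow_ratio_le hT0 hTx.le h1
      calc ‖gg x (Real.pi / 2) (y + T * I)‖ * ‖r / (r - (y + T * I))‖ ≤
            (K * (T ^ (y - 1 / 2) * x ^ (-y))) * (x / (x - T)) := by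
            apply mul_le_mul g1 g2 (norm_nonneg _) (by positivity)
        _ ≤ _ := by gcongr)
    (φ := fun t => K * (T ^ (c + 1 / 2) * x ^ (-c)) * (1 / (x - t) ^ 2))
    (by
      apply ContinuousOn.intervalIntegrable
      apply ContinuousOn.mul continuousOn_const
      apply ContinuousOn.div continuousOn_const (by fun_prop)
      intro t ht
      rw [uIcc_of_le (by linarith)] at ht
      have : 0 < x - t := by linarith [ht.2]
      positivity)
    (fun t ht => by
      have hy : ((((c + 1 : ℝ)) : ℂ) + t * I).re = c + 1 := by simp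
      have hyi : ((((c + 1 : ℝ)) : ℂ) + t * I).im = t := by simp
      have hyi' : (((c : ℂ)) + t * I).im = t := by simp
      have ht0 : 0 < t := by linarith [ht.1]
      have hxt : 0 < x - t := by linarith [ht.2]
      have g1 := hgen (((c + 1 : ℝ) : ℂ) + t * I) (by rw [hy]; linarith) (by rw [hy]; linarith) (by rw [hyi]; exact ht.1)
      rw [hy, hyi] at g1
      have g2 : ‖r / ((r - (((c + 1 : ℝ) : ℂ) + t * I)) * (r - ((c : ℂ) + t * I)))‖ ≤ x / (x - t) ^ 2 := by
        apply ww_le hx hxt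
        · rw [Complex.sub_im, ← hr, hrim, hyi]
          exact le_abs_self _
        · rw [Complex.sub_im, ← hr, hrim, hyi']
          exact le_abs_self _
      have g3 : t ^ (c + 1 - 1 / 2) ≤ T ^ (c + 1 / 2) := by
        rw [show c + 1 - 1 / 2 = c + 1 / 2 by ring]
        exact Real.rpow_le_rpow ht0.le ht.2 (by linarith)
      have e : x ^ (-(c + 1)) * x = x ^ (-c) := by
        conv_lhs => rw [show x = x ^ (1:ℝ) from (Real.rpow_one x).symm]
        rw [← Real.rpow_mul hx.le, ← Real.rpow_add hx]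
        congr 1; ring
      calc _ ≤ (K * t ^ (c + 1 - 1 / 2) * x ^ (-(c + 1))) * (x / (x - t) ^ 2) := by
            apply mul_le_mul g1 g2 (norm_nonneg _) (by positivity)
        _ ≤ (K * T ^ (c + 1 / 2) * x ^ (-(c + 1))) * (x / (x - t) ^ 2) := by gcongr
        _ = K * (T ^ (c + 1 / 2) * (x ^ (-(c + 1)) * x)) * (1 / (x - t) ^ 2) := by ring
        _ = _ := by rw [e])
  refine hlem.trans ?_
  -- the integral
  have hint : ∫ t in (1:ℝ)..T, K * (T ^ (c + 1 / 2) * x ^ (-c)) * (1 / (x - t) ^ 2) ≤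
      K * (T ^ (c + 1 / 2) * x ^ (-c)) * (1 / (x - T)) := by
    rw [intervalIntegral.integral_const_mul]
    apply mul_le_mul_of_nonneg_left _ (by positivity)
    have hder : ∀ t ∈ uIcc 1 T, HasDerivAt (fun t : ℝ => 1 / (x - t)) (1 / (x - t) ^ 2) t := by
      intro t ht
      rw [uIcc_of_le (by linarith)] at ht
      have h1 : x - t ≠ 0 := by have := ht.2; intro h; linarith
      have h2 : HasDerivAt (fun t : ℝ => x - t) (-1) t := by
        simpa using (hasDerivAt_id t).const_sub x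
      have h3 : HasDerivAt (fun t : ℝ => (x - t)⁻¹) (-(-1) / (x - t) ^ 2) t := h2.inv h1
      rw [neg_neg] at h3
      simp only [one_div] at h3 ⊢
      exact h3
    rw [intervalIntegral.integral_eq_sub_of_hasDerivAt hder]
    · have : 0 ≤ 1 / (x - 1) := by
        apply div_nonneg zero_le_one; linarith
      linarith
    · apply ContinuousOn.intervalIntegrable
      apply ContinuousOn.div continuousOn_const (by fun_prop)
      intro t ht
      rw [uIcc_of_le (by linarith)] at ht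
      have : 0 < x - t := by linarith [ht.2]
      positivity
  have h2 : T ^ (c + 1 / 2) * x ^ (-c) * (1 / (x - T)) ≤ T ^ (c - 1 / 2) * x ^ (-c) * (x / (x - T)) := by
    have e : T ^ (c + 1 / 2) = T ^ (c - 1 / 2) * T := by
      conv_rhs => rw [show T ^ (c - 1 / 2) * T = T ^ (c - 1 / 2) * T ^ (1:ℝ) by rw [Real.rpow_one]]
      rw [← Real.rpow_add hT0]; congr 1; ring
    rw [e]
    calc T ^ (c - 1 / 2) * T * x ^ (-c) * (1 / (x - T)) = T ^ (c - 1 / 2) * x ^ (-c) * (T / (x - T)) := by ring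
      _ ≤ _ := by gcongr
  calc K * x ^ (-c) * 2 + K * (T ^ (c - 1 / 2) * x ^ (-c)) * (x / (x - T)) +
        ∫ t in (1:ℝ)..T, K * (T ^ (c + 1 / 2) * x ^ (-c)) * (1 / (x - t) ^ 2)
      ≤ K * x ^ (-c) * 2 + K * (T ^ (c - 1 / 2) * x ^ (-c)) * (x / (x - T)) +
        K * (T ^ (c + 1 / 2) * x ^ (-c)) * (1 / (x - T)) := by linarith
    _ = K * x ^ (-c) * 2 + K * (T ^ (c - 1 / 2) * x ^ (-c) * (x / (x - T))) +
        K * (T ^ (c + 1 / 2) * x ^ (-c) * (1 / (x - T))) := by ring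
    _ ≤ K * x ^ (-c) * 2 + K * (T ^ (c - 1 / 2) * x ^ (-c) * (x / (x - T))) +
        K * (T ^ (c - 1 / 2) * x ^ (-c) * (x / (x - T))) := by gcongr
    _ = _ := by ring

/-- the trivial bound -/
theorem case_N : ∃ K : ℝ, 0 < K ∧ ∀ x T c : ℝ, 2 ≤ T → 0 < x → 1 ≤ c → c ≤ 2 →
    ‖∫ t in (1:ℝ)..T, gg x (Real.pi / 2) (c + t * I)‖ ≤ K * (T ^ (c + 1 / 2) * x ^ (-c)) := by
  obtain ⟨K, hK, hb⟩ := gg_bound
  refine ⟨K, by positivity, fun x T c hT hx hc1 hc2 => ?_⟩
  have hT0 : 0 < T := by linarith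
  have h := intervalIntegral.norm_integral_le_of_norm_le_const (a := 1) (b := T)
    (f := fun t : ℝ => gg x (Real.pi / 2) (c + t * I)) (C := K * (T ^ (c - 1 / 2) * x ^ (-c))) (by
      intro t ht
      rw [uIoc_of_le (by linarith)] at ht
      have hy : ((c : ℂ) + t * I).re = c := by simp
      have hyi : ((c : ℂ) + t * I).im = t := by simp
      have g1 := (hb x (Real.pi / 2) hx le_rfl (c + t * I) (by rw [hy]; linarith) (by rw [hy]; linarith)
        (by rw [hyi]; exact ht.1.le)).1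
      rw [hy, hyi, mul_assoc] at g1
      refine g1.trans ?_
      have : t ^ (c - 1 / 2) ≤ T ^ (c - 1 / 2) := Real.rpow_le_rpow (by linarith [ht.1]) ht.2 (by linarith)
      gcongr)
  refine h.trans ?_
  rw [abs_of_nonneg (by linarith)]
  have e : T ^ (c + 1 / 2) = T ^ (c - 1 / 2) * T := by
    conv_rhs => rw [show T ^ (c - 1 / 2) * T = T ^ (c - 1 / 2) * T ^ (1:ℝ) by rw [Real.rpow_one]]
    rw [← Real.rpow_add hT0]; congr 1; ring
  rw [e]
  calc K * (T ^ (c - 1 / 2) * x ^ (-c)) * (T - 1) ≤ K * (T ^ (c - 1 / 2) * x ^ (-c)) * T := by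
        gcongr; linarith
    _ = _ := by ring

end Pool.Agent.H16.MM
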