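import Mathlib
import Pool.Agent.H16.MM.G3

set_option autoImplicit false

namespace Pool.Agent.H16.MM

open Complex Filter Topology Set MeasureTheory

theorem tail_real {x T b : ℝ} (hT : 1 ≤ T) (hx : 0 < x) (hxT : x < T) (hTb : T ≤ b) :
    ∫ t in T..b, t ^ (3 / 4 : ℝ) * (1 / (t - x) ^ 2) ≤ 4 * (T ^ (3 / 4 : ℝ) / (T - x)) := by
  have hpos : ∀ t ∈ uIcc T b, 0 < t - x ∧ 0 < t := by
    intro t ht
    rw [uIcc_of_le hTb] at ht
    constructor <;> linarith [ht.1]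
  have hder : ∀ t ∈ uIcc T b, HasDerivAt (fun t : ℝ => -(t ^ (3 / 4 : ℝ) * (t - x)⁻¹))
      (-((3 / 4) * t ^ (3 / 4 - 1 : ℝ) * (t - x)⁻¹ + t ^ (3 / 4 : ℝ) * (-1 / (t - x) ^ 2))) t := by
    intro t ht
    obtain ⟨h1, h2⟩ := hpos t ht
    have d1 : HasDerivAt (fun t : ℝ => t ^ (3 / 4 : ℝ)) ((3 / 4) * t ^ (3 / 4 - 1 : ℝ)) t :=
      Real.hasDerivAt_rpow_const (Or.inl h2.ne')
    have d2 : HasDerivAt (fun t : ℝ => t - x) 1 t := (hasDerivAt_id t).sub_const x
    have d3 : HasDerivAt (fun t : ℝ => (t - x)⁻¹) (-1 / (t - x) ^ 2) t := d2.inv h1.ne'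
    exact (d1.mul d3).neg
  have hcont : ContinuousOn (fun t : ℝ => -((3 / 4) * t ^ (3 / 4 - 1 : ℝ) * (t - x)⁻¹ + t ^ (3 / 4 : ℝ) * (-1 / (t - x) ^ 2)))
      (uIcc T b) := by
    apply ContinuousOn.neg
    apply ContinuousOn.add
    · apply ContinuousOn.mul
      · apply ContinuousOn.mul continuousOn_const
        exact ContinuousOn.rpow_const continuousOn_id (fun t ht => Or.inl (hpos t ht).2.ne')
      · exact ContinuousOn.inv₀ (by fun_prop) (fun t ht => (hpos t ht).1.ne')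
    · apply ContinuousOn.mul
      · exact ContinuousOn.rpow_const continuousOn_id (fun t ht => Or.inl (hpos t ht).2.ne')
      · apply ContinuousOn.div continuousOn_const (by fun_prop)
        intro t ht
        exact pow_ne_zero 2 (hpos t ht).1.ne'
  have hcont2 : ContinuousOn (fun t : ℝ => t ^ (3 / 4 : ℝ) * (1 / (t - x) ^ 2)) (uIcc T b) := by
    apply ContinuousOn.mul
    · exact ContinuousOn.rpow_const continuousOn_id (fun t ht => Or.inl (hpos t ht).2.ne')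
    · apply ContinuousOn.div continuousOn_const (by fun_prop)
      intro t ht
      exact pow_ne_zero 2 (hpos t ht).1.ne'
  have hftc := intervalIntegral.integral_eq_sub_of_hasDerivAt hder hcont.intervalIntegrable
  have hmono : ∫ t in T..b, t ^ (3 / 4 : ℝ) * (1 / (t - x) ^ 2) ≤
      ∫ t in T..b, 4 * (-((3 / 4) * t ^ (3 / 4 - 1 : ℝ) * (t - x)⁻¹ + t ^ (3 / 4 : ℝ) * (-1 / (t - x) ^ 2))) := by
    apply intervalIntegral.integral_mono_on hTb hcont2.intervalIntegrable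
      ((continuousOn_const.mul hcont).intervalIntegrable)
    intro t ht
    have ht' : t ∈ uIcc T b := by rw [uIcc_of_le hTb]; exact ht
    obtain ⟨h1, h2⟩ := hpos t ht'
    have e1 : t ^ (3 / 4 - 1 : ℝ) * t = t ^ (3 / 4 : ℝ) := by
      conv_lhs => rw [show t ^ (3 / 4 - 1 : ℝ) * t = t ^ (3 / 4 - 1 : ℝ) * t ^ (1:ℝ) by rw [Real.rpow_one]]
      rw [← Real.rpow_add h2]; congr 1; norm_num
    change t ^ (3 / 4 : ℝ) * (1 / (t - x) ^ 2) ≤
      4 * (-((3 / 4) * t ^ (3 / 4 - 1 : ℝ) * (t - x)⁻¹ + t ^ (3 / 4 : ℝ) * (-1 / (t - x) ^ 2)))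
    set p := t ^ (3 / 4 - 1 : ℝ) with hp
    have hp0 : 0 < p := by positivity
    rw [← e1]
    have e2 : 4 * (-(3 / 4 * p * (t - x)⁻¹ + p * t * (-1 / (t - x) ^ 2))) - p * t * (1 / (t - x) ^ 2) =
        3 * p * x / (t - x) ^ 2 := by
      field_simp
      ring
    have : 0 ≤ 3 * p * x / (t - x) ^ 2 := by positivity
    linarith
  rw [intervalIntegral.integral_const_mul, hftc] at hmono
  refine hmono.trans ?_
  have hb := hpos b right_mem_uIcc
  have h3 : 0 ≤ b ^ (3 / 4 : ℝ) * (b - x)⁻¹ := by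
    have := hb.1; have := hb.2; positivity
  have e : T ^ (3 / 4 : ℝ) / (T - x) = T ^ (3 / 4 : ℝ) * (T - x)⁻¹ := div_eq_mul_inv _ _
  rw [e]
  linarith

theorem mono_b {x T b : ℝ} (hT : 1 ≤ T) (hx : 0 < x) (hxT : x < T) (hTb : T ≤ b) :
    b ^ (3 / 4 : ℝ) / (b - x) ≤ T ^ (3 / 4 : ℝ) / (T - x) := by
  have hT0 : 0 < T := by linarith
  have hb0 : 0 < b := by linarith
  rw [div_le_div_iff₀ (by linarith) (by linarith)]
  have h1 : b ^ (3 / 4 : ℝ) = T ^ (3 / 4 : ℝ) * (b / T) ^ (3 / 4 : ℝ) := by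
    rw [← Real.mul_rpow hT0.le (by positivity)]; congr 1; field_simp
  have h2 : (b / T) ^ (3 / 4 : ℝ) ≤ b / T := by
    have h3 : 1 ≤ b / T := (one_le_div hT0).2 hTb
    calc (b / T) ^ (3 / 4 : ℝ) ≤ (b / T) ^ (1 : ℝ) := Real.rpow_le_rpow_of_exponent_le h3 (by norm_num)
      _ = b / T := Real.rpow_one _
  have h4 : b / T * (T - x) ≤ b - x := by
    rw [div_mul_eq_mul_div, div_le_iff₀ hT0]
    nlinarith
  rw [h1]
  calc T ^ (3 / 4 : ℝ) * (b / T) ^ (3 / 4 : ℝ) * (T - x) ≤ T ^ (3 / 4 : ℝ) * (b / T) * (T - x) := by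
        gcongr
    _ = T ^ (3 / 4 : ℝ) * (b / T * (T - x)) := by ring
    _ ≤ _ := by gcongr

/-- the tail on the line `Re s = 1/4` -/
theorem case_L_tail : ∃ K : ℝ, 0 < K ∧ ∀ x T b θ : ℝ, 1 ≤ T → 0 < x → x < T → T ≤ b → θ ≤ Real.pi / 2 →
    ‖∫ t in T..b, gg x θ (((1 / 4 : ℝ) : ℂ) + t * I)‖ ≤ K * (T ^ (3 / 4 : ℝ) * x ^ (-(1 / 4) : ℝ) / (T - x)) := by
  obtain ⟨K, hK, hb⟩ := gg_bound
  refine ⟨6 * K, by positivity, fun x T b θ hT hx hxT hTb hθ => ?_⟩
  have hT0 : 0 < T := by linarith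
  have hb0 : 0 < b := by linarith
  have hTx : 0 < T - x := by linarith
  have hbx : 0 < b - x := by linarith
  set r : ℂ := (x : ℂ) * cexp (θ * I) with hr
  have hrim : r.im ≤ x := by
    rw [hr, im_r]
    nlinarith [Real.sin_le_one θ]
  have hgen : ∀ s : ℂ, 1 / 4 ≤ s.re → s.re ≤ 4 → 1 ≤ s.im →
      ‖gg x θ s‖ ≤ K * s.im ^ (s.re - 1 / 2) * x ^ (-s.re) := fun s h1 h2 h3 =>
    (hb x θ hx hθ s h1 h2 h3).1
  have habs : ∀ (s : ℂ), x ≤ s.im → s.im - x ≤ |(r - s).im| := by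
    intro s hs
    rw [Complex.sub_im, abs_sub_comm]
    calc s.im - x ≤ s.im - r.im := by linarith
      _ ≤ _ := le_abs_self _
  have exx : x ^ (-(5 / 4) : ℝ) * x = x ^ (-(1 / 4) : ℝ) := by
    conv_lhs => rw [show x ^ (-(5 / 4) : ℝ) * x = x ^ (-(5 / 4) : ℝ) * x ^ (1:ℝ) by rw [Real.rpow_one]]
    rw [← Real.rpow_add hx]; congr 1; norm_num
  have hedge : ∀ Y : ℝ, T ≤ Y → ∀ y : ℝ, (1 / 4 : ℝ) ≤ y → y ≤ 1 / 4 + 1 →
      ‖gg x θ (y + Y * I) * (r / (r - (y + Y * I)))‖ ≤ K * x ^ (-(1 / 4) : ℝ) * (Y ^ (3 / 4 : ℝ) / (Y - x)) := by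
    intro Y hY y h1 h2
    have hy : ((y : ℂ) + Y * I).re = y := by simp
    have hyi : ((y : ℂ) + Y * I).im = Y := by simp
    have hY0 : 0 < Y := by linarith
    have hYx : 0 < Y - x := by linarith
    rw [norm_mul]
    have g1 := hgen (y + Y * I) (by rw [hy]; linarith) (by rw [hy]; linarith) (by rw [hyi]; linarith)
    rw [hy, hyi, mul_assoc] at g1
    have g2 : ‖r / (r - (y + Y * I))‖ ≤ x / (Y - x) := by
      apply w_le hx hYx
      have := habs (y + Y * I) (by rw [hyi]; linarith)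
      rw [hyi] at this
      exact this
    have g4 := rpow_ratio_le' (T := Y) (u := y) (σ := 5 / 4) hx (by linarith) (by linarith)
    calc ‖gg x θ (y + Y * I)‖ * ‖r / (r - (y + Y * I))‖ ≤
          (K * (Y ^ (y - 1 / 2) * x ^ (-y))) * (x / (Y - x)) := by
          apply mul_le_mul g1 g2 (norm_nonneg _) (by positivity)
      _ ≤ (K * (Y ^ (5 / 4 - 1 / 2 : ℝ) * x ^ (-(5 / 4) : ℝ))) * (x / (Y - x)) := by gcongr
      _ = K * (x ^ (-(5 / 4) : ℝ) * x) * (Y ^ (5 / 4 - 1 / 2 : ℝ) / (Y - x)) := by ring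
      _ = _ := by rw [exx]; norm_num
  have hlem := diff_lem (g := gg x θ) (r := r) (r_ne hx)
    (U := {s : ℂ | x < s.im})
    (isOpen_lt continuous_const Complex.continuous_im)
    (convex_halfSpace_im_gt x)
    (fun s hs => lt_trans hx hs)
    (fun s hs h => by
      have h1 : r.im = s.im := by
        have := congrArg Complex.im h
        rw [Complex.sub_im, Complex.zero_im] at this
        linarith
      have : x < s.im := hs
      linarith)
    (fun s hs => gg_diff hx hs)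
    (fun s hs => by
      rw [hr]
      exact gg_succ hx (by intro h; rw [h] at hs; simp at hs))
    (σ := 1 / 4) (a := T) (b := b) hTb
    (fun y t h1 h2 h3 h4 => by
      simp only [mem_ofPred_eq]
      simp
      linarith)
    (hedge T le_rfl) (hedge b hTb)
    (φ := fun t => K * x ^ (-(1 / 4) : ℝ) * (t ^ (3 / 4 : ℝ) * (1 / (t - x) ^ 2)))
    (by
      apply ContinuousOn.intervalIntegrable
      apply ContinuousOn.mul continuousOn_const
      have hpos : ∀ t ∈ uIcc T b, 0 < t - x ∧ 0 < t := by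
        intro t ht
        rw [uIcc_of_le hTb] at ht
        constructor <;> linarith [ht.1]
      apply ContinuousOn.mul
      · exact ContinuousOn.rpow_const continuousOn_id (fun t ht => Or.inl (hpos t ht).2.ne')
      · apply ContinuousOn.div continuousOn_const (by fun_prop)
        intro t ht
        exact pow_ne_zero 2 (hpos t ht).1.ne')
    (fun t ht => by
      have hy : ((((1 / 4 + 1 : ℝ)) : ℂ) + t * I).re = 1 / 4 + 1 := by simp
      have hyi : ((((1 / 4 + 1 : ℝ)) : ℂ) + t * I).im = t := by simp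
      have hyi' : ((((1 / 4 : ℝ)) : ℂ) + t * I).im = t := by simp
      have ht0 : 0 < t := by linarith [ht.1]
      have hxt : 0 < t - x := by linarith [ht.1]
      have g1 := hgen (((1 / 4 + 1 : ℝ) : ℂ) + t * I) (by rw [hy]; linarith) (by rw [hy]; linarith)
        (by rw [hyi]; linarith [ht.1])
      rw [hy, hyi] at g1
      have g2 : ‖r / ((r - (((1 / 4 + 1 : ℝ) : ℂ) + t * I)) * (r - (((1 / 4 : ℝ) : ℂ) + t * I)))‖ ≤ x / (t - x) ^ 2 := by
        apply ww_le hx hxt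
        · have := habs (((1 / 4 + 1 : ℝ) : ℂ) + t * I) (by rw [hyi]; linarith)
          rw [hyi] at this
          exact this
        · have := habs (((1 / 4 : ℝ) : ℂ) + t * I) (by rw [hyi']; linarith)
          rw [hyi'] at this
          exact this
      calc _ ≤ (K * t ^ (1 / 4 + 1 - 1 / 2 : ℝ) * x ^ (-(1 / 4 + 1) : ℝ)) * (x / (t - x) ^ 2) := by
            apply mul_le_mul g1 g2 (norm_nonneg _) (by positivity)
        _ = K * (x ^ (-(1 / 4 + 1) : ℝ) * x) * (t ^ (1 / 4 + 1 - 1 / 2 : ℝ) * (1 / (t - x) ^ 2)) := by ring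
        _ = K * (x ^ (-(5 / 4) : ℝ) * x) * (t ^ (3 / 4 : ℝ) * (1 / (t - x) ^ 2)) := by norm_num
        _ = _ := by rw [exx])
  refine hlem.trans ?_
  rw [intervalIntegral.integral_const_mul]
  have h1 := tail_real hT hx hxT hTb
  have h2 := mono_b hT hx hxT hTb
  have hx4 : 0 < K * x ^ (-(1 / 4) : ℝ) := by positivity
  calc _ ≤ K * x ^ (-(1 / 4) : ℝ) * (T ^ (3 / 4 : ℝ) / (T - x)) + K * x ^ (-(1 / 4) : ℝ) * (T ^ (3 / 4 : ℝ) / (T - x)) +
        K * x ^ (-(1 / 4) : ℝ) * (4 * (T ^ (3 / 4 : ℝ) / (T - x))) := by gcongr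
    _ = _ := by ring

end Pool.Agent.H16.MM
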