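import Mathlib
import Pool.Agent.H16.MM.G4

set_option autoImplicit false

namespace Pool.Agent.H16.MM

open Complex Filter Topology Set MeasureTheory
open Pool.Agent.TH158.FM (pt)

theorem gg_cont {x θ : ℝ} (hx : 0 < x) {σ : ℝ} (hσ : 0 < σ) : Continuous (fun t : ℝ => gg x θ (σ + t * I)) := by
  have hx' : (x : ℂ) ≠ 0 := by exact_mod_cast hx.ne'
  rw [continuous_iff_continuousAt]
  intro t
  have h : DifferentiableAt ℂ (gg x θ) (σ + t * I) := by
    unfold gg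
    apply DifferentiableAt.mul
    · apply DifferentiableAt.mul
      · apply Complex.differentiableAt_Gamma
        intro m h
        have := congrArg Complex.re h
        simp at this
        have h0 : (0 : ℝ) ≤ m := Nat.cast_nonneg m
        linarith
      · apply DifferentiableAt.const_cpow
        · fun_prop
        · exact Or.inl hx'
    · fun_prop
  exact ContinuousAt.comp (f := fun t : ℝ => (σ : ℂ) + t * I) h.continuousAt (by fun_prop)

/-- the part below height `1` on the line `Re s = 2` -/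
theorem lower_le : ∃ K : ℝ, 0 < K ∧ ∀ x θ : ℝ, 0 < x → 0 < θ → θ < Real.pi / 2 →
    ‖∫ t in Iic (1:ℝ), gg x θ (((2:ℝ) : ℂ) + t * I)‖ ≤ K * x ^ (-(2:ℝ)) := by
  set C : ℝ := (1 / Real.cos 1) ^ (2 : ℝ) * Real.Gamma 2 with hC
  have hpi := Real.pi_gt_three
  have hint := TH150.FMSeries.int_abs (c := 1) one_pos
  have hI : 0 ≤ ∫ t : ℝ, Real.exp (-(1 * |t|)) := integral_nonneg (fun t => (Real.exp_pos _).le)
  have hcos : 0 < Real.cos 1 := Real.cos_one_pos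
  have hC0 : 0 ≤ C := by
    have : 0 < Real.Gamma 2 := Real.Gamma_pos_of_pos (by norm_num)
    positivity
  refine ⟨Real.exp 2 * C * (∫ t : ℝ, Real.exp (-(1 * |t|))) + 1, by positivity, fun x θ hx hθ0 hθ1 => ?_⟩
  have hb : ∀ t : ℝ, t ≤ 1 → ‖gg x θ (((2:ℝ) : ℂ) + t * I)‖ ≤ (Real.exp 2 * C * x ^ (-(2:ℝ))) * Real.exp (-(1 * |t|)) := by
    intro t ht
    rw [norm_gg hx]
    have e1 : (((2:ℝ) : ℂ) + t * I).re = 2 := by simp
    have e2 : (((2:ℝ) : ℂ) + t * I).im = t := by simp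
    rw [e1, e2]
    have b1 := TH150.FMSeries.gam_bound (φ := 1) (by linarith) (by linarith) t
    have b2 := TH150.FMSeries.gam_bound (φ := -1) (by linarith) (by linarith) t
    rw [Real.cos_neg, ← hC] at b2
    rw [← hC] at b1
    have hpt : pt 2 t = ((2:ℝ) : ℂ) + t * I := rfl
    rw [hpt] at b1 b2
    have hG : ‖Complex.Gamma (((2:ℝ) : ℂ) + t * I)‖ ≤ C * Real.exp (-(1 * |t|)) := by
      rcases le_total 0 t with h0 | h0
      · rw [abs_of_nonneg h0, Real.exp_neg, ← div_eq_mul_inv, le_div_iff₀ (Real.exp_pos _)]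
        exact b1
      · rw [abs_of_nonpos h0, Real.exp_neg, ← div_eq_mul_inv, le_div_iff₀ (Real.exp_pos _)]
        have : (1:ℝ) * -t = -1 * t := by ring
        rw [this]
        exact b2
    have he : Real.exp (θ * t) ≤ Real.exp 2 := by
      apply Real.exp_le_exp.2
      have hpi4 := Real.pi_le_four
      rcases le_total 0 t with h0 | h0
      · nlinarith
      · nlinarith
    calc ‖Complex.Gamma (((2:ℝ) : ℂ) + t * I)‖ * x ^ (-(2:ℝ)) * Real.exp (θ * t)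
        ≤ (C * Real.exp (-(1 * |t|))) * x ^ (-(2:ℝ)) * Real.exp 2 := by gcongr
      _ = _ := by ring
  have h1 : ‖∫ t in Iic (1:ℝ), gg x θ (((2:ℝ) : ℂ) + t * I)‖ ≤
      ∫ t in Iic (1:ℝ), (Real.exp 2 * C * x ^ (-(2:ℝ))) * Real.exp (-(1 * |t|)) := by
    apply norm_integral_le_of_norm_le (hint.const_mul _).integrableOn
    rw [ae_restrict_iff' measurableSet_Iic]
    exact Filter.Eventually.of_forall (fun t ht => hb t ht)
  refine h1.trans ?_
  rw [integral_const_mul]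
  have h2 : ∫ t in Iic (1:ℝ), Real.exp (-(1 * |t|)) ≤ ∫ t : ℝ, Real.exp (-(1 * |t|)) :=
    setIntegral_le_integral hint (Filter.Eventually.of_forall (fun t => (Real.exp_pos _).le))
  have h3 : 0 ≤ Real.exp 2 * C * x ^ (-(2:ℝ)) := by positivity
  have h4 : 0 < x ^ (-(2:ℝ)) := by positivity
  calc Real.exp 2 * C * x ^ (-(2:ℝ)) * ∫ t in Iic (1:ℝ), Real.exp (-(1 * |t|))
      ≤ Real.exp 2 * C * x ^ (-(2:ℝ)) * ∫ t : ℝ, Real.exp (-(1 * |t|)) := mul_le_mul_of_nonneg_left h2 h3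
    _ ≤ _ := by nlinarith

/-- small powers for `x ≥ x₀` -/
theorem rpow_cmp {x0 x c u : ℝ} (hx0 : 0 < x0) (hx : x0 ≤ x) (hcu : c ≤ u) (hu : u ≤ c + 1) :
    x ^ (-u) ≤ (1 + 1 / x0) * x ^ (-c) := by
  have hxp : 0 < x := hx0.trans_le hx
  have e : x ^ (-u) = x ^ (-c) * (1 / x) ^ (u - c) := by
    rw [one_div, Real.inv_rpow hxp.le, ← Real.rpow_neg hxp.le, ← Real.rpow_add hxp]
    congr 1; ring
  rw [e]
  have h1 : (1 / x) ^ (u - c) ≤ (1 + 1 / x0) ^ (u - c) := by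
    apply Real.rpow_le_rpow (by positivity) _ (by linarith)
    have : 1 / x ≤ 1 / x0 := one_div_le_one_div_of_le hx0 hx
    linarith
  have h2 : (1 + 1 / x0) ^ (u - c) ≤ 1 + 1 / x0 := by
    have h3 : 1 ≤ 1 + 1 / x0 := by
      have : 0 < 1 / x0 := by positivity
      linarith
    calc (1 + 1 / x0) ^ (u - c) ≤ (1 + 1 / x0) ^ (1 : ℝ) := Real.rpow_le_rpow_of_exponent_le h3 (by linarith)
      _ = _ := Real.rpow_one _
  have h4 : 0 < x ^ (-c) := by positivity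
  nlinarith

/-- comparison of the full upper half line with the segment, for `θ < π/2` -/
theorem case_L_aux {x0 : ℝ} (hx0 : 0 < x0) : ∃ K : ℝ, 0 < K ∧ ∀ x T c θ : ℝ, x0 ≤ x → 2 ≤ T → x < T → 1 ≤ c → c ≤ 2 →
    0 < θ → θ < Real.pi / 2 →
    ‖(∫ t in (1:ℝ)..T, gg x θ (c + t * I)) - 2 * Real.pi * cexp (-(cexp ((θ : ℂ) * I) * x))‖ ≤
      K * (T ^ (c - 1 / 2) * x ^ (-c) + T ^ (3 / 4 : ℝ) * x ^ (-(1 / 4) : ℝ) / (T - x)) := by
  obtain ⟨K, hK, hgb⟩ := gg_bound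
  obtain ⟨K1, hK1, hLT⟩ := case_L_tail
  obtain ⟨K2, hK2, hlow⟩ := lower_le
  refine ⟨K1 + 2 * K + K * (1 + 1 / x0) + K2 * (1 + 1 / x0), by positivity, fun x T c θ hx hT hxT hc1 hc2 hθ0 hθ1 => ?_⟩
  have hxp : 0 < x := hx0.trans_le hx
  have hT0 : 0 < T := by linarith
  have hTx : 0 < T - x := by linarith
  -- the primitive
  have hconv : Convex ℝ {s : ℂ | 0 < s.im} := convex_halfSpace_im_gt 0
  have hopen : IsOpen {s : ℂ | 0 < s.im} := isOpen_lt continuous_const Complex.continuous_im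
  obtain ⟨P, hP⟩ := hconv.exists_forall_hasDerivWithinAt (f := gg x θ)
    (fun s hs => (gg_diff hxp hs).differentiableWithinAt)
  have hPd : ∀ s : ℂ, 0 < s.im → HasDerivAt P (gg x θ s) s := fun s hs =>
    (hP s hs).hasDerivAt (hopen.mem_nhds hs)
  have hvert : ∀ (σ a b : ℝ), 0 < σ → 1 ≤ a → a ≤ b → P (σ + b * I) - P (σ + a * I) = I * ∫ t in a..b, gg x θ (σ + t * I) := by
    intro σ a b hσ ha hab
    apply vert_eq
    · intro t ht
      rw [uIcc_of_le hab] at ht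
      apply hPd
      simp
      linarith [ht.1]
    · exact (gg_cont hxp hσ).continuousOn
  -- horizontal bounds
  have hor : ∀ (u v b M : ℝ), u ≤ v → 1 ≤ b → (∀ y : ℝ, u ≤ y → y ≤ v → ‖gg x θ (y + b * I)‖ ≤ M) →
      ‖P (v + b * I) - P (u + b * I)‖ ≤ M * (v - u) := by
    intro u v b M huv hb hM
    apply hor_le huv _ hM
    intro y _ _
    apply hPd
    simp
    linarith
  have hgen : ∀ y b : ℝ, 1 / 4 ≤ y → y ≤ 4 → 1 ≤ b → ‖gg x θ (y + b * I)‖ ≤ K * (b ^ (y - 1 / 2) * x ^ (-y)) ∧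
      ‖gg x θ (y + b * I)‖ ≤ K * (b ^ (y - 1 / 2) * x ^ (-y)) * Real.exp (-((Real.pi / 2 - θ) * b)) := by
    intro y b h1 h2 h3
    have hy : ((y : ℂ) + b * I).re = y := by simp
    have hyi : ((y : ℂ) + b * I).im = b := by simp
    have := hgb x θ hxp hθ1.le (y + b * I) (by rw [hy]; linarith) (by rw [hy]; linarith) (by rw [hyi]; linarith)
    rw [hy, hyi, mul_assoc K] at this
    exact this
  have N3 : ‖P (c + T * I) - P (((1 / 4 : ℝ) : ℂ) + T * I)‖ ≤ K * (T ^ (c - 1 / 2) * x ^ (-c)) * (c - 1 / 4) := by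
    apply hor _ _ _ _ (by linarith) (by linarith)
    intro y h1 h2
    refine (hgen y T h1 (by linarith) (by linarith)).1.trans ?_
    have := rpow_ratio_le' (T := T) (u := y) (σ := c) hxp hxT.le h2
    gcongr
  have N5 : ‖P (((2 : ℝ) : ℂ) + (1:ℝ) * I) - P (c + (1:ℝ) * I)‖ ≤ K * ((1 + 1 / x0) * x ^ (-c)) * (2 - c) := by
    apply hor _ _ _ _ hc2 le_rfl
    intro y h1 h2
    refine (hgen y 1 (by linarith) (by linarith) le_rfl).1.trans ?_
    rw [Real.one_rpow, one_mul]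
    have := rpow_cmp hx0 hx h1 (by linarith)
    gcongr
  have N2 : ∀ b : ℝ, T ≤ b → ‖P (((1 / 4 : ℝ) : ℂ) + b * I) - P (((1 / 4 : ℝ) : ℂ) + T * I)‖ ≤
      K1 * (T ^ (3 / 4 : ℝ) * x ^ (-(1 / 4) : ℝ) / (T - x)) := by
    intro b hb
    rw [hvert (1 / 4) T b (by norm_num) (by linarith) hb, norm_mul, Complex.norm_I, one_mul]
    exact hLT x T b θ (by linarith) hxp hxT hb hθ1.le
  -- the first horizontal piece tends to zero
  have N1 : Tendsto (fun b : ℝ => ‖P (((2 : ℝ) : ℂ) + b * I) - P (((1 / 4 : ℝ) : ℂ) + b * I)‖) atTop (𝓝 0) := by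
    have hup : ∀ b : ℝ, 1 ≤ b → ‖P (((2 : ℝ) : ℂ) + b * I) - P (((1 / 4 : ℝ) : ℂ) + b * I)‖ ≤
        (2 * K * (x ^ (-(1 / 4) : ℝ) + x ^ (-(2:ℝ)))) * (b ^ (3 / 2 : ℝ) * Real.exp (-(Real.pi / 2 - θ) * b)) := by
      intro b hb
      have h := hor (1 / 4) 2 b (K * (b ^ (3 / 2 : ℝ) * (x ^ (-(1 / 4) : ℝ) + x ^ (-(2:ℝ)))) * Real.exp (-((Real.pi / 2 - θ) * b)))
        (by norm_num) hb (by
          intro y h1 h2
          refine (hgen y b h1 (by linarith) hb).2.trans ?_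
          have h3 : b ^ (y - 1 / 2) ≤ b ^ (3 / 2 : ℝ) := Real.rpow_le_rpow_of_exponent_le hb (by linarith)
          have h4 : x ^ (-y) ≤ x ^ (-(1 / 4) : ℝ) + x ^ (-(2:ℝ)) := by
            rcases le_total 1 x with h5 | h5
            · have : x ^ (-y) ≤ x ^ (-(1 / 4) : ℝ) := Real.rpow_le_rpow_of_exponent_le h5 (by linarith)
              have h6 : 0 < x ^ (-(2:ℝ)) := by positivity
              linarith
            · have : x ^ (-y) ≤ x ^ (-(2:ℝ)) := Real.rpow_le_rpow_of_exponent_ge hxp h5 (by linarith)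
              have h6 : 0 < x ^ (-(1 / 4) : ℝ) := by positivity
              linarith
          gcongr)
      refine h.trans ?_
      have e : Real.exp (-(Real.pi / 2 - θ) * b) = Real.exp (-((Real.pi / 2 - θ) * b)) := by
        congr 1; ring
      rw [e]
      have h7 : 0 ≤ K * (b ^ (3 / 2 : ℝ) * (x ^ (-(1 / 4) : ℝ) + x ^ (-(2:ℝ)))) * Real.exp (-((Real.pi / 2 - θ) * b)) := by
        positivity
      calc _ ≤ K * (b ^ (3 / 2 : ℝ) * (x ^ (-(1 / 4) : ℝ) + x ^ (-(2:ℝ)))) * Real.exp (-((Real.pi / 2 - θ) * b)) * 2 := by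
            apply mul_le_mul_of_nonneg_left _ h7; norm_num
        _ = _ := by ring
    have hlim := (tendsto_rpow_mul_exp_neg_mul_atTop_nhds_zero (3 / 2) (Real.pi / 2 - θ) (by linarith)).const_mul
      (2 * K * (x ^ (-(1 / 4) : ℝ) + x ^ (-(2:ℝ))))
    rw [mul_zero] at hlim
    apply squeeze_zero' (Filter.Eventually.of_forall (fun b => norm_nonneg _)) _ hlim
    filter_upwards [eventually_ge_atTop 1] with b hb
    exact hup b hb
  -- integrability of the full line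
  have hfull : Integrable (fun t : ℝ => gg x θ (((2:ℝ) : ℂ) + t * I)) := by
    have h1 := TH150.FMSeries.int_g hθ0 hθ1
    have h2 : Integrable (fun t : ℝ => (x ^ (-(2:ℝ))) * ‖Complex.Gamma (pt 2 t) * cexp (-((θ : ℂ) * I) * pt 2 t)‖) :=
      h1.norm.const_mul _
    refine h2.mono' (gg_cont hxp (by norm_num)).aestronglyMeasurable (Filter.Eventually.of_forall fun t => ?_)
    have hpt : pt 2 t = ((2:ℝ) : ℂ) + t * I := rfl
    rw [hpt]
    unfold gg
    rw [norm_mul, norm_mul, norm_mul, Complex.norm_cpow_eq_rpow_re_of_pos hxp, Complex.neg_re]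
    have e1 : (((2:ℝ) : ℂ) + t * I).re = 2 := by simp
    rw [e1]
    apply le_of_eq
    ring
  have hinv : ∫ t : ℝ, gg x θ (((2:ℝ) : ℂ) + t * I) = 2 * Real.pi * cexp (-(cexp ((θ : ℂ) * I) * x)) := by
    rw [← TH150.FMSeries.inv_one hθ0 hθ1 hxp]
    apply integral_congr_ae
    refine Filter.Eventually.of_forall (fun t => ?_)
    have hpt : pt 2 t = ((2:ℝ) : ℂ) + t * I := rfl
    simp only [hpt, gg]
    ring
  have hsplit : (∫ t in Iic (1:ℝ), gg x θ (((2:ℝ) : ℂ) + t * I)) + (∫ t in Ioi (1:ℝ), gg x θ (((2:ℝ) : ℂ) + t * I)) =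
      2 * Real.pi * cexp (-(cexp ((θ : ℂ) * I) * x)) := by
    rw [← hinv]
    exact intervalIntegral.integral_Iic_add_Ioi hfull.integrableOn hfull.integrableOn
  have hlimI := intervalIntegral_tendsto_integral_Ioi (1:ℝ) hfull.integrableOn tendsto_id
  -- comparison for finite b
  have hcmp : ∀ b : ℝ, T ≤ b → ‖(∫ t in (1:ℝ)..T, gg x θ (c + t * I)) - ∫ t in (1:ℝ)..b, gg x θ (((2:ℝ) : ℂ) + t * I)‖ ≤
      ‖P (((2 : ℝ) : ℂ) + b * I) - P (((1 / 4 : ℝ) : ℂ) + b * I)‖ +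
      (K1 * (T ^ (3 / 4 : ℝ) * x ^ (-(1 / 4) : ℝ) / (T - x)) + K * (T ^ (c - 1 / 2) * x ^ (-c)) * (c - 1 / 4) +
        K * ((1 + 1 / x0) * x ^ (-c)) * (2 - c)) := by
    intro b hb
    have v1 := hvert c 1 T (by linarith) le_rfl (by linarith)
    have v2 := hvert 2 1 b (by norm_num) le_rfl (by linarith)
    have e1 : (∫ t in (1:ℝ)..T, gg x θ (c + t * I)) = -I * (P (c + T * I) - P (c + (1:ℝ) * I)) := by
      rw [v1, ← mul_assoc]; simp
    have e2 : (∫ t in (1:ℝ)..b, gg x θ (((2:ℝ) : ℂ) + t * I)) = -I * (P (((2:ℝ) : ℂ) + b * I) - P (((2:ℝ) : ℂ) + (1:ℝ) * I)) := by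
      rw [v2, ← mul_assoc]; simp
    have e3 : (∫ t in (1:ℝ)..T, gg x θ (c + t * I)) - ∫ t in (1:ℝ)..b, gg x θ (((2:ℝ) : ℂ) + t * I) =
        -I * ((P (c + T * I) - P (((1 / 4 : ℝ) : ℂ) + T * I)) + (P (((2 : ℝ) : ℂ) + (1:ℝ) * I) - P (c + (1:ℝ) * I)) -
          (P (((2 : ℝ) : ℂ) + b * I) - P (((1 / 4 : ℝ) : ℂ) + b * I)) -
          (P (((1 / 4 : ℝ) : ℂ) + b * I) - P (((1 / 4 : ℝ) : ℂ) + T * I))) := by
      rw [e1, e2]; ring
    rw [e3, norm_mul, norm_neg, Complex.norm_I, one_mul]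
    have n2 := N2 b hb
    refine (norm_sub_le _ _).trans ?_
    refine (add_le_add (norm_sub_le _ _) le_rfl).trans ?_
    refine (add_le_add (add_le_add (norm_add_le _ _) le_rfl) le_rfl).trans ?_
    linarith
  have hlimit : ‖(∫ t in (1:ℝ)..T, gg x θ (c + t * I)) - ∫ t in Ioi (1:ℝ), gg x θ (((2:ℝ) : ℂ) + t * I)‖ ≤
      0 + (K1 * (T ^ (3 / 4 : ℝ) * x ^ (-(1 / 4) : ℝ) / (T - x)) + K * (T ^ (c - 1 / 2) * x ^ (-c)) * (c - 1 / 4) +
        K * ((1 + 1 / x0) * x ^ (-c)) * (2 - c)) := by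
    apply le_of_tendsto_of_tendsto ((tendsto_const_nhds.sub hlimI).norm) (N1.add_const _)
    filter_upwards [eventually_ge_atTop T] with b hb
    exact hcmp b hb
  have hl := hlow x θ hxp hθ0 hθ1
  have hx2 := rpow_cmp (u := 2) hx0 hx hc2 (by linarith)
  have hTc : 1 ≤ T ^ (c - 1 / 2) := Real.one_le_rpow (by linarith) (by linarith)
  have hxc : 0 < x ^ (-c) := by positivity
  have hxTc : x ^ (-c) ≤ T ^ (c - 1 / 2) * x ^ (-c) := by nlinarith
  set X := T ^ (c - 1 / 2) * x ^ (-c) with hX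
  set Y := T ^ (3 / 4 : ℝ) * x ^ (-(1 / 4) : ℝ) / (T - x) with hY
  have hX0 : 0 < X := by rw [hX]; positivity
  have hY0 : 0 < Y := by rw [hY]; positivity
  have h10 : 0 < 1 + 1 / x0 := by positivity
  rw [← hsplit]
  have e4 : (∫ t in (1:ℝ)..T, gg x θ (c + t * I)) - ((∫ t in Iic (1:ℝ), gg x θ (((2:ℝ) : ℂ) + t * I)) +
      (∫ t in Ioi (1:ℝ), gg x θ (((2:ℝ) : ℂ) + t * I))) = ((∫ t in (1:ℝ)..T, gg x θ (c + t * I)) -
      ∫ t in Ioi (1:ℝ), gg x θ (((2:ℝ) : ℂ) + t * I)) - ∫ t in Iic (1:ℝ), gg x θ (((2:ℝ) : ℂ) + t * I) := by ring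
  rw [e4]
  refine (norm_sub_le _ _).trans ((add_le_add hlimit hl).trans ?_)
  have a1 : K * X * (c - 1 / 4) ≤ 2 * K * X := by
    have : 0 < K * X := by positivity
    nlinarith
  have a2 : K * ((1 + 1 / x0) * x ^ (-c)) * (2 - c) ≤ K * (1 + 1 / x0) * X := by
    calc K * ((1 + 1 / x0) * x ^ (-c)) * (2 - c) ≤ K * ((1 + 1 / x0) * x ^ (-c)) * 1 := by
          gcongr; linarith
      _ ≤ K * ((1 + 1 / x0) * X) * 1 := by gcongr
      _ = _ := by ring
  have a3 : K2 * x ^ (-(2:ℝ)) ≤ K2 * (1 + 1 / x0) * X := by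
    calc K2 * x ^ (-(2:ℝ)) ≤ K2 * ((1 + 1 / x0) * x ^ (-c)) := by gcongr
      _ ≤ K2 * ((1 + 1 / x0) * X) := by gcongr
      _ = _ := by ring
  have a4 : 0 ≤ (2 * K + K * (1 + 1 / x0) + K2 * (1 + 1 / x0)) * Y := by positivity
  have a5 : 0 ≤ K1 * X := by positivity
  nlinarith

/-- the case `x < T` -/
theorem case_L {x0 : ℝ} (hx0 : 0 < x0) : ∃ K : ℝ, 0 < K ∧ ∀ x T c : ℝ, x0 ≤ x → 2 ≤ T → x < T → 1 ≤ c → c ≤ 2 →
    ‖(∫ t in (1:ℝ)..T, gg x (Real.pi / 2) (c + t * I)) - 2 * Real.pi * cexp (-(I * x))‖ ≤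
      K * (T ^ (c - 1 / 2) * x ^ (-c) + T ^ (3 / 4 : ℝ) * x ^ (-(1 / 4) : ℝ) / (T - x)) := by
  obtain ⟨K, hK, h⟩ := case_L_aux hx0
  refine ⟨K, hK, fun x T c hx hT hxT hc1 hc2 => ?_⟩
  have hxp : 0 < x := hx0.trans_le hx
  have hpi := Real.pi_pos
  -- continuity in θ
  have hc : Continuous (fun θ : ℝ => ∫ t in (1:ℝ)..T, gg x θ (c + t * I)) := by
    apply intervalIntegral.continuous_parametric_intervalIntegral_of_continuous'
    have h1 : Continuous (fun t : ℝ => Complex.Gamma (c + t * I) * (x : ℂ) ^ (-((c : ℂ) + t * I))) := by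
      have h0 := gg_cont (x := x) (θ := 0) hxp (σ := c) (by linarith)
      refine h0.congr (fun t => ?_)
      simp [gg]
    have h2 : Continuous (fun p : ℝ × ℝ => Complex.Gamma (c + p.2 * I) * (x : ℂ) ^ (-((c : ℂ) + p.2 * I)) *
        cexp (-((p.1 : ℂ) * I) * ((c : ℂ) + p.2 * I))) := by
      apply Continuous.mul
      · exact h1.comp continuous_snd
      · fun_prop
    exact h2
  have h3 : Tendsto (fun θ : ℝ => ‖(∫ t in (1:ℝ)..T, gg x θ (c + t * I)) - 2 * Real.pi * cexp (-(cexp ((θ : ℂ) * I) * x))‖)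
      (𝓝[<] (Real.pi / 2)) (𝓝 ‖(∫ t in (1:ℝ)..T, gg x (Real.pi / 2) (c + t * I)) -
        2 * Real.pi * cexp (-(cexp (((Real.pi / 2 : ℝ) : ℂ) * I) * x))‖) := by
    apply Tendsto.mono_left _ nhdsWithin_le_nhds
    apply Continuous.tendsto
    apply Continuous.norm
    apply hc.sub
    fun_prop
  have e : cexp (((Real.pi / 2 : ℝ) : ℂ) * I) = I := by
    push_cast
    exact Complex.exp_pi_div_two_mul_I
  rw [e] at h3
  refine le_of_tendsto h3 ?_
  have h4 : Ioo 0 (Real.pi / 2) ∈ 𝓝[<] (Real.pi / 2) := Ioo_mem_nhdsLT (by positivity)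
  filter_upwards [h4] with θ hθ
  exact h x T c θ hx hT hxT hc1 hc2 hθ.1 hθ.2

end Pool.Agent.H16.MM
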