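import Mathlib
import Pool.Agent.H16.MM.G5
import Pool.Graph.R_pool_sql_team_seeded_620a6dc7.Helper156_SM.Coef

set_option autoImplicit false

namespace Pool.Agent.H16.MM

open Complex Filter Topology Set MeasureTheory
open Pool.Agent.Helper156_SM (ak ak_nonneg ak_zero ak_bound ak_hasSum ak_summable)

/-- the `n`-th integral -/
noncomputable def JJ (x0 : ℝ) (T c : ℝ) (n : ℕ) : ℂ := ∫ t in (1:ℝ)..T, gg (x0 * n) (Real.pi / 2) (c + t * I)

/-- the main term of the `n`-th integral -/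
noncomputable def mm (x0 : ℝ) (T : ℝ) (n : ℕ) : ℂ :=
  if x0 * n ≤ T then 2 * Real.pi * cexp (-(I * ((x0 * n : ℝ) : ℂ))) else 0

theorem norm_mm (x0 T : ℝ) (n : ℕ) : ‖mm x0 T n‖ ≤ 2 * Real.pi := by
  unfold mm
  have hpi := Real.pi_pos
  split_ifs
  · rw [norm_mul, norm_mul, Complex.norm_exp]
    have : (-(I * ((x0 * n : ℝ) : ℂ))).re = 0 := by
      rw [Complex.neg_re, Complex.mul_re, Complex.ofReal_re, Complex.ofReal_im, Complex.I_re, Complex.I_im]
      ring
    rw [this, Real.exp_zero, mul_one, Complex.norm_real, Real.norm_of_nonneg hpi.le]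
    simp
  · rw [norm_zero]; positivity

/-- the pointwise bound -/
theorem point_bound {x0 : ℝ} (hx0 : 0 < x0) : ∃ K : ℝ, 0 < K ∧ ∀ (T c : ℝ) (n : ℕ), 2 ≤ T → 1 ≤ c → c ≤ 2 → 1 ≤ n →
    ‖JJ x0 T c n - mm x0 T n‖ ≤ K * (T ^ (c - 1 / 2) * (x0 * n) ^ (-c) +
      (if x0 * n < 2 * T then T ^ (1 / 2 : ℝ) * (1 / (x0 * n) + 1 / max 1 |T - x0 * n|) else 0)) := by
  obtain ⟨K1, hK1, hL⟩ := case_L hx0
  obtain ⟨K2, hK2, hU⟩ := case_U
  obtain ⟨K3, hK3, hN⟩ := case_N
  have hpi := Real.pi_pos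
  refine ⟨K1 + 3 * K2 + 4 * K3 + 2 * Real.pi, by positivity, fun T c n hT hc1 hc2 hn => ?_⟩
  have hn' : (1:ℝ) ≤ n := by exact_mod_cast hn
  set x : ℝ := x0 * n with hx
  have hxx0 : x0 ≤ x := by rw [hx]; nlinarith
  have hxp : 0 < x := by linarith
  have hT0 : 0 < T := by linarith
  have hJ : JJ x0 T c n = ∫ t in (1:ℝ)..T, gg x (Real.pi / 2) (c + t * I) := rfl
  have hTc : 1 ≤ T ^ (c - 1 / 2) := Real.one_le_rpow (by linarith) (by linarith)
  have hxc : 0 < x ^ (-c) := by positivity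
  have hT12 : 1 ≤ T ^ (1 / 2 : ℝ) := Real.one_le_rpow (by linarith) (by norm_num)
  have hmax : 0 < max 1 |T - x| := lt_of_lt_of_le one_pos (le_max_left _ _)
  by_cases h1 : x ≤ T - 1
  · -- region A
    have hxT : x < T := by linarith
    have hm : mm x0 T n = 2 * Real.pi * cexp (-(I * (x : ℂ))) := by
      unfold mm
      rw [if_pos (by rw [← hx]; linarith)]
    rw [hJ, hm, if_pos (by linarith)]
    have h2 := hL x T c hxx0 hT hxT hc1 hc2
    have habs : max 1 |T - x| = T - x := by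
      rw [abs_of_pos (by linarith)]; exact max_eq_right (by linarith)
    rw [habs]
    have h3 : T ^ (3 / 4 : ℝ) * x ^ (-(1 / 4) : ℝ) / (T - x) ≤ T ^ (1 / 2 : ℝ) * (1 / x + 1 / (T - x)) := by
      have hTx : 0 < T - x := by linarith
      have e1 : 1 / x + 1 / (T - x) = T / (x * (T - x)) := by
        field_simp
        ring
      rw [e1]
      have e2 : T ^ (1 / 2 : ℝ) * (T / (x * (T - x))) = (T ^ (1 / 2 : ℝ) * T * x⁻¹) / (T - x) := by
        field_simp
      rw [e2]
      apply div_le_div_of_nonneg_right _ hTx.le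
      have e3 : T ^ (1 / 2 : ℝ) * T = T ^ (3 / 4 : ℝ) * T ^ (3 / 4 : ℝ) := by
        rw [← Real.rpow_add hT0]
        conv_lhs => rw [show T ^ (1 / 2 : ℝ) * T = T ^ (1 / 2 : ℝ) * T ^ (1:ℝ) by rw [Real.rpow_one]]
        rw [← Real.rpow_add hT0]; congr 1; norm_num
      have e4 : x⁻¹ = x ^ (-(1 / 4) : ℝ) * x ^ (-(3 / 4) : ℝ) := by
        rw [← Real.rpow_add hxp, ← Real.rpow_neg_one]; congr 1; norm_num
      have e5 : 1 ≤ T ^ (3 / 4 : ℝ) * x ^ (-(3 / 4) : ℝ) := by
        rw [Real.rpow_neg hxp.le, ← div_eq_mul_inv, ← Real.div_rpow hT0.le hxp.le]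
        exact Real.one_le_rpow ((one_le_div hxp).2 (by linarith)) (by norm_num)
      rw [e3, e4]
      calc T ^ (3 / 4 : ℝ) * x ^ (-(1 / 4) : ℝ) = (T ^ (3 / 4 : ℝ) * x ^ (-(1 / 4) : ℝ)) * 1 := (mul_one _).symm
        _ ≤ (T ^ (3 / 4 : ℝ) * x ^ (-(1 / 4) : ℝ)) * (T ^ (3 / 4 : ℝ) * x ^ (-(3 / 4) : ℝ)) := by
            apply mul_le_mul_of_nonneg_left e5; positivity
        _ = _ := by ring
    have h4 : 0 ≤ T ^ (c - 1 / 2) * x ^ (-c) + T ^ (1 / 2 : ℝ) * (1 / x + 1 / (T - x)) := by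
      have : 0 < T - x := by linarith
      positivity
    calc _ ≤ K1 * (T ^ (c - 1 / 2) * x ^ (-c) + T ^ (3 / 4 : ℝ) * x ^ (-(1 / 4) : ℝ) / (T - x)) := h2
      _ ≤ K1 * (T ^ (c - 1 / 2) * x ^ (-c) + T ^ (1 / 2 : ℝ) * (1 / x + 1 / (T - x))) := by gcongr
      _ ≤ _ := by
        apply mul_le_mul_of_nonneg_right _ h4
        linarith
  · rw [not_le] at h1
    by_cases h2 : x < T + 1
    · -- region B
      rw [hJ, if_pos (by linarith)]
      have h3 := hN x T c hT hxp hc1 hc2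
      have h4 := norm_mm x0 T n
      have habs : max 1 |T - x| = 1 := by
        apply max_eq_left
        rw [abs_le]; constructor <;> linarith
      rw [habs]
      have e1 : T ^ (c + 1 / 2) * x ^ (-c) = T ^ (1 / 2 : ℝ) * (T / x) ^ c := by
        rw [Real.div_rpow hT0.le hxp.le, Real.rpow_add hT0, Real.rpow_neg hxp.le]
        ring
      have e2 : (T / x) ^ c ≤ 4 := by
        have h5 : T / x ≤ 2 := by rw [div_le_iff₀ hxp]; linarith
        calc (T / x) ^ c ≤ 2 ^ c := Real.rpow_le_rpow (by positivity) h5 (by linarith)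
          _ ≤ 2 ^ (2:ℝ) := Real.rpow_le_rpow_of_exponent_le (by norm_num) hc2
          _ = 4 := by norm_num
      have h6 : T ^ (c + 1 / 2) * x ^ (-c) ≤ 4 * T ^ (1 / 2 : ℝ) := by
        rw [e1]; nlinarith
      have h7 : 0 ≤ T ^ (c - 1 / 2) * x ^ (-c) := by positivity
      have h8 : 0 ≤ 1 / x := by positivity
      calc _ ≤ ‖∫ t in (1:ℝ)..T, gg x (Real.pi / 2) (c + t * I)‖ + ‖mm x0 T n‖ := norm_sub_le _ _
        _ ≤ K3 * (T ^ (c + 1 / 2) * x ^ (-c)) + 2 * Real.pi := add_le_add h3 h4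
        _ ≤ K3 * (4 * T ^ (1 / 2 : ℝ)) + 2 * Real.pi * T ^ (1 / 2 : ℝ) := by
            have : 2 * Real.pi ≤ 2 * Real.pi * T ^ (1 / 2 : ℝ) := by nlinarith
            have := mul_le_mul_of_nonneg_left h6 hK3.le
            linarith
        _ = (4 * K3 + 2 * Real.pi) * T ^ (1 / 2 : ℝ) := by ring
        _ ≤ (K1 + 3 * K2 + 4 * K3 + 2 * Real.pi) * (T ^ (c - 1 / 2) * x ^ (-c) + T ^ (1 / 2 : ℝ) * (1 / x + 1 / 1)) := by
            apply mul_le_mul
            · linarith
            · have : 0 ≤ T ^ (1 / 2 : ℝ) * (1 / x) := by positivity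
              rw [mul_add]; linarith
            · positivity
            · positivity
    · -- region C
      rw [not_lt] at h2
      have hxT : T < x := by linarith
      have hxT' : 0 < x - T := by linarith
      have hm : mm x0 T n = 0 := by
        unfold mm
        rw [if_neg (by rw [← hx]; linarith)]
      rw [hJ, hm, sub_zero]
      have h3 := hU x T c hT hxT hc1 hc2
      by_cases h4 : x < 2 * T
      · rw [if_pos h4]
        have habs : max 1 |T - x| = x - T := by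
          rw [abs_sub_comm, abs_of_pos (by linarith)]; exact max_eq_right (by linarith)
        rw [habs]
        have e1 : T ^ (c - 1 / 2) * x ^ (-c) * (x / (x - T)) ≤ T ^ (1 / 2 : ℝ) * (1 / (x - T)) := by
          have e2 : T ^ (c - 1 / 2) * x ^ (-c) * (x / (x - T)) = (T ^ (c - 1 / 2) * (x ^ (-c) * x)) * (1 / (x - T)) := by ring
          rw [e2]
          apply mul_le_mul_of_nonneg_right _ (by positivity)
          have e3 : x ^ (-c) * x = x ^ (-(c - 1)) := by
            conv_lhs => rw [show x ^ (-c) * x = x ^ (-c) * x ^ (1:ℝ) by rw [Real.rpow_one]]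
            rw [← Real.rpow_add hxp]; congr 1; ring
          have e4 : T ^ (c - 1 / 2) = T ^ (1 / 2 : ℝ) * T ^ (c - 1) := by
            rw [← Real.rpow_add hT0]; congr 1; ring
          have e5 : T ^ (c - 1) * x ^ (-(c - 1)) ≤ 1 := by
            rw [Real.rpow_neg hxp.le, ← div_eq_mul_inv, ← Real.div_rpow hT0.le hxp.le]
            exact Real.rpow_le_one (by positivity) ((div_le_one hxp).2 hxT.le) (by linarith)
          rw [e3, e4, mul_assoc]
          nlinarith
        have h5 : 0 ≤ T ^ (1 / 2 : ℝ) * (1 / x) := by positivity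
        have h6 : 0 ≤ T ^ (1 / 2 : ℝ) * (1 / (x - T)) := by positivity
        have h7 : x ^ (-c) ≤ T ^ (c - 1 / 2) * x ^ (-c) := by nlinarith
        calc _ ≤ K2 * (x ^ (-c) + T ^ (c - 1 / 2) * x ^ (-c) * (x / (x - T))) := h3
          _ ≤ K2 * (T ^ (c - 1 / 2) * x ^ (-c) + T ^ (1 / 2 : ℝ) * (1 / x + 1 / (x - T))) := by
              apply mul_le_mul_of_nonneg_left _ hK2.le
              rw [mul_add]; linarith
          _ ≤ _ := by
              apply mul_le_mul_of_nonneg_right _ (by positivity)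
              linarith
      · rw [if_neg h4, add_zero]
        rw [not_lt] at h4
        have h5 : x / (x - T) ≤ 2 := by
          rw [div_le_iff₀ hxT']; linarith
        have h7 : x ^ (-c) ≤ T ^ (c - 1 / 2) * x ^ (-c) := by nlinarith
        have h8 : 0 ≤ T ^ (c - 1 / 2) * x ^ (-c) := by positivity
        calc _ ≤ K2 * (x ^ (-c) + T ^ (c - 1 / 2) * x ^ (-c) * (x / (x - T))) := h3
          _ ≤ K2 * (T ^ (c - 1 / 2) * x ^ (-c) + T ^ (c - 1 / 2) * x ^ (-c) * 2) := by gcongr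
          _ = 3 * K2 * (T ^ (c - 1 / 2) * x ^ (-c)) := by ring
          _ ≤ _ := by
              apply mul_le_mul_of_nonneg_right _ h8
              linarith

/-- a harmonic type sum around `N0` -/
theorem harm_sum (N0 N1 : ℕ) : ∑ n ∈ Finset.Icc 1 N1, (1 : ℝ) / (1 + |(n:ℝ) - N0|) ≤
    2 * (1 + Real.log (N0 + N1 + 1)) := by
  set M : ℕ := N0 + N1 + 1 with hM
  have hH : ∑ j ∈ Finset.Icc 1 M, (1:ℝ) / j ≤ 1 + Real.log M := by
    have h := harmonic_le_one_add_log M
    rw [harmonic_eq_sum_Icc] at h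
    push_cast at h
    simpa using h
  have h1 : ∑ n ∈ (Finset.Icc 1 N1).filter (fun n => n ≤ N0), (1 : ℝ) / (1 + |(n:ℝ) - N0|) ≤
      ∑ j ∈ Finset.Icc 1 M, (1:ℝ) / j := by
    have e : ∀ n ∈ (Finset.Icc 1 N1).filter (fun n => n ≤ N0), (1 : ℝ) / (1 + |(n:ℝ) - N0|) = 1 / ((N0 - n + 1 : ℕ) : ℝ) := by
      intro n hn
      rw [Finset.mem_filter] at hn
      have h2 : (n:ℝ) ≤ N0 := by exact_mod_cast hn.2
      rw [abs_of_nonpos (by linarith)]
      push_cast [Nat.cast_sub hn.2]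
      congr 1; ring
    rw [Finset.sum_congr rfl e]
    rw [← Finset.sum_image (f := fun j : ℕ => (1:ℝ) / j) (g := fun n : ℕ => N0 - n + 1)]
    · apply Finset.sum_le_sum_of_subset_of_nonneg
      · intro j hj
        rw [Finset.mem_image] at hj
        obtain ⟨n, hn, rfl⟩ := hj
        rw [Finset.mem_Icc]
        omega
      · intro j _ _
        positivity
    · intro a ha b hb hab
      simp only [Finset.coe_filter, Finset.mem_Icc, mem_ofPred_eq] at ha hb
      have : N0 - a + 1 = N0 - b + 1 := hab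
      omega
  have h2 : ∑ n ∈ (Finset.Icc 1 N1).filter (fun n => ¬ n ≤ N0), (1 : ℝ) / (1 + |(n:ℝ) - N0|) ≤
      ∑ j ∈ Finset.Icc 1 M, (1:ℝ) / j := by
    have e : ∀ n ∈ (Finset.Icc 1 N1).filter (fun n => ¬ n ≤ N0), (1 : ℝ) / (1 + |(n:ℝ) - N0|) = 1 / ((n - N0 + 1 : ℕ) : ℝ) := by
      intro n hn
      rw [Finset.mem_filter, not_le] at hn
      have h2 : (N0:ℝ) ≤ n := by exact_mod_cast hn.2.le
      rw [abs_of_nonneg (by linarith)]
      push_cast [Nat.cast_sub hn.2.le]
      congr 1; ring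
    rw [Finset.sum_congr rfl e]
    rw [← Finset.sum_image (f := fun j : ℕ => (1:ℝ) / j) (g := fun n : ℕ => n - N0 + 1)]
    · apply Finset.sum_le_sum_of_subset_of_nonneg
      · intro j hj
        rw [Finset.mem_image] at hj
        obtain ⟨n, hn, rfl⟩ := hj
        rw [Finset.mem_filter, Finset.mem_Icc] at hn
        rw [Finset.mem_Icc]
        omega
      · intro j _ _
        positivity
    · intro a ha b hb hab
      simp only [Finset.coe_filter, Finset.mem_Icc, mem_ofPred_eq] at ha hb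
      have : a - N0 + 1 = b - N0 + 1 := hab
      omega
  rw [← Finset.sum_filter_add_sum_filter_not (Finset.Icc 1 N1) (fun n => n ≤ N0)]
  have e : (M : ℝ) = N0 + N1 + 1 := by rw [hM]; push_cast; ring
  rw [← e]
  linarith

end Pool.Agent.H16.MM
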