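import Mathlib
import Pool.Agent.H16.MM.G6

set_option autoImplicit false

namespace Pool.Agent.H16.MM

open Complex Filter Topology Set MeasureTheory
open Pool.Agent.Helper156_SM (ak ak_nonneg ak_zero ak_bound ak_hasSum ak_summable)

theorem log_cmp {x0 ε : ℝ} (hx0 : 0 < x0) (hε : 0 < ε) : ∃ D : ℝ, 0 < D ∧ ∀ T : ℝ, 2 ≤ T →
    1 + Real.log ((⌊T / x0⌋₊ : ℝ) + (⌊2 * T / x0⌋₊ : ℝ) + 1) ≤ D * T ^ ε := by
  refine ⟨1 + (3 / x0 + 1) ^ ε / ε, by positivity, fun T hT => ?_⟩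
  have hT0 : 0 < T := by linarith
  have h1 : (⌊T / x0⌋₊ : ℝ) ≤ T / x0 := Nat.floor_le (by positivity)
  have h2 : (⌊2 * T / x0⌋₊ : ℝ) ≤ 2 * T / x0 := Nat.floor_le (by positivity)
  have h3 : (⌊T / x0⌋₊ : ℝ) + (⌊2 * T / x0⌋₊ : ℝ) + 1 ≤ (3 / x0 + 1) * T := by
    have e : T / x0 + 2 * T / x0 = 3 / x0 * T := by field_simp; ring
    nlinarith
  have h0 : (0:ℝ) < (⌊T / x0⌋₊ : ℝ) + (⌊2 * T / x0⌋₊ : ℝ) + 1 := by positivity
  have h4 := Real.log_le_rpow_div h0.le hε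
  have h5 : ((⌊T / x0⌋₊ : ℝ) + (⌊2 * T / x0⌋₊ : ℝ) + 1) ^ ε ≤ (3 / x0 + 1) ^ ε * T ^ ε := by
    rw [← Real.mul_rpow (by positivity) hT0.le]
    exact Real.rpow_le_rpow h0.le h3 hε.le
  have h6 : 1 ≤ T ^ ε := Real.one_le_rpow (by linarith) hε.le
  calc 1 + Real.log ((⌊T / x0⌋₊ : ℝ) + (⌊2 * T / x0⌋₊ : ℝ) + 1)
      ≤ 1 + ((⌊T / x0⌋₊ : ℝ) + (⌊2 * T / x0⌋₊ : ℝ) + 1) ^ ε / ε := by linarith
    _ ≤ T ^ ε + (3 / x0 + 1) ^ ε * T ^ ε / ε := by gcongr
    _ = _ := by ring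

/-- the sum over the terms with `x0 n < 2T` -/
theorem near_sum {x0 : ℝ} (hx0 : 0 < x0) (j : ℕ) {ε : ℝ} (hε : 0 < ε) : ∃ D : ℝ, 0 < D ∧ ∀ T : ℝ, 2 ≤ T →
    ∑ n ∈ Finset.Icc 1 ⌊2 * T / x0⌋₊, ak j n * (T ^ (1 / 2 : ℝ) * (1 / (x0 * n) + 1 / max 1 |T - x0 * n|)) ≤
      D * T ^ (1 / 2 + 2 * ε) := by
  obtain ⟨C1, hC1, hak⟩ := ak_bound j ε hε
  obtain ⟨D1, hD1, hlog⟩ := log_cmp hx0 hε
  refine ⟨C1 * (2 / x0) ^ ε * (1 / x0 + (2 + 1 / x0)) * (2 * D1), by positivity, fun T hT => ?_⟩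
  have hT0 : 0 < T := by linarith
  set N0 := ⌊T / x0⌋₊ with hN0
  set N1 := ⌊2 * T / x0⌋₊ with hN1
  have hterm : ∀ n ∈ Finset.Icc 1 N1, ak j n * (T ^ (1 / 2 : ℝ) * (1 / (x0 * n) + 1 / max 1 |T - x0 * n|)) ≤
      (C1 * ((2 / x0) ^ ε * T ^ ε) * T ^ (1 / 2 : ℝ)) *
        (1 / x0 * ((1:ℝ) / n) + (2 + 1 / x0) * (1 / (1 + |(n:ℝ) - N0|))) := by
    intro n hn
    rw [Finset.mem_Icc] at hn
    have hn1 : (1:ℝ) ≤ n := by exact_mod_cast hn.1
    have hn2 : (n:ℝ) ≤ 2 * T / x0 := by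
      have : (n:ℝ) ≤ N1 := by exact_mod_cast hn.2
      exact this.trans (Nat.floor_le (by positivity))
    have h1 : ak j n ≤ C1 * ((2 / x0) ^ ε * T ^ ε) := by
      refine (hak n hn.1).trans ?_
      rw [← Real.mul_rpow (by positivity) hT0.le]
      have : (n:ℝ) ^ ε ≤ (2 / x0 * T) ^ ε := by
        apply Real.rpow_le_rpow (by positivity) _ hε.le
        calc (n:ℝ) ≤ 2 * T / x0 := hn2
          _ = _ := by ring
      gcongr
    have h2 : 1 / (x0 * n) = 1 / x0 * (1 / (n:ℝ)) := by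
      field_simp
    have hmax : 0 < max 1 |T - x0 * n| := lt_of_lt_of_le one_pos (le_max_left _ _)
    have h3 : 1 / max 1 |T - x0 * n| ≤ (2 + 1 / x0) * (1 / (1 + |(n:ℝ) - N0|)) := by
      have hpos : 0 < 1 + |(n:ℝ) - N0| := by positivity
      rw [mul_one_div, div_le_div_iff₀ hmax hpos, one_mul]
      have h4 : |(n:ℝ) - N0| ≤ |T - x0 * n| / x0 + 1 := by
        have h5 : |T / x0 - N0| ≤ 1 := by
          rw [abs_le]
          constructor
          · have := Nat.floor_le (show 0 ≤ T / x0 by positivity)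
            linarith
          · have := Nat.lt_floor_add_one (T / x0)
            linarith
        have h6 : |(n:ℝ) - T / x0| = |T - x0 * n| / x0 := by
          rw [← abs_of_pos hx0, ← abs_div, abs_of_pos hx0, abs_sub_comm]
          congr 1
          field_simp
        calc |(n:ℝ) - N0| = |((n:ℝ) - T / x0) + (T / x0 - N0)| := by congr 1; ring
          _ ≤ |(n:ℝ) - T / x0| + |T / x0 - N0| := abs_add_le _ _
          _ ≤ _ := by rw [h6]; linarith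
      have h7 : |T - x0 * n| / x0 ≤ 1 / x0 * max 1 |T - x0 * n| := by
        rw [div_eq_mul_one_div, mul_comm]
        have := le_max_right 1 |T - x0 * n|
        gcongr
      have h8 : 1 ≤ max 1 |T - x0 * n| := le_max_left _ _
      have h9 : 0 < 1 / x0 := by positivity
      nlinarith
    rw [h2]
    have h10 : 0 ≤ T ^ (1 / 2 : ℝ) * (1 / x0 * (1 / (n:ℝ)) + 1 / max 1 |T - x0 * n|) := by positivity
    calc ak j n * (T ^ (1 / 2 : ℝ) * (1 / x0 * (1 / (n:ℝ)) + 1 / max 1 |T - x0 * n|))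
        ≤ (C1 * ((2 / x0) ^ ε * T ^ ε)) * (T ^ (1 / 2 : ℝ) * (1 / x0 * (1 / (n:ℝ)) + 1 / max 1 |T - x0 * n|)) :=
          mul_le_mul_of_nonneg_right h1 h10
      _ ≤ (C1 * ((2 / x0) ^ ε * T ^ ε)) * (T ^ (1 / 2 : ℝ) * (1 / x0 * (1 / (n:ℝ)) + (2 + 1 / x0) * (1 / (1 + |(n:ℝ) - N0|)))) := by
          gcongr
      _ = _ := by ring
  refine (Finset.sum_le_sum hterm).trans ?_
  rw [← Finset.mul_sum, Finset.sum_add_distrib, ← Finset.mul_sum, ← Finset.mul_sum]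
  have hs2 := harm_sum N0 N1
  have hs1 : ∑ n ∈ Finset.Icc 1 N1, (1:ℝ) / n ≤ 2 * (1 + Real.log (N0 + N1 + 1)) := by
    have h := harmonic_le_one_add_log N1
    rw [harmonic_eq_sum_Icc] at h
    push_cast at h
    have h' : ∑ n ∈ Finset.Icc 1 N1, (1:ℝ) / n ≤ 1 + Real.log N1 := by simpa using h
    refine h'.trans ?_
    have hl1 : Real.log N1 ≤ Real.log (N0 + N1 + 1) := by
      rcases Nat.eq_zero_or_pos N1 with h0 | h0
      · rw [h0]; simp
        apply Real.log_nonneg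
        have : (0:ℝ) ≤ N0 := Nat.cast_nonneg _
        linarith
      · apply Real.log_le_log (by exact_mod_cast h0)
        have : (0:ℝ) ≤ N0 := Nat.cast_nonneg _
        linarith
    have hl2 : 0 ≤ Real.log (N0 + N1 + 1) := by
      apply Real.log_nonneg
      have : (0:ℝ) ≤ N0 := Nat.cast_nonneg _
      have : (0:ℝ) ≤ N1 := Nat.cast_nonneg _
      linarith
    linarith
  have hL := hlog T hT
  rw [← hN0, ← hN1] at hL
  have hTT : T ^ (1 / 2 + 2 * ε) = T ^ (1 / 2 : ℝ) * (T ^ ε * T ^ ε) := by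
    rw [← Real.rpow_add hT0, ← Real.rpow_add hT0]; congr 1; ring
  have hX : 1 / x0 * ∑ n ∈ Finset.Icc 1 N1, (1:ℝ) / n + (2 + 1 / x0) * ∑ n ∈ Finset.Icc 1 N1, (1 : ℝ) / (1 + |(n:ℝ) - N0|) ≤
      (1 / x0 + (2 + 1 / x0)) * (2 * (D1 * T ^ ε)) := by
    have a1 : ∑ n ∈ Finset.Icc 1 N1, (1:ℝ) / n ≤ 2 * (D1 * T ^ ε) := hs1.trans (by linarith)
    have a2 : ∑ n ∈ Finset.Icc 1 N1, (1 : ℝ) / (1 + |(n:ℝ) - N0|) ≤ 2 * (D1 * T ^ ε) := hs2.trans (by linarith)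
    have hx1 : 0 ≤ 1 / x0 := by positivity
    have b1 := mul_le_mul_of_nonneg_left a1 hx1
    have b2 := mul_le_mul_of_nonneg_left a2 (by linarith : 0 ≤ 2 + 1 / x0)
    rw [add_mul (1 / x0)]
    exact add_le_add b1 b2
  calc (C1 * ((2 / x0) ^ ε * T ^ ε) * T ^ (1 / 2 : ℝ)) * (1 / x0 * ∑ n ∈ Finset.Icc 1 N1, (1:ℝ) / n +
        (2 + 1 / x0) * ∑ n ∈ Finset.Icc 1 N1, (1 : ℝ) / (1 + |(n:ℝ) - N0|))
      ≤ (C1 * ((2 / x0) ^ ε * T ^ ε) * T ^ (1 / 2 : ℝ)) * ((1 / x0 + (2 + 1 / x0)) * (2 * (D1 * T ^ ε))) := by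
        gcongr
    _ = _ := by rw [hTT]; ring

/-- the total error -/
theorem sum_all {x0 : ℝ} (hx0 : 0 < x0) (j : ℕ) {ε : ℝ} (hε : 0 < ε) (hε1 : ε ≤ 1) : ∃ C : ℝ, 0 < C ∧ ∀ T : ℝ, 2 ≤ T →
    Summable (fun n : ℕ => ak j n * ‖JJ x0 T (1 + ε) n - mm x0 T n‖) ∧
    ∑' n : ℕ, ak j n * ‖JJ x0 T (1 + ε) n - mm x0 T n‖ ≤ C * T ^ (1 / 2 + 2 * ε) := by
  obtain ⟨K, hK, hp⟩ := point_bound hx0
  obtain ⟨D, hD, hnear⟩ := near_sum hx0 j hε
  have hS := ak_summable j (σ := 1 + ε) (by linarith)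
  set S : ℝ := ∑' n : ℕ, ak j n * (n : ℝ) ^ (-(1 + ε)) with hSdef
  have hS0 : 0 ≤ S := tsum_nonneg (fun n => mul_nonneg (ak_nonneg j n) (by positivity))
  refine ⟨K * (x0 ^ (-(1 + ε)) * S + D), by positivity, fun T hT => ?_⟩
  have hT0 : 0 < T := by linarith
  set a : ℕ → ℝ := fun n => (K * T ^ (1 + ε - 1 / 2) * x0 ^ (-(1 + ε))) * (ak j n * (n : ℝ) ^ (-(1 + ε))) with ha
  set b : ℕ → ℝ := fun n => K * (ak j n * (if x0 * n < 2 * T then T ^ (1 / 2 : ℝ) * (1 / (x0 * n) + 1 / max 1 |T - x0 * n|) else 0)) with hb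
  have hsa : Summable a := hS.mul_left _
  have hb0 : ∀ n ∉ Finset.Icc 1 ⌊2 * T / x0⌋₊, b n = 0 := by
    intro n hn
    rw [Finset.mem_Icc, not_and_or, not_le, not_le] at hn
    rw [hb]
    simp only
    rcases hn with h | h
    · have : n = 0 := by omega
      rw [this, ak_zero, zero_mul, mul_zero]
    · rw [if_neg, mul_zero, mul_zero]
      rw [not_lt]
      have h1 : 2 * T / x0 < n := (Nat.floor_lt (by positivity)).1 h
      rw [div_lt_iff₀ hx0] at h1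
      linarith
  have hsb : Summable b := summable_of_ne_finset_zero hb0
  have hle : ∀ n : ℕ, ak j n * ‖JJ x0 T (1 + ε) n - mm x0 T n‖ ≤ a n + b n := by
    intro n
    rcases Nat.eq_zero_or_pos n with h0 | h0
    · rw [h0, ha, hb]
      simp only [ak_zero, zero_mul, mul_zero]
      norm_num
    · have h1 := hp T (1 + ε) n hT (by linarith) (by linarith) h0
      have h2 := mul_le_mul_of_nonneg_left h1 (ak_nonneg j n)
      refine h2.trans (le_of_eq ?_)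
      rw [ha, hb]
      simp only
      rw [Real.mul_rpow hx0.le (Nat.cast_nonneg n)]
      ring
  have hnn : ∀ n : ℕ, 0 ≤ ak j n * ‖JJ x0 T (1 + ε) n - mm x0 T n‖ := fun n =>
    mul_nonneg (ak_nonneg j n) (norm_nonneg _)
  have hsum : Summable (fun n : ℕ => ak j n * ‖JJ x0 T (1 + ε) n - mm x0 T n‖) :=
    Summable.of_nonneg_of_le hnn hle (hsa.add hsb)
  refine ⟨hsum, ?_⟩
  refine (hsum.tsum_le_tsum hle (hsa.add hsb)).trans ?_
  rw [hsa.tsum_add hsb, tsum_mul_left, tsum_eq_sum hb0]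
  have h1 : ∑ n ∈ Finset.Icc 1 ⌊2 * T / x0⌋₊, b n ≤ K * (D * T ^ (1 / 2 + 2 * ε)) := by
    rw [hb, ← Finset.mul_sum]
    apply mul_le_mul_of_nonneg_left _ hK.le
    refine le_trans (Finset.sum_le_sum fun n hn => ?_) (hnear T hT)
    apply mul_le_mul_of_nonneg_left _ (ak_nonneg j n)
    rw [Finset.mem_Icc] at hn
    have hn1 : (1:ℝ) ≤ n := by exact_mod_cast hn.1
    split_ifs with h
    · exact le_rfl
    · positivity
  have h2 : T ^ (1 + ε - 1 / 2) ≤ T ^ (1 / 2 + 2 * ε) :=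
    Real.rpow_le_rpow_of_exponent_le (by linarith) (by linarith)
  calc (K * T ^ (1 + ε - 1 / 2) * x0 ^ (-(1 + ε))) * S + ∑ n ∈ Finset.Icc 1 ⌊2 * T / x0⌋₊, b n
      ≤ (K * T ^ (1 / 2 + 2 * ε) * x0 ^ (-(1 + ε))) * S + K * (D * T ^ (1 / 2 + 2 * ε)) := by gcongr
    _ = _ := by ring

/-- the function on the upper half plane -/
noncomputable def GG (x0 : ℝ) (j : ℕ) (s : ℂ) : ℂ := gg x0 (Real.pi / 2) s * riemannZeta s ^ j

theorem gg_mul_nat {x0 θ : ℝ} (hx0 : 0 < x0) (n : ℕ) (s : ℂ) : gg (x0 * n) θ s = gg x0 θ s * (n : ℂ) ^ (-s) := by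
  unfold gg
  have e : ((x0 * n : ℝ) : ℂ) ^ (-s) = (x0 : ℂ) ^ (-s) * (n : ℂ) ^ (-s) := by
    push_cast
    have := Complex.mul_cpow_ofReal_nonneg hx0.le (Nat.cast_nonneg n) (-s)
    simpa using this
  rw [e]
  ring

theorem GG_hasSum {x0 : ℝ} (hx0 : 0 < x0) (j : ℕ) {s : ℂ} (hs : 1 < s.re) :
    HasSum (fun n : ℕ => (ak j n : ℂ) * gg (x0 * n) (Real.pi / 2) s) (GG x0 j s) := by
  have h := (ak_hasSum j hs).mul_left (gg x0 (Real.pi / 2) s)
  unfold GG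
  refine h.congr_fun (fun n => ?_)
  rw [gg_mul_nat hx0]
  ring

theorem cont_gg_line (x0 : ℝ) (hx0 : 0 < x0) (n : ℕ) {c : ℝ} (hc : 0 < c) : Continuous (fun t : ℝ => gg (x0 * n) (Real.pi / 2) (c + t * I)) := by
  have h1 := gg_cont (x := x0) (θ := Real.pi / 2) hx0 hc
  rcases Nat.eq_zero_or_pos n with h0 | h0
  · have e : (fun t : ℝ => gg (x0 * n) (Real.pi / 2) (c + t * I)) = fun t : ℝ => (0:ℂ) := by
      funext t
      rw [gg_mul_nat hx0, h0, Nat.cast_zero, Complex.zero_cpow, mul_zero]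
      intro h
      have := congrArg Complex.re h
      simp at this
      linarith
    rw [e]
    exact continuous_const
  · exact gg_cont (by positivity) hc

theorem line_c {x0 : ℝ} (hx0 : 0 < x0) (j : ℕ) {ε : ℝ} (hε : 0 < ε) (hε1 : ε ≤ 1) : ∃ C : ℝ, 0 < C ∧ ∀ T : ℝ, 2 ≤ T →
    ‖(∫ t in (1:ℝ)..T, GG x0 j (((1 + ε : ℝ) : ℂ) + t * I)) -
      ∑ n ∈ Finset.Icc 1 ⌊T / x0⌋₊, (ak j n : ℂ) * (2 * Real.pi * cexp (-(I * ((x0 * n : ℝ) : ℂ))))‖ ≤
      C * T ^ (1 / 2 + 2 * ε) := by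
  obtain ⟨C, hC, h⟩ := sum_all hx0 j hε hε1
  obtain ⟨K, hK, hgb⟩ := gg_bound
  refine ⟨C, hC, fun T hT => ?_⟩
  obtain ⟨hs, hle⟩ := h T hT
  have hT0 : 0 < T := by linarith
  have hak := ak_summable j (σ := 1 + ε) (by linarith)
  have hHS : HasSum (fun n : ℕ => (ak j n : ℂ) * JJ x0 T (1 + ε) n) (∫ t in (1:ℝ)..T, GG x0 j (((1 + ε : ℝ) : ℂ) + t * I)) := by
    have := intervalIntegral.hasSum_integral_of_dominated_convergence (μ := volume) (a := 1) (b := T)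
      (F := fun (n : ℕ) (t : ℝ) => (ak j n : ℂ) * gg (x0 * n) (Real.pi / 2) (((1 + ε : ℝ) : ℂ) + t * I))
      (f := fun t : ℝ => GG x0 j (((1 + ε : ℝ) : ℂ) + t * I))
      (fun (n : ℕ) (_ : ℝ) => (K * T ^ (1 + ε - 1 / 2) * x0 ^ (-(1 + ε))) * (ak j n * (n : ℝ) ^ (-(1 + ε))))
      (fun n => ((cont_gg_line x0 hx0 n (by linarith)).const_mul _).aestronglyMeasurable)
      (fun n => by
        refine ae_of_all _ (fun t ht => ?_)
        rw [uIoc_of_le (by linarith)] at ht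
        rcases Nat.eq_zero_or_pos n with h0 | h0
        · rw [h0, ak_zero]; simp
        · have hn : (0:ℝ) < n := by exact_mod_cast h0
          have e1 : ((((1 + ε : ℝ)) : ℂ) + t * I).re = 1 + ε := by simp
          have e2 : ((((1 + ε : ℝ)) : ℂ) + t * I).im = t := by simp
          have g1 := (hgb (x0 * n) (Real.pi / 2) (by positivity) le_rfl (((1 + ε : ℝ) : ℂ) + t * I)
            (by rw [e1]; linarith) (by rw [e1]; linarith) (by rw [e2]; exact ht.1.le)).1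
          rw [e1, e2, Real.mul_rpow hx0.le hn.le] at g1
          rw [norm_mul, Complex.norm_real, Real.norm_of_nonneg (ak_nonneg j n)]
          have ht0 : 0 < t := by linarith [ht.1]
          have g2 : t ^ (1 + ε - 1 / 2) ≤ T ^ (1 + ε - 1 / 2) := Real.rpow_le_rpow ht0.le ht.2 (by linarith)
          have hakn := ak_nonneg j n
          calc ak j n * ‖gg (x0 * n) (Real.pi / 2) (((1 + ε : ℝ) : ℂ) + t * I)‖
              ≤ ak j n * (K * T ^ (1 + ε - 1 / 2) * (x0 ^ (-(1 + ε)) * (n:ℝ) ^ (-(1 + ε)))) := by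
                apply mul_le_mul_of_nonneg_left _ hakn
                refine g1.trans ?_
                gcongr
            _ = _ := by ring)
      (ae_of_all _ (fun t _ => hak.mul_left _))
      (by
        apply Continuous.intervalIntegrable
        exact continuous_const)
      (ae_of_all _ (fun t _ => GG_hasSum hx0 j (by simp; linarith)))
    refine this.congr_fun (fun n => ?_)
    unfold JJ
    rw [intervalIntegral.integral_const_mul]
  -- the main term as a sum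
  have hmz : ∀ n ∉ Finset.Icc 1 ⌊T / x0⌋₊, (ak j n : ℂ) * mm x0 T n = 0 := by
    intro n hn
    rw [Finset.mem_Icc, not_and_or, not_le, not_le] at hn
    rcases hn with h | h
    · have : n = 0 := by omega
      rw [this, ak_zero]; simp
    · unfold mm
      rw [if_neg, mul_zero]
      rw [not_le]
      have h1 : T / x0 < n := (Nat.floor_lt (by positivity)).1 h
      rw [div_lt_iff₀ hx0] at h1
      linarith
  have hMS : HasSum (fun n : ℕ => (ak j n : ℂ) * mm x0 T n)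
      (∑ n ∈ Finset.Icc 1 ⌊T / x0⌋₊, (ak j n : ℂ) * mm x0 T n) := hasSum_sum_of_ne_finset_zero hmz
  have hdiff := hHS.sub hMS
  have e1 : ∀ n ∈ Finset.Icc 1 ⌊T / x0⌋₊, (ak j n : ℂ) * mm x0 T n =
      (ak j n : ℂ) * (2 * Real.pi * cexp (-(I * ((x0 * n : ℝ) : ℂ)))) := by
    intro n hn
    rw [Finset.mem_Icc] at hn
    unfold mm
    rw [if_pos]
    have h1 : (n:ℝ) ≤ T / x0 := by
      have : (n:ℝ) ≤ (⌊T / x0⌋₊ : ℝ) := by exact_mod_cast hn.2
      exact this.trans (Nat.floor_le (by positivity))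
    rw [le_div_iff₀ hx0] at h1
    linarith
  rw [Finset.sum_congr rfl e1] at hdiff
  refine le_trans ?_ hle
  have hnorm : ∀ n : ℕ, ‖(ak j n : ℂ) * JJ x0 T (1 + ε) n - (ak j n : ℂ) * mm x0 T n‖ =
      ak j n * ‖JJ x0 T (1 + ε) n - mm x0 T n‖ := by
    intro n
    rw [← mul_sub, norm_mul, Complex.norm_real, Real.norm_of_nonneg (ak_nonneg j n)]
  rw [← hdiff.tsum_eq]
  have hs' : Summable (fun n : ℕ => ‖(ak j n : ℂ) * JJ x0 T (1 + ε) n - (ak j n : ℂ) * mm x0 T n‖) := by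
    refine hs.congr (fun n => ?_)
    rw [hnorm]
  refine (norm_tsum_le_tsum_norm hs').trans (le_of_eq ?_)
  exact tsum_congr hnorm

end Pool.Agent.H16.MM
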