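import Mathlib
import Pool.Agent.H16.MM.G7
import Pool.Graph.R_pool_sql_team_seeded_f0cf7b00.H388LH.Fin

set_option autoImplicit false

namespace Pool.Agent.H16.MM

open Complex Filter Topology Set MeasureTheory
open Pool.Agent.Helper156_SM (ak ak_nonneg ak_zero ak_bound ak_hasSum ak_summable)
open Pool.Agent.H388LH (HS pl_half zeta_growth zeta_growth' diffAt_zeta_im cont_zeta_line extend_bound)

/-- the comparison function -/
noncomputable def WW (p q : ℝ) (s : ℂ) : ℂ := cexp ((p + q * s) * (Complex.log s - Real.pi / 2 * I))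

theorem WW_norm {p q : ℝ} (hq : 0 ≤ q) {s : ℂ} (h1 : 0 < s.re) (h2 : s.re ≤ 2) (h3 : 1 ≤ s.im) :
    ‖s‖ ^ (p + q * s.re) ≤ ‖WW p q s‖ ∧ ‖WW p q s‖ ≤ Real.exp (4 * q) * ‖s‖ ^ (p + q * s.re) := by
  have hi : 0 < s.im := by linarith
  obtain ⟨ha1, ha2⟩ := arg_bounds h1 hi
  have hn : 0 < ‖s‖ := by linarith [Complex.im_le_norm s]
  have e : ‖WW p q s‖ = ‖s‖ ^ (p + q * s.re) * Real.exp (q * (s.im * (Real.pi / 2 - arg s))) := by
    unfold WW
    rw [Complex.norm_exp, Real.rpow_def_of_pos hn, ← Real.exp_add]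
    congr 1
    rw [Complex.mul_re]
    have e1 : ((p : ℂ) + q * s).re = p + q * s.re := by simp
    have e2 : ((p : ℂ) + q * s).im = q * s.im := by simp
    have e3 : (Complex.log s - Real.pi / 2 * I).re = Real.log ‖s‖ := by
      rw [Complex.sub_re, Complex.log_re]
      have : ((Real.pi : ℂ) / 2 * I) = ((Real.pi / 2 : ℝ) : ℂ) * I := by push_cast; ring
      rw [this]
      simp
    have e4 : (Complex.log s - Real.pi / 2 * I).im = arg s - Real.pi / 2 := by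
      rw [Complex.sub_im, Complex.log_im]
      have : ((Real.pi : ℂ) / 2 * I) = ((Real.pi / 2 : ℝ) : ℂ) * I := by push_cast; ring
      rw [this]
      simp
    rw [e1, e2, e3, e4]
    ring
  rw [e]
  have h4 : 0 ≤ q * (s.im * (Real.pi / 2 - arg s)) := by positivity
  have h5 : q * (s.im * (Real.pi / 2 - arg s)) ≤ 4 * q := by nlinarith
  have h6 : 0 < ‖s‖ ^ (p + q * s.re) := by positivity
  constructor
  · have := Real.one_le_exp h4
    nlinarith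
  · have := Real.exp_le_exp.2 h5
    nlinarith

theorem WW_diff {p q : ℝ} {s : ℂ} (hs : 0 < s.im) : DifferentiableAt ℂ (WW p q) s := by
  unfold WW
  apply DifferentiableAt.cexp
  apply DifferentiableAt.mul
  · fun_prop
  · apply DifferentiableAt.sub_const
    apply DifferentiableAt.clog
    · fun_prop
    · right
      exact hs.ne'

/-- Phragmen-Lindelof with a linear exponent -/
theorem pl_gen {c : ℝ} (hc : 1 / 2 < c) (hc2 : c ≤ 2) {f : ℂ → ℂ} {p q M : ℝ} (hq : 0 ≤ q) (hpq : 0 ≤ p + q * (1 / 2))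
    (hM : 0 < M) (hd : ∀ s ∈ HS (1 / 2) c 1, DifferentiableAt ℂ f s)
    (h1 : ∀ s ∈ HS (1 / 2) c 1, s.re = 1 / 2 → ‖f s‖ ≤ M * ‖s‖ ^ (p + q * (1 / 2)))
    (h2 : ∀ s ∈ HS (1 / 2) c 1, s.re = c → ‖f s‖ ≤ M * ‖s‖ ^ (p + q * c))
    (h3 : ∀ s ∈ HS (1 / 2) c 1, s.im = 1 → ‖f s‖ ≤ M)
    (hg : ∃ A : ℝ, ∃ N : ℕ, 0 ≤ A ∧ ∀ s ∈ HS (1 / 2) c 1, ‖f s‖ ≤ A * ‖s‖ ^ N) :
    ∀ s ∈ HS (1 / 2) c 1, ‖f s‖ ≤ M * Real.exp (4 * q) * ‖s‖ ^ (p + q * s.re) := by
  have hre : ∀ s ∈ HS (1 / 2) c 1, 0 < s.re ∧ s.re ≤ 2 ∧ 1 ≤ s.im ∧ 1 ≤ ‖s‖ ∧ 0 ≤ p + q * s.re := by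
    intro s hs
    refine ⟨by linarith [hs.1], by linarith [hs.2.1], hs.2.2, hs.2.2.trans (Complex.im_le_norm s), ?_⟩
    have := hs.1
    nlinarith
  have hWne : ∀ s : ℂ, WW p q s ≠ 0 := fun s => Complex.exp_ne_zero _
  have key : ∀ s ∈ HS (1 / 2) c 1, ‖f s / WW p q s‖ ≤ M := by
    apply pl_half hc _ hM
    · intro s hs hs1
      obtain ⟨a1, a2, a3, a4, a5⟩ := hre s hs
      have hW := (WW_norm (p := p) hq a1 a2 a3).1
      have hpos : 0 < ‖s‖ ^ (p + q * s.re) := by positivity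
      rw [norm_div, div_le_iff₀ (norm_pos_iff.2 (hWne s))]
      refine (h1 s hs hs1).trans ?_
      rw [← hs1]
      gcongr
    · intro s hs hs1
      obtain ⟨a1, a2, a3, a4, a5⟩ := hre s hs
      have hW := (WW_norm (p := p) hq a1 a2 a3).1
      have hpos : 0 < ‖s‖ ^ (p + q * s.re) := by positivity
      rw [norm_div, div_le_iff₀ (norm_pos_iff.2 (hWne s))]
      refine (h2 s hs hs1).trans ?_
      rw [← hs1]
      gcongr
    · intro s hs hs1
      obtain ⟨a1, a2, a3, a4, a5⟩ := hre s hs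
      have hW := (WW_norm (p := p) hq a1 a2 a3).1
      have hpos : 1 ≤ ‖s‖ ^ (p + q * s.re) := Real.one_le_rpow a4 a5
      rw [norm_div, div_le_iff₀ (norm_pos_iff.2 (hWne s))]
      refine (h3 s hs hs1).trans ?_
      nlinarith
    · obtain ⟨A, N, hA, hAN⟩ := hg
      refine ⟨A * 3 ^ N, N, fun s hs => ?_⟩
      obtain ⟨a1, a2, a3, a4, a5⟩ := hre s hs
      have hW := (WW_norm (p := p) hq a1 a2 a3).1
      have hpos : 1 ≤ ‖s‖ ^ (p + q * s.re) := Real.one_le_rpow a4 a5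
      have hn : ‖s‖ ≤ 3 * (1 + |s.im|) := by
        have := Complex.norm_le_abs_re_add_abs_im s
        rw [abs_of_pos a1] at this
        have h13 := abs_nonneg s.im
        linarith
      have h12 : ‖s‖ ^ N ≤ 3 ^ N * (1 + |s.im|) ^ N := by
        rw [← mul_pow]
        exact pow_le_pow_left₀ (norm_nonneg _) hn N
      rw [norm_div]
      calc ‖f s‖ / ‖WW p q s‖ ≤ ‖f s‖ := div_le_self (norm_nonneg _) (hpos.trans hW)
        _ ≤ A * ‖s‖ ^ N := hAN s hs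
        _ ≤ A * (3 ^ N * (1 + |s.im|) ^ N) := by gcongr
        _ = A * 3 ^ N * (1 + |s.im|) ^ N := by ring
        _ ≤ A * 3 ^ N * (1 + |s.im|) ^ N + 1 := by linarith
        _ ≤ _ := Real.add_one_le_exp _
    · intro s hs
      exact (hd s hs).div (WW_diff (by linarith [hs.2.2])) (hWne s)
  intro s hs
  obtain ⟨a1, a2, a3, a4, a5⟩ := hre s hs
  have h4 := key s hs
  rw [norm_div, div_le_iff₀ (norm_pos_iff.2 (hWne s))] at h4
  have hW := (WW_norm (p := p) hq a1 a2 a3).2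
  calc ‖f s‖ ≤ M * ‖WW p q s‖ := h4
    _ ≤ M * (Real.exp (4 * q) * ‖s‖ ^ (p + q * s.re)) := by gcongr
    _ = _ := by ring

/-! ### bounds for `GG` -/

theorem GG_diff {x0 : ℝ} (hx0 : 0 < x0) (j : ℕ) {s : ℂ} (hs : 0 < s.im) : DifferentiableAt ℂ (GG x0 j) s := by
  unfold GG
  exact (gg_diff hx0 hs).mul ((diffAt_zeta_im hs).pow j)

theorem x0_pow_le {x0 : ℝ} (hx0 : 0 < x0) {σ : ℝ} (h1 : 1 / 4 ≤ σ) (h2 : σ ≤ 4) :
    x0 ^ (-σ) ≤ x0 ^ (-(1 / 4) : ℝ) + x0 ^ (-(4:ℝ)) := by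
  rcases le_total 1 x0 with h5 | h5
  · have : x0 ^ (-σ) ≤ x0 ^ (-(1 / 4) : ℝ) := Real.rpow_le_rpow_of_exponent_le h5 (by linarith)
    have h6 : 0 < x0 ^ (-(4:ℝ)) := by positivity
    linarith
  · have : x0 ^ (-σ) ≤ x0 ^ (-(4:ℝ)) := Real.rpow_le_rpow_of_exponent_ge hx0 h5 (by linarith)
    have h6 : 0 < x0 ^ (-(1 / 4) : ℝ) := by positivity
    linarith

/-- bound for the gamma kernel -/
theorem gg_poly {x0 : ℝ} (hx0 : 0 < x0) : ∃ K : ℝ, 0 < K ∧ ∀ s : ℂ, 1 / 4 ≤ s.re → s.re ≤ 4 → 1 ≤ s.im →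
    ‖gg x0 (Real.pi / 2) s‖ ≤ K * s.im ^ (s.re - 1 / 2) ∧
    ‖gg x0 (-(Real.pi / 2)) s‖ ≤ K * s.im ^ (s.re - 1 / 2) * Real.exp (-(Real.pi * s.im)) := by
  obtain ⟨K, hK, hgb⟩ := gg_bound
  refine ⟨K * (x0 ^ (-(1 / 4) : ℝ) + x0 ^ (-(4:ℝ))), by positivity, fun s h1 h2 h3 => ?_⟩
  have hpi := Real.pi_pos
  have hi : 0 < s.im := by linarith
  have hx := x0_pow_le hx0 h1 h2
  constructor
  · refine ((hgb x0 (Real.pi / 2) hx0 le_rfl s h1 h2 h3).1).trans ?_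
    calc K * s.im ^ (s.re - 1 / 2) * x0 ^ (-s.re) ≤ K * s.im ^ (s.re - 1 / 2) * (x0 ^ (-(1 / 4) : ℝ) + x0 ^ (-(4:ℝ))) := by
          gcongr
      _ = _ := by ring
  · refine ((hgb x0 (-(Real.pi / 2)) hx0 (by linarith) s h1 h2 h3).2).trans ?_
    have e : -((Real.pi / 2 - -(Real.pi / 2)) * s.im) = -(Real.pi * s.im) := by ring
    rw [e]
    calc K * s.im ^ (s.re - 1 / 2) * x0 ^ (-s.re) * Real.exp (-(Real.pi * s.im)) ≤
          K * s.im ^ (s.re - 1 / 2) * (x0 ^ (-(1 / 4) : ℝ) + x0 ^ (-(4:ℝ))) * Real.exp (-(Real.pi * s.im)) := by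
          gcongr
      _ = _ := by ring

/-- polynomial growth of `GG` -/
theorem GG_growth {x0 : ℝ} (hx0 : 0 < x0) (j : ℕ) : ∃ A : ℝ, 0 < A ∧ ∀ s : ℂ, 1 / 4 ≤ s.re → s.re ≤ 4 → 1 ≤ s.im →
    ‖GG x0 j s‖ ≤ A * ‖s‖ ^ (4 + j) := by
  obtain ⟨K, hK, h⟩ := gg_poly hx0
  refine ⟨K * 6 ^ j, by positivity, fun s h1 h2 h3 => ?_⟩
  have hn1 : s.im ≤ ‖s‖ := Complex.im_le_norm s
  have hi : 0 < s.im := by linarith
  unfold GG
  rw [norm_mul, norm_pow]
  have g1 : s.im ^ (s.re - 1 / 2) ≤ ‖s‖ ^ 4 := by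
    calc s.im ^ (s.re - 1 / 2) ≤ s.im ^ (4:ℝ) := Real.rpow_le_rpow_of_exponent_le h3 (by linarith)
      _ = s.im ^ 4 := by norm_cast
      _ ≤ _ := pow_le_pow_left₀ hi.le hn1 4
  have g2 := zeta_growth h1 h3
  calc ‖gg x0 (Real.pi / 2) s‖ * ‖riemannZeta s‖ ^ j ≤ (K * s.im ^ (s.re - 1 / 2)) * (6 * ‖s‖) ^ j := by
        apply mul_le_mul (h s h1 h2 h3).1 (pow_le_pow_left₀ (norm_nonneg _) g2 j) (by positivity) (by positivity)
    _ ≤ (K * ‖s‖ ^ 4) * (6 * ‖s‖) ^ j := by gcongr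
    _ = _ := by rw [mul_pow, pow_add]; ring

/-- boundedness on the line `Re s = c > 1` up to the gamma factor -/
theorem GG_right {x0 : ℝ} (hx0 : 0 < x0) (j : ℕ) {c : ℝ} (hc : 1 < c) (hc2 : c ≤ 2) : ∃ A : ℝ, 0 < A ∧
    ∀ s : ℂ, s.re = c → 1 ≤ s.im → ‖GG x0 j s‖ ≤ A * ‖s‖ ^ (c - 1 / 2) := by
  obtain ⟨K, hK, h⟩ := gg_poly hx0
  have hS := ak_summable j hc
  set S : ℝ := ∑' n : ℕ, ak j n * (n : ℝ) ^ (-c) with hSdef
  have hS0 : 0 ≤ S := tsum_nonneg (fun n => mul_nonneg (ak_nonneg j n) (by positivity))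
  refine ⟨K * (S + 1), by positivity, fun s h1 h3 => ?_⟩
  have hi : 0 < s.im := by linarith
  have hn1 : s.im ≤ ‖s‖ := Complex.im_le_norm s
  unfold GG
  rw [norm_mul]
  have g1 := (h s (by linarith) (by linarith) h3).1
  have hz : ‖riemannZeta s ^ j‖ ≤ S := by
    have hs := ak_hasSum j (s := s) (by rw [h1]; exact hc)
    rw [← hs.tsum_eq]
    have e : ∀ n : ℕ, ‖(ak j n : ℂ) * (n : ℂ) ^ (-s)‖ = ak j n * (n : ℝ) ^ (-c) := by
      intro n
      rw [norm_mul, Complex.norm_real, Real.norm_of_nonneg (ak_nonneg j n)]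
      rcases Nat.eq_zero_or_pos n with h0 | h0
      · rw [h0, ak_zero]; simp
      · rw [Complex.norm_natCast_cpow_of_pos h0, Complex.neg_re, h1]
    have hs' : Summable (fun n : ℕ => ‖(ak j n : ℂ) * (n : ℂ) ^ (-s)‖) := by
      refine hS.congr (fun n => ?_)
      rw [e]
    refine (norm_tsum_le_tsum_norm hs').trans (le_of_eq ?_)
    exact tsum_congr e
  rw [h1] at g1
  calc ‖gg x0 (Real.pi / 2) s‖ * ‖riemannZeta s ^ j‖ ≤ (K * s.im ^ (c - 1 / 2)) * (S + 1) := by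
        apply mul_le_mul g1 (by linarith) (norm_nonneg _) (by positivity)
    _ ≤ (K * ‖s‖ ^ (c - 1 / 2)) * (S + 1) := by
        have : s.im ^ (c - 1 / 2) ≤ ‖s‖ ^ (c - 1 / 2) := Real.rpow_le_rpow hi.le hn1 (by linarith)
        gcongr
    _ = _ := by ring

/-- the bound in the strip -/
theorem GG_strip {x0 : ℝ} (hx0 : 0 < x0) (j : ℕ) {c : ℝ} (hc : 1 < c) (hc2 : c ≤ 2) {β C : ℝ} (hβ : 0 ≤ β) (hC : 0 ≤ C)
    (h : ∀ t : ℝ, ‖riemannZeta (1 / 2 + t * I)‖ ≤ C * (1 + |t|) ^ β) {b : ℝ} (hb1 : j * β ≤ b) (hb2 : c - 1 / 2 ≤ b) :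
    ∃ M : ℝ, 0 < M ∧ ∀ s ∈ HS (1 / 2) c 1, ‖GG x0 j s‖ ≤ M * ‖s‖ ^ b := by
  obtain ⟨K, hK, hgp⟩ := gg_poly hx0
  obtain ⟨A, hA, hgr⟩ := GG_growth hx0 j
  obtain ⟨A2, hA2, hright⟩ := GG_right hx0 j hc hc2
  have hb0 : 0 ≤ b := by linarith
  set M : ℝ := K * (C * 2 ^ β) ^ j + A2 + A * 3 ^ (4 + j) with hM
  have hMpos : 0 < M := by positivity
  refine ⟨M * Real.exp (4 * 0), by positivity, fun s hs => ?_⟩
  have key := pl_gen (c := c) (by linarith) hc2 (f := GG x0 j) (p := b) (q := 0) (M := M) le_rfl (by linarith) hMpos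
    (fun s hs => GG_diff hx0 j (by linarith [hs.2.2]))
    (by
      intro s hs hs1
      have hsn : 1 ≤ ‖s‖ := hs.2.2.trans (Complex.im_le_norm s)
      have hi : 0 < s.im := by linarith [hs.2.2]
      have g1 := (hgp s (by linarith [hs.1]) (by linarith) hs.2.2).1
      rw [hs1, sub_self, Real.rpow_zero, mul_one] at g1
      have e1 : s = 1 / 2 + (s.im : ℂ) * I := by
        apply Complex.ext
        · simp [hs1]
        · simp
      have g2 := h s.im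
      rw [← e1] at g2
      have g3 : (1 + |s.im|) ^ β ≤ 2 ^ β * ‖s‖ ^ β := by
        rw [← Real.mul_rpow (by norm_num) (norm_nonneg _)]
        apply Real.rpow_le_rpow (by positivity) _ hβ
        have := Complex.abs_im_le_norm s
        linarith
      have g4 : ‖riemannZeta s‖ ≤ C * 2 ^ β * ‖s‖ ^ β := by
        calc ‖riemannZeta s‖ ≤ C * (1 + |s.im|) ^ β := g2
          _ ≤ C * (2 ^ β * ‖s‖ ^ β) := by gcongr
          _ = _ := by ring
      have g5 : (‖s‖ ^ β) ^ j ≤ ‖s‖ ^ b := by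
        rw [← Real.rpow_natCast (‖s‖ ^ β) j, ← Real.rpow_mul (norm_nonneg _)]
        apply Real.rpow_le_rpow_of_exponent_le hsn
        linarith
      have e2 : b + 0 * (1 / 2 : ℝ) = b := by ring
      rw [e2]
      unfold GG
      rw [norm_mul, norm_pow]
      calc ‖gg x0 (Real.pi / 2) s‖ * ‖riemannZeta s‖ ^ j ≤ K * (C * 2 ^ β * ‖s‖ ^ β) ^ j := by
            apply mul_le_mul g1 (pow_le_pow_left₀ (norm_nonneg _) g4 j) (by positivity) hK.le
        _ = K * (C * 2 ^ β) ^ j * (‖s‖ ^ β) ^ j := by rw [mul_pow]; ring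
        _ ≤ K * (C * 2 ^ β) ^ j * ‖s‖ ^ b := by gcongr
        _ ≤ M * ‖s‖ ^ b := by
            apply mul_le_mul_of_nonneg_right _ (by positivity)
            rw [hM]
            have : 0 ≤ A2 + A * 3 ^ (4 + j) := by positivity
            linarith)
    (by
      intro s hs hs1
      have hsn : 1 ≤ ‖s‖ := hs.2.2.trans (Complex.im_le_norm s)
      have e2 : b + 0 * c = b := by ring
      rw [e2]
      calc ‖GG x0 j s‖ ≤ A2 * ‖s‖ ^ (c - 1 / 2) := hright s hs1 hs.2.2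
        _ ≤ A2 * ‖s‖ ^ b := by
            have := Real.rpow_le_rpow_of_exponent_le hsn hb2
            gcongr
        _ ≤ M * ‖s‖ ^ b := by
            apply mul_le_mul_of_nonneg_right _ (by positivity)
            rw [hM]
            have : 0 ≤ K * (C * 2 ^ β) ^ j + A * 3 ^ (4 + j) := by positivity
            linarith)
    (by
      intro s hs hs1
      have h1 := hgr s (by linarith [hs.1]) (by linarith [hs.2.1]) hs.2.2
      have hn : ‖s‖ ≤ 3 := by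
        have := Complex.norm_le_abs_re_add_abs_im s
        rw [hs1, abs_of_pos (by linarith [hs.1] : 0 < s.re), abs_one] at this
        linarith [hs.2.1]
      calc ‖GG x0 j s‖ ≤ A * ‖s‖ ^ (4 + j) := h1
        _ ≤ A * 3 ^ (4 + j) := by gcongr
        _ ≤ M := by
            rw [hM]
            have : 0 ≤ K * (C * 2 ^ β) ^ j + A2 := by positivity
            linarith)
    ⟨A, 4 + j, hA.le, fun s hs => hgr s (by linarith [hs.1]) (by linarith [hs.2.1]) hs.2.2⟩ s hs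
  have e2 : b + 0 * s.re = b := by ring
  rw [e2] at key
  exact key

theorem GG_cont {x0 : ℝ} (hx0 : 0 < x0) (j : ℕ) (σ : ℝ) {a b : ℝ} (ha : 0 < a) (hab : a ≤ b) :
    ContinuousOn (fun t : ℝ => GG x0 j (σ + t * I)) (uIcc a b) := by
  intro t ht
  rw [uIcc_of_le hab] at ht
  apply ContinuousAt.continuousWithinAt
  have hd : DifferentiableAt ℂ (GG x0 j) (σ + t * I) := by
    apply GG_diff hx0 j
    simp
    linarith [ht.1]
  exact ContinuousAt.comp (f := fun t : ℝ => (σ : ℂ) + t * I) hd.continuousAt (by fun_prop)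

/-- existence of the primitive -/
theorem GG_prim {x0 : ℝ} (hx0 : 0 < x0) (j : ℕ) : ∃ P : ℂ → ℂ, ∀ s : ℂ, 0 < s.im → HasDerivAt P (GG x0 j s) s := by
  have hconv : Convex ℝ {s : ℂ | 0 < s.im} := convex_halfSpace_im_gt 0
  have hopen : IsOpen {s : ℂ | 0 < s.im} := isOpen_lt continuous_const Complex.continuous_im
  obtain ⟨P, hP⟩ := hconv.exists_forall_hasDerivWithinAt (f := GG x0 j)
    (fun s hs => (GG_diff hx0 j hs).differentiableWithinAt)
  exact ⟨P, fun s hs => (hP s hs).hasDerivAt (hopen.mem_nhds hs)⟩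

/-- the contour shift -/
theorem shift {x0 : ℝ} (hx0 : 0 < x0) (j : ℕ) {c : ℝ} (hc : 1 < c) (hc2 : c ≤ 2) {β C : ℝ} (hβ : 0 ≤ β) (hC : 0 ≤ C)
    (h : ∀ t : ℝ, ‖riemannZeta (1 / 2 + t * I)‖ ≤ C * (1 + |t|) ^ β) {b : ℝ} (hb1 : j * β ≤ b) (hb2 : c - 1 / 2 ≤ b) :
    ∃ C' : ℝ, 0 < C' ∧ ∀ T : ℝ, 2 ≤ T →
      ‖(∫ t in (1:ℝ)..T, GG x0 j (((1 / 2 : ℝ) : ℂ) + t * I)) - ∫ t in (1:ℝ)..T, GG x0 j (c + t * I)‖ ≤ C' * T ^ b := by
  obtain ⟨M, hM, hstrip⟩ := GG_strip hx0 j hc hc2 hβ hC h hb1 hb2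
  obtain ⟨P, hP⟩ := GG_prim hx0 j
  have hb0 : 0 ≤ b := by linarith
  refine ⟨2 * (M * 3 ^ b * (c - 1 / 2)), by
    have : 0 < c - 1 / 2 := by linarith
    positivity, fun T hT => ?_⟩
  have hT0 : 0 < T := by linarith
  have hcp : 0 ≤ c - 1 / 2 := by linarith
  have hvert : ∀ σ : ℝ, P (σ + T * I) - P (σ + (1:ℝ) * I) = I * ∫ t in (1:ℝ)..T, GG x0 j (σ + t * I) := by
    intro σ
    apply vert_eq
    · intro t ht
      rw [uIcc_of_le (by linarith)] at ht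
      apply hP
      simp
      linarith [ht.1]
    · exact GG_cont hx0 j σ one_pos (by linarith)
  have hh : ∀ Y : ℝ, 1 ≤ Y → ‖P (c + Y * I) - P (((1 / 2 : ℝ) : ℂ) + Y * I)‖ ≤ (M * 3 ^ b * Y ^ b) * (c - 1 / 2) := by
    intro Y hY
    apply hor_le (g := GG x0 j) (by linarith)
    · intro y _ _
      apply hP
      simp
      linarith
    · intro y h1 h2
      have hre : ((y : ℂ) + Y * I).re = y := by simp
      have him : ((y : ℂ) + Y * I).im = Y := by simp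
      have h3 := hstrip (y + Y * I) ⟨by rw [hre]; exact h1, by rw [hre]; exact h2, by rw [him]; exact hY⟩
      have h4 : ‖(y : ℂ) + Y * I‖ ≤ 3 * Y := by
        have := Complex.norm_le_abs_re_add_abs_im ((y : ℂ) + Y * I)
        rw [hre, him, abs_of_pos (by linarith), abs_of_pos (by linarith)] at this
        linarith
      refine h3.trans ?_
      calc M * ‖(y : ℂ) + Y * I‖ ^ b ≤ M * (3 * Y) ^ b := by
            have := Real.rpow_le_rpow (norm_nonneg _) h4 hb0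
            gcongr
        _ = M * 3 ^ b * Y ^ b := by rw [Real.mul_rpow (by norm_num) (by linarith)]; ring
  have e1 : ∀ σ : ℝ, (∫ t in (1:ℝ)..T, GG x0 j (σ + t * I)) = -I * (P (σ + T * I) - P (σ + (1:ℝ) * I)) := by
    intro σ
    rw [hvert σ, ← mul_assoc]; simp
  rw [e1, e1]
  have e2 : -I * (P (((1 / 2 : ℝ) : ℂ) + T * I) - P (((1 / 2 : ℝ) : ℂ) + (1:ℝ) * I)) - -I * (P (c + T * I) - P (c + (1:ℝ) * I)) =
      I * ((P (c + T * I) - P (((1 / 2 : ℝ) : ℂ) + T * I)) - (P (c + (1:ℝ) * I) - P (((1 / 2 : ℝ) : ℂ) + (1:ℝ) * I))) := by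
    ring
  rw [e2, norm_mul, Complex.norm_I, one_mul]
  have h1 := hh T (by linarith)
  have h2 := hh 1 le_rfl
  rw [Real.one_rpow, mul_one] at h2
  have hTb : 1 ≤ T ^ b := Real.one_le_rpow (by linarith) hb0
  have h3 : 0 ≤ M * 3 ^ b * (c - 1 / 2) := by positivity
  refine (norm_sub_le _ _).trans ?_
  nlinarith

end Pool.Agent.H16.MM
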