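import Mathlib
import Pool.Agent.H16.MM.G8

set_option autoImplicit false

namespace Pool.Agent.H16.MM

open Complex Filter Topology Set MeasureTheory
open Pool.Agent.Helper156_SM (ak ak_nonneg ak_zero ak_bound ak_hasSum ak_summable)
open Pool.Agent.H388LH (HS pl_half zeta_growth zeta_growth' diffAt_zeta_im cont_zeta_line extend_bound)

/-- `ζ(1/2 + it) = O(|t|^(a+ε))` for every `ε > 0` -/
def ZOrder (a : ℝ) : Prop := ∀ ε : ℝ, 0 < ε → ∃ C : ℝ, ∀ t : ℝ,
  ‖riemannZeta (1 / 2 + t * I)‖ ≤ C * (1 + |t|) ^ (a + ε)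

/-- the integrand of the mixed moment -/
noncomputable def ff (k : ℕ) (α t : ℝ) : ℂ :=
  riemannZeta (1 / 2 + t * I) ^ k * riemannZeta (1 / 2 - t * I) * (α : ℂ) ^ (-(t * I))

/-- the mixed moment -/
noncomputable def MMt (k : ℕ) (α T : ℝ) : ℂ := ∫ t in (0:ℝ)..T, ff k α t

/-- the divisor sum -/
noncomputable def DD (k : ℕ) (α T : ℝ) : ℂ := 2 * Real.pi * (√α : ℂ) *
  ∑ n ∈ Finset.Icc 1 ⌊T / (2 * Real.pi * α)⌋₊, (ak (k + 1) n : ℂ) * cexp (-(2 * Real.pi * α * n * I))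

/-- the conjugate part of the integrand -/
noncomputable def EB (x0 : ℝ) (j : ℕ) (t : ℝ) : ℂ :=
  gg x0 (-(Real.pi / 2)) (((1 / 2 : ℝ) : ℂ) + t * I) * riemannZeta (((1 / 2 : ℝ) : ℂ) + t * I) ^ j

theorem half_eq : ((1 / 2 : ℝ) : ℂ) = 1 / 2 := by push_cast; ring

theorem ff_eq {α : ℝ} (hα : 0 < α) (k : ℕ) (t : ℝ) :
    ff k α t = (√α : ℂ) * (GG (2 * Real.pi * α) (k + 1) (((1 / 2 : ℝ) : ℂ) + t * I) + EB (2 * Real.pi * α) (k + 1) t) := by
  have hpi := Real.pi_pos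
  set s : ℂ := ((1 / 2 : ℝ) : ℂ) + t * I with hs
  have hs' : (1 / 2 : ℂ) + t * I = s := by rw [hs, half_eq]
  have h1s : (1 / 2 : ℂ) - t * I = 1 - s := by rw [hs, half_eq]; ring
  have hre : s.re = 1 / 2 := by rw [hs]; simp
  have hfe := riemannZeta_one_sub (s := s) (by
    intro n h
    have := congrArg Complex.re h
    rw [hre] at this
    simp at this
    have h0 : (0 : ℝ) ≤ n := Nat.cast_nonneg n
    linarith) (by
    intro h
    rw [h] at hre
    norm_num at hre)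
  have hα' : (α : ℂ) ≠ 0 := by exact_mod_cast hα.ne'
  have e1 : (α : ℂ) ^ (-(t * I)) = (√α : ℂ) * (α : ℂ) ^ (-s) := by
    have : -((t : ℂ) * I) = ((1 / 2 : ℝ) : ℂ) + (-s) := by rw [hs]; ring
    rw [this, Complex.cpow_add _ _ hα']
    congr 1
    rw [Real.sqrt_eq_rpow, Complex.ofReal_cpow hα.le]
  have e2 : ((2 * Real.pi * α : ℝ) : ℂ) ^ (-s) = (2 * Real.pi : ℂ) ^ (-s) * (α : ℂ) ^ (-s) := by
    have := Complex.mul_cpow_ofReal_nonneg (a := 2 * Real.pi) (b := α) (by positivity) hα.le (-s)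
    push_cast at this ⊢
    exact this
  unfold ff GG EB gg
  rw [hs', h1s, hfe, e1, ← hs, e2, Complex.cos]
  have e3 : cexp ((Real.pi : ℂ) * s / 2 * I) = cexp (-(((-(Real.pi / 2) : ℝ) : ℂ) * I) * s) := by
    congr 1; push_cast; ring
  have e4 : cexp (-((Real.pi : ℂ) * s / 2) * I) = cexp (-(((Real.pi / 2 : ℝ) : ℂ) * I) * s) := by
    congr 1; push_cast; ring
  rw [e3, e4]
  ring

theorem ff_cont {α : ℝ} (hα : 0 < α) (k : ℕ) : Continuous (ff k α) := by
  have hα' : (α : ℂ) ≠ 0 := by exact_mod_cast hα.ne'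
  unfold ff
  apply Continuous.mul
  · apply Continuous.mul
    · exact cont_zeta_line.pow k
    · have h := cont_zeta_line.comp continuous_neg
      refine h.congr (fun t => ?_)
      simp only [Function.comp]
      congr 1
      push_cast
      ring
  · apply Continuous.const_cpow
    · fun_prop
    · exact Or.inl hα'

theorem EB_cont {x0 : ℝ} (hx0 : 0 < x0) (j : ℕ) : Continuous (EB x0 j) := by
  unfold EB
  apply Continuous.mul (gg_cont hx0 (by norm_num))
  apply Continuous.pow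
  refine cont_zeta_line.congr (fun t => ?_)
  rw [half_eq]

theorem GGl_cont {x0 : ℝ} (hx0 : 0 < x0) (j : ℕ) : Continuous (fun t : ℝ => GG x0 j (((1 / 2 : ℝ) : ℂ) + t * I)) := by
  unfold GG
  apply Continuous.mul (gg_cont hx0 (by norm_num))
  apply Continuous.pow
  refine cont_zeta_line.congr (fun t => ?_)
  rw [half_eq]

theorem EB_bound {x0 : ℝ} (hx0 : 0 < x0) (j : ℕ) : ∃ B : ℝ, 0 < B ∧ ∀ a b : ℝ, 1 ≤ a → a ≤ b →
    ‖∫ t in a..b, EB x0 j t‖ ≤ B := by
  obtain ⟨K, hK, h⟩ := gg_poly hx0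
  have hpi := Real.pi_gt_three
  set B : ℝ := K * 9 ^ j * (j.factorial * Real.exp 1) with hB
  have hBpos : 0 < B := by
    have : (0:ℝ) < j.factorial := by exact_mod_cast j.factorial_pos
    positivity
  refine ⟨B, hBpos, fun a b ha hab => ?_⟩
  have hpt : ∀ t : ℝ, 1 ≤ t → ‖EB x0 j t‖ ≤ B * Real.exp (-t) := by
    intro t ht
    have e1 : ((((1 / 2 : ℝ)) : ℂ) + t * I).re = 1 / 2 := by simp
    have e2 : ((((1 / 2 : ℝ)) : ℂ) + t * I).im = t := by simp
    have g1 := (h (((1 / 2 : ℝ) : ℂ) + t * I) (by rw [e1]; norm_num) (by rw [e1]; norm_num) (by rw [e2]; exact ht)).2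
    rw [e1, e2, sub_self, Real.rpow_zero, mul_one] at g1
    have g2 := zeta_growth' (s := ((1 / 2 : ℝ) : ℂ) + t * I) (by rw [e1]; norm_num) (by rw [e1]; norm_num)
    rw [e2, abs_of_pos (by linarith)] at g2
    have g3 : (1 + t) ^ j ≤ j.factorial * Real.exp (1 + t) := by
      have := Real.pow_div_factorial_le_exp (1 + t) (by linarith) j
      rw [div_le_iff₀ (by exact_mod_cast j.factorial_pos)] at this
      linarith
    unfold EB
    rw [norm_mul, norm_pow]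
    calc ‖gg x0 (-(Real.pi / 2)) (((1 / 2 : ℝ) : ℂ) + t * I)‖ * ‖riemannZeta (((1 / 2 : ℝ) : ℂ) + t * I)‖ ^ j
        ≤ (K * Real.exp (-(Real.pi * t))) * (9 * (1 + t)) ^ j := by
          apply mul_le_mul g1 (pow_le_pow_left₀ (norm_nonneg _) g2 j) (by positivity) (by positivity)
      _ = K * 9 ^ j * (Real.exp (-(Real.pi * t)) * (1 + t) ^ j) := by rw [mul_pow]; ring
      _ ≤ K * 9 ^ j * (Real.exp (-(Real.pi * t)) * (j.factorial * Real.exp (1 + t))) := by gcongr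
      _ = K * 9 ^ j * (j.factorial * (Real.exp (-(Real.pi * t)) * Real.exp (1 + t))) := by ring
      _ ≤ K * 9 ^ j * (j.factorial * (Real.exp 1 * Real.exp (-t))) := by
          rw [← Real.exp_add, ← Real.exp_add]
          have : Real.exp (-(Real.pi * t) + (1 + t)) ≤ Real.exp (1 + -t) := by
            apply Real.exp_le_exp.2
            nlinarith
          gcongr
      _ = _ := by rw [hB]; ring
  have hder : ∀ t ∈ uIcc a b, HasDerivAt (fun t : ℝ => -(B * Real.exp (-t))) (B * Real.exp (-t)) t := by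
    intro t _
    have h1 : HasDerivAt (fun t : ℝ => -t) (-1) t := (hasDerivAt_id t).neg
    have h2 := (h1.exp.const_mul B).neg
    have e : B * Real.exp (-t) = -(B * (Real.exp (-t) * -1)) := by ring
    rw [e]
    exact h2
  have hcont : Continuous (fun t : ℝ => B * Real.exp (-t)) := by fun_prop
  have h1 := intervalIntegral.norm_integral_le_of_norm_le (μ := volume) (f := EB x0 j)
    (g := fun t : ℝ => B * Real.exp (-t)) hab
    (ae_of_all _ (fun t ht => hpt t (ha.trans ht.1.le))) (hcont.intervalIntegrable _ _)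
  refine h1.trans ?_
  rw [intervalIntegral.integral_eq_sub_of_hasDerivAt hder (hcont.intervalIntegrable _ _)]
  have h2 : Real.exp (-a) ≤ 1 := by rw [Real.exp_le_one_iff]; linarith
  have h3 := Real.exp_pos (-b)
  nlinarith

theorem MMt_eq {α : ℝ} (hα : 0 < α) (k : ℕ) {a b : ℝ} : (∫ t in a..b, ff k α t) =
    (√α : ℂ) * ((∫ t in a..b, GG (2 * Real.pi * α) (k + 1) (((1 / 2 : ℝ) : ℂ) + t * I)) +
      ∫ t in a..b, EB (2 * Real.pi * α) (k + 1) t) := by
  have hpi := Real.pi_pos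
  rw [← intervalIntegral.integral_add ((GGl_cont (by positivity) _).intervalIntegrable _ _)
    ((EB_cont (by positivity) _).intervalIntegrable _ _), ← intervalIntegral.integral_const_mul]
  apply intervalIntegral.integral_congr
  intro t _
  exact ff_eq hα k t

theorem DD_eq {α : ℝ} (k : ℕ) (T : ℝ) : DD k α T = (√α : ℂ) *
    ∑ n ∈ Finset.Icc 1 ⌊T / (2 * Real.pi * α)⌋₊, (ak (k + 1) n : ℂ) *
      (2 * Real.pi * cexp (-(I * ((2 * Real.pi * α * n : ℝ) : ℂ)))) := by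
  unfold DD
  rw [Finset.mul_sum, Finset.mul_sum]
  apply Finset.sum_congr rfl
  intro n _
  have : cexp (-(2 * Real.pi * α * n * I)) = cexp (-(I * ((2 * Real.pi * α * n : ℝ) : ℂ))) := by
    congr 1; push_cast; ring
  rw [this]
  ring

/-- the upper bound -/
theorem upper {α : ℝ} (hα : 0 < α) (k : ℕ) {a : ℝ} (ha : 0 ≤ a) (h : ZOrder a) {ε : ℝ} (hε : 0 < ε) :
    ∃ C : ℝ, ∀ T : ℝ, 2 ≤ T → ‖MMt k α T - DD k α T‖ ≤ C * T ^ (max (1 / 2) ((k + 1) * a) + ε) := by
  have hpi := Real.pi_pos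
  have hx0 : 0 < 2 * Real.pi * α := by positivity
  set x0 : ℝ := 2 * Real.pi * α with hx0d
  set b : ℝ := max (1 / 2) ((k + 1) * a) + ε with hb
  have hj : (0:ℝ) < k + 1 := by positivity
  obtain ⟨C0, hC0⟩ := h (ε / (k + 1)) (by positivity)
  have hC0' : 0 ≤ C0 := by
    have := (norm_nonneg _).trans (hC0 0)
    simpa using this
  set ε' : ℝ := min (ε / 2) 1 with hε'
  have hε'0 : 0 < ε' := lt_min (by linarith) one_pos
  have hε'1 : ε' ≤ 1 := min_le_right _ _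
  have hε'2 : 2 * ε' ≤ ε := by
    have := min_le_left (ε / 2) 1
    linarith
  have hm1 : 1 / 2 ≤ max (1 / 2) ((k + 1) * a) := le_max_left _ _
  have hm2 : (k + 1) * a ≤ max (1 / 2) ((k + 1) * a) := le_max_right _ _
  have hb1 : (((k + 1 : ℕ) : ℝ)) * (a + ε / (k + 1)) ≤ b := by
    push_cast
    have : ((k:ℝ) + 1) * (a + ε / (k + 1)) = (k + 1) * a + ε := by field_simp
    rw [this, hb]
    linarith
  obtain ⟨C1, hC1, hsh⟩ := shift hx0 (k + 1) (c := 1 + ε') (by linarith) (by linarith)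
    (β := a + ε / (k + 1)) (by positivity) hC0' hC0 (b := b) hb1 (by rw [hb]; linarith)
  obtain ⟨C2, hC2, hlc⟩ := line_c hx0 (k + 1) hε'0 hε'1
  obtain ⟨B, hB, hEB⟩ := EB_bound hx0 (k + 1)
  refine ⟨‖∫ t in (0:ℝ)..1, ff k α t‖ + √α * (C1 + C2 + B), fun T hT => ?_⟩
  have hTb : 1 ≤ T ^ b := Real.one_le_rpow (by linarith) (by rw [hb]; linarith)
  have e1 : MMt k α T = (∫ t in (0:ℝ)..1, ff k α t) + ∫ t in (1:ℝ)..T, ff k α t := by
    unfold MMt
    rw [intervalIntegral.integral_add_adjacent_intervals ((ff_cont hα k).intervalIntegrable _ _)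
      ((ff_cont hα k).intervalIntegrable _ _)]
  rw [e1, MMt_eq hα k (a := 1) (b := T), DD_eq]
  rw [← hx0d]
  have s1 := hsh T hT
  have s2 := hlc T hT
  have s3 := hEB 1 T le_rfl (by linarith)
  set X := ∫ t in (1:ℝ)..T, GG x0 (k + 1) (((1 / 2 : ℝ) : ℂ) + t * I) with hX
  set Y := ∫ t in (1:ℝ)..T, GG x0 (k + 1) (((1 + ε' : ℝ) : ℂ) + t * I) with hY
  set Z := ∑ n ∈ Finset.Icc 1 ⌊T / x0⌋₊, (ak (k + 1) n : ℂ) *
      (2 * Real.pi * cexp (-(I * ((x0 * n : ℝ) : ℂ)))) with hZ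
  set W := ∫ t in (1:ℝ)..T, EB x0 (k + 1) t with hW
  set V := ∫ t in (0:ℝ)..1, ff k α t with hV
  have e2 : V + (√α : ℂ) * (X + W) - (√α : ℂ) * Z = V + (√α : ℂ) * ((X - Y) + (Y - Z) + W) := by ring
  rw [e2]
  have hsq : ‖(√α : ℂ)‖ = √α := by
    rw [Complex.norm_real, Real.norm_of_nonneg (Real.sqrt_nonneg _)]
  have hT2 : T ^ (1 / 2 + 2 * ε') ≤ T ^ b := Real.rpow_le_rpow_of_exponent_le (by linarith) (by rw [hb]; linarith)
  have hsq0 : 0 ≤ √α := Real.sqrt_nonneg _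
  have hV0 := norm_nonneg V
  calc ‖V + (√α : ℂ) * ((X - Y) + (Y - Z) + W)‖ ≤ ‖V‖ + √α * ‖(X - Y) + (Y - Z) + W‖ := by
        refine (norm_add_le _ _).trans ?_
        rw [norm_mul, hsq]
    _ ≤ ‖V‖ + √α * (‖X - Y‖ + ‖Y - Z‖ + ‖W‖) := by
        gcongr
        exact norm_add₃_le
    _ ≤ ‖V‖ + √α * (C1 * T ^ b + C2 * T ^ b + B) := by
        have : C2 * T ^ (1 / 2 + 2 * ε') ≤ C2 * T ^ b := by gcongr
        gcongr
        exact s2.trans this
    _ ≤ ‖V‖ * T ^ b + √α * (C1 * T ^ b + C2 * T ^ b + B * T ^ b) := by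
        gcongr
        · nlinarith
        · nlinarith
    _ = _ := by ring

end Pool.Agent.H16.MM
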