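import Mathlib
import Pool.Agent.H16.MM.G9

set_option autoImplicit false

namespace Pool.Agent.H16.MM

open Complex Filter Topology Set MeasureTheory
open Pool.Agent.Helper156_SM (ak ak_nonneg ak_zero ak_bound ak_hasSum ak_summable)
open Pool.Agent.H388LH (HS pl_half zeta_growth zeta_growth' diffAt_zeta_im cont_zeta_line extend_bound)

/-- from a bound on the line `Re s = 1/2 + δ` to one on the critical line, with loss `4δ` -/
theorem to_crit {β δ : ℝ} (hβ : 0 ≤ β) (hδ0 : 0 < δ) (hδ1 : δ < 1 / 4)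
    (h : ∃ C : ℝ, ∀ t : ℝ, ‖riemannZeta ((1 / 2 + δ : ℝ) + t * I)‖ ≤ C * (1 + |t|) ^ β) :
    ∃ C : ℝ, ∀ t : ℝ, ‖riemannZeta (1 / 2 + t * I)‖ ≤ C * (1 + |t|) ^ (β + 4 * δ) := by
  obtain ⟨C, hC⟩ := h
  have hC0 : 0 ≤ C := by
    have := (norm_nonneg _).trans (hC 0)
    simpa using this
  -- a constant bounding (1+|y|)^(β+1) exp(-y^2)
  obtain ⟨D, hD⟩ : ∃ D : ℝ, ∀ y : ℝ, (1 + |y|) ^ (β + 1) * Real.exp (-y ^ 2) ≤ D := by
    have h1 : Tendsto (fun y : ℝ => y ^ (β + 1) * Real.exp (-y)) atTop (𝓝 0) := by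
      have := tendsto_rpow_mul_exp_neg_mul_atTop_nhds_zero (β + 1) 1 one_pos
      simpa using this
    have h2 : ∃ D : ℝ, ∀ y : ℝ, 1 ≤ y → y ^ (β + 1) * Real.exp (-y) ≤ D := by
      have h3 : ∀ᶠ y in atTop, y ^ (β + 1) * Real.exp (-y) ≤ 1 :=
        (h1.eventually (gt_mem_nhds one_pos)).mono (fun _ h => le_of_lt h)
      obtain ⟨Y, hY⟩ := eventually_atTop.1 h3
      have h4 : ContinuousOn (fun y : ℝ => y ^ (β + 1) * Real.exp (-y)) (Icc 1 Y) := by
        apply ContinuousOn.mul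
        · apply ContinuousOn.rpow_const continuousOn_id
          intro x _; right; linarith
        · fun_prop
      obtain ⟨D, hD⟩ := isCompact_Icc.exists_bound_of_continuousOn h4
      refine ⟨max D 1, fun y hy => ?_⟩
      rcases le_total y Y with h5 | h5
      · exact ((le_abs_self _).trans (hD y ⟨hy, h5⟩)).trans (le_max_left _ _)
      · exact (hY y h5).trans (le_max_right _ _)
    obtain ⟨D, hD⟩ := h2
    refine ⟨D * Real.exp 2, fun y => ?_⟩
    have h6 := hD (1 + |y|) (by linarith [abs_nonneg y])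
    have h7 : Real.exp (-y ^ 2) ≤ Real.exp (-(1 + |y|)) * Real.exp 2 := by
      rw [← Real.exp_add]
      apply Real.exp_le_exp.2
      have : y ^ 2 = |y| ^ 2 := (sq_abs y).symm
      nlinarith [sq_nonneg (|y| - 1 / 2)]
    calc (1 + |y|) ^ (β + 1) * Real.exp (-y ^ 2)
        ≤ (1 + |y|) ^ (β + 1) * (Real.exp (-(1 + |y|)) * Real.exp 2) := by
          apply mul_le_mul_of_nonneg_left h7; positivity
      _ = ((1 + |y|) ^ (β + 1) * Real.exp (-(1 + |y|))) * Real.exp 2 := by ring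
      _ ≤ D * Real.exp 2 := by
          apply mul_le_mul_of_nonneg_right h6 (Real.exp_pos _).le
  have hD0 : 0 ≤ D := le_trans (by positivity) (hD 0)
  have hsplit : ∀ (γ : ℝ), 0 ≤ γ → ∀ T y : ℝ, (1 + |y + T|) ^ γ ≤ (1 + |T|) ^ γ * (1 + |y|) ^ γ := by
    intro γ hγ T y
    rw [← Real.mul_rpow (by positivity) (by positivity)]
    apply Real.rpow_le_rpow (by positivity) _ hγ
    have := abs_add_le y T
    nlinarith [abs_nonneg y, abs_nonneg T, mul_nonneg (abs_nonneg y) (abs_nonneg T)]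
  set A : ℝ := (9 + C) * (D * Real.exp 1) with hA
  have hA0 : 0 ≤ A := by positivity
  refine ⟨A + 1, fun T => ?_⟩
  set F : ℂ → ℂ := fun z => riemannZeta (z + T * I) * cexp ((z - 1 / 2) ^ 2) with hF
  have hexp : ∀ z : ℂ, 1 / 4 ≤ z.re → z.re ≤ 3 / 4 → ‖cexp ((z - 1 / 2) ^ 2)‖ ≤ Real.exp 1 * Real.exp (-z.im ^ 2) := by
    intro z h1 h2
    rw [Complex.norm_exp, ← Real.exp_add]
    apply Real.exp_le_exp.2
    have : ((z - 1 / 2) ^ 2).re = (z.re - 1 / 2) ^ 2 - z.im ^ 2 := by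
      rw [sq, Complex.mul_re]
      simp
      ring
    rw [this]
    nlinarith
  have hT1 : (1:ℝ) ≤ 1 + |T| := by linarith [abs_nonneg T]
  -- general bound for F in the strip
  have hFb : ∀ z : ℂ, 1 / 4 ≤ z.re → z.re ≤ 3 / 4 → ‖F z‖ ≤ A * (1 + |T|) := by
    intro z h1 h2
    rw [hF]
    simp only
    rw [norm_mul]
    have e1 : (z + T * I).re = z.re := by simp
    have e2 : (z + T * I).im = z.im + T := by simp
    have g1 := zeta_growth' (s := z + T * I) (by rw [e1]; exact h1) (by rw [e1]; exact h2)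
    rw [e2] at g1
    have g2 := hexp z h1 h2
    have g3 : 1 + |z.im + T| ≤ (1 + |T|) * (1 + |z.im|) := by
      have := abs_add_le z.im T
      nlinarith [abs_nonneg z.im, abs_nonneg T, mul_nonneg (abs_nonneg z.im) (abs_nonneg T)]
    have g4 : (1 + |z.im|) * Real.exp (-z.im ^ 2) ≤ D := by
      refine le_trans ?_ (hD z.im)
      apply mul_le_mul_of_nonneg_right _ (Real.exp_pos _).le
      calc 1 + |z.im| = (1 + |z.im|) ^ (1:ℝ) := (Real.rpow_one _).symm
        _ ≤ (1 + |z.im|) ^ (β + 1) := by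
          apply Real.rpow_le_rpow_of_exponent_le (by linarith [abs_nonneg z.im]) (by linarith)
    calc ‖riemannZeta (z + T * I)‖ * ‖cexp ((z - 1 / 2) ^ 2)‖
        ≤ (9 * ((1 + |T|) * (1 + |z.im|))) * (Real.exp 1 * Real.exp (-z.im ^ 2)) := by
          apply mul_le_mul _ g2 (norm_nonneg _) (by positivity)
          exact g1.trans (by linarith)
      _ = 9 * ((1 + |z.im|) * Real.exp (-z.im ^ 2)) * Real.exp 1 * (1 + |T|) := by ring
      _ ≤ 9 * D * Real.exp 1 * (1 + |T|) := by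
          gcongr
      _ ≤ A * (1 + |T|) := by
          apply mul_le_mul_of_nonneg_right _ (by positivity)
          rw [hA]
          have : 0 ≤ C * (D * Real.exp 1) := by positivity
          nlinarith
  have hFr : ∀ z : ℂ, z.re = 1 / 2 + δ → ‖F z‖ ≤ A * (1 + |T|) ^ β := by
    intro z hz
    rw [hF]
    simp only
    rw [norm_mul]
    have e1 : z + T * I = ((1 / 2 + δ : ℝ) : ℂ) + ((z.im + T : ℝ) : ℂ) * I := by
      apply Complex.ext
      · simp [hz]
      · simp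
    have g1 := hC (z.im + T)
    rw [← e1] at g1
    have g2 := hexp z (by rw [hz]; linarith) (by rw [hz]; linarith)
    have g4 : (1 + |z.im|) ^ β * Real.exp (-z.im ^ 2) ≤ D := by
      refine le_trans ?_ (hD z.im)
      apply mul_le_mul_of_nonneg_right _ (Real.exp_pos _).le
      apply Real.rpow_le_rpow_of_exponent_le (by linarith [abs_nonneg z.im]) (by linarith)
    calc ‖riemannZeta (z + T * I)‖ * ‖cexp ((z - 1 / 2) ^ 2)‖
        ≤ (C * ((1 + |T|) ^ β * (1 + |z.im|) ^ β)) * (Real.exp 1 * Real.exp (-z.im ^ 2)) := by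
          apply mul_le_mul _ g2 (norm_nonneg _) (by positivity)
          exact g1.trans (mul_le_mul_of_nonneg_left (hsplit β hβ T z.im) hC0)
      _ = C * ((1 + |z.im|) ^ β * Real.exp (-z.im ^ 2)) * Real.exp 1 * (1 + |T|) ^ β := by ring
      _ ≤ C * D * Real.exp 1 * (1 + |T|) ^ β := by
          gcongr
      _ ≤ A * (1 + |T|) ^ β := by
          apply mul_le_mul_of_nonneg_right _ (by positivity)
          rw [hA]
          have : 0 ≤ D * Real.exp 1 := by positivity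
          nlinarith
  -- three lines
  have h3 := Complex.HadamardThreeLines.norm_le_interp_of_mem_verticalClosedStrip' (f := F)
    (z := (1 / 2 : ℂ)) (l := 1 / 4) (u := 1 / 2 + δ) (a := A * (1 + |T|)) (b := A * (1 + |T|) ^ β)
    (by linarith) (by
      simp only [Complex.HadamardThreeLines.verticalClosedStrip, mem_preimage, mem_Icc]
      norm_num
      linarith) (by
      apply DifferentiableOn.diffContOnCl
      intro z hz
      have hz' : z.re ∈ Icc (1 / 4) (1 / 2 + δ) := by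
        have h5 : closure (Complex.HadamardThreeLines.verticalStrip (1 / 4) (1 / 2 + δ)) ⊆
            re ⁻¹' Icc (1 / 4) (1 / 2 + δ) := by
          apply closure_minimal
          · intro w hw
            exact Ioo_subset_Icc_self hw
          · exact isClosed_Icc.preimage Complex.continuous_re
        exact h5 hz
      apply DifferentiableAt.differentiableWithinAt
      apply DifferentiableAt.mul
      · apply DifferentiableAt.comp (f := fun z : ℂ => z + T * I)
        · apply differentiableAt_riemannZeta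
          intro h6
          have h7 := congrArg Complex.re h6
          simp at h7
          have := hz'.2
          linarith
        · fun_prop
      · fun_prop) (by
      refine ⟨A * (1 + |T|), ?_⟩
      rintro _ ⟨z, hz, rfl⟩
      exact hFb z hz.1 (hz.2.trans (by linarith))) (by
      intro z hz
      have hz' : z.re = 1 / 4 := hz
      exact hFb z (by rw [hz']) (by rw [hz']; norm_num)) (by
      intro z hz
      exact hFr z hz)
  have e3 : F (1 / 2) = riemannZeta (1 / 2 + T * I) := by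
    rw [hF]; simp
  rw [e3] at h3
  refine h3.trans ?_
  have e4 : ((1 / 2 : ℂ).re) = 1 / 2 := by norm_num
  rw [e4]
  set θ : ℝ := (1 / 2 - 1 / 4) / (1 / 2 + δ - 1 / 4) with hθ
  have hθ1 : θ ≤ 1 := by
    rw [hθ, div_le_one (by linarith)]; linarith
  have hθ0 : 0 ≤ θ := by
    rw [hθ]; apply div_nonneg <;> linarith
  have hθ2 : 1 - θ ≤ 4 * δ := by
    rw [hθ]
    have h5 : 1 - (1 / 2 - 1 / 4) / (1 / 2 + δ - 1 / 4) = δ / (1 / 4 + δ) := by
      have h7 : (1 / 2 + δ - 1 / 4 : ℝ) = 1 / 4 + δ := by ring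
      have h6 : (1 / 4 + δ : ℝ) ≠ 0 := by linarith
      rw [h7, eq_div_iff h6, sub_mul, div_mul_cancel₀ _ h6]
      ring
    rw [h5, div_le_iff₀ (by linarith)]
    nlinarith
  rw [Real.mul_rpow hA0 (by positivity), Real.mul_rpow hA0 (by positivity), ← Real.rpow_mul (by positivity)]
  calc A ^ (1 - θ) * (1 + |T|) ^ (1 - θ) * (A ^ θ * (1 + |T|) ^ (β * θ))
      = (A ^ (1 - θ) * A ^ θ) * ((1 + |T|) ^ (1 - θ) * (1 + |T|) ^ (β * θ)) := by ring
    _ ≤ (A + 1) * (1 + |T|) ^ (β + 4 * δ) := by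
        apply mul_le_mul
        · rcases eq_or_lt_of_le hA0 with h8 | h8
          · rw [← h8]
            rcases eq_or_lt_of_le hθ0 with h9 | h9
            · rw [← h9]; simp
            · rw [Real.zero_rpow h9.ne']; simp
          · rw [← Real.rpow_add h8, sub_add_cancel, Real.rpow_one]
            linarith
        · rw [← Real.rpow_add (by positivity)]
          apply Real.rpow_le_rpow_of_exponent_le hT1
          nlinarith
        · positivity
        · positivity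

/-- variation of a primitive along a vertical segment -/
theorem vert_le {F f : ℂ → ℂ} {s : ℂ} {u M : ℝ} (hu : 0 ≤ u)
    (hF : ∀ v : ℝ, 0 ≤ v → v ≤ u → HasDerivAt F (f (s + v * I)) (s + v * I))
    (hM : ∀ v : ℝ, 0 ≤ v → v ≤ u → ‖f (s + v * I)‖ ≤ M) :
    ‖F (s + u * I) - F s‖ ≤ M * u := by
  have hder : ∀ v ∈ Icc 0 u, HasDerivWithinAt (fun v : ℝ => F (s + v * I)) (f (s + v * I) * (1 * I)) (Icc 0 u) v := by
    intro v hv
    have h1 : HasDerivAt (fun z : ℂ => s + z * I) (1 * I) (v : ℂ) :=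
      ((hasDerivAt_id _).mul_const I).const_add _
    have h3 := ((hF v hv.1 hv.2).comp (v : ℂ) h1).comp_ofReal
    exact h3.hasDerivWithinAt
  have h := norm_image_sub_le_of_norm_deriv_le_segment' hder (C := M)
    (fun v hv => by
      rw [norm_mul, one_mul, Complex.norm_I, mul_one]
      exact hM v hv.1 hv.2.le) u (right_mem_Icc.2 hu)
  simp only [Complex.ofReal_zero, zero_mul, add_zero, sub_zero] at h
  exact h

/-- local smallness of the integrals of `GG` on the critical line gives smallness of `GG` just to the right -/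
theorem conv_core {x0 : ℝ} (hx0 : 0 < x0) (j : ℕ) {b C : ℝ} (hb : 0 ≤ b) (hC : 0 ≤ C)
    (h : ∀ t : ℝ, 2 ≤ t → ∀ u : ℝ, 0 ≤ u → u ≤ 1 →
      ‖∫ v in t..(t + u), GG x0 j (((1 / 2 : ℝ) : ℂ) + v * I)‖ ≤ C * t ^ b) {δ : ℝ} (hδ0 : 0 < δ) (hδ1 : δ < 1 / 4) :
    ∃ C1 : ℝ, 0 < C1 ∧ ∀ s : ℂ, s.re = 1 / 2 + δ → 2 ≤ s.im → ‖GG x0 j s‖ ≤ C1 * ‖s‖ ^ (b + 2 * δ) := by
  obtain ⟨P, hP⟩ := GG_prim hx0 j
  have hconv : Convex ℝ {s : ℂ | 0 < s.im} := convex_halfSpace_im_gt 0
  have hopen : IsOpen {s : ℂ | 0 < s.im} := isOpen_lt continuous_const Complex.continuous_im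
  obtain ⟨H, hH⟩ := hconv.exists_forall_hasDerivWithinAt (f := P)
    (fun s hs => (hP s hs).differentiableAt.differentiableWithinAt)
  have hHd : ∀ s : ℂ, 0 < s.im → HasDerivAt H (P s) s := fun s hs =>
    (hH s hs).hasDerivAt (hopen.mem_nhds hs)
  obtain ⟨A, hA, hgr⟩ := GG_growth hx0 j
  obtain ⟨A2, hA2, hright⟩ := GG_right hx0 j (c := 2) (by norm_num) le_rfl
  set Ψ1 : ℂ → ℂ := fun s => P (s + (1:ℝ) * I) - P s with hΨ1
  set Ψ2 : ℂ → ℂ := fun s => H (s + (1:ℝ) * I) - H s - I * P s with hΨ2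
  have him : ∀ (s : ℂ) (v : ℝ), (s + v * I).im = s.im + v := by intro s v; simp
  have hre : ∀ (s : ℂ) (v : ℝ), (s + v * I).re = s.re := by intro s v; simp
  -- a general estimate
  have hgen : ∀ (s : ℂ) (M : ℝ), 0 < s.im → (∀ v : ℝ, 0 ≤ v → v ≤ 1 → ‖P (s + v * I) - P s‖ ≤ M) →
      ‖Ψ1 s‖ ≤ M ∧ ‖Ψ2 s‖ ≤ M := by
    intro s M hs hM
    refine ⟨hM 1 zero_le_one le_rfl, ?_⟩
    have h1 := vert_le (F := fun z => H z - (z - s) * P s) (f := fun z => P z - P s) (s := s) (u := 1) (M := M) zero_le_one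
      (fun v hv0 hv1 => by
        have h2 := hHd (s + v * I) (by rw [him]; linarith)
        have h3 : HasDerivAt (fun z : ℂ => (z - s) * P s) (1 * P s) (s + v * I) :=
          ((hasDerivAt_id _).sub_const s).mul_const _
        rw [one_mul] at h3
        exact h2.sub h3)
      hM
    have e : (H (s + (1:ℝ) * I) - (s + (1:ℝ) * I - s) * P s) - (H s - (s - s) * P s) = Ψ2 s := by
      rw [hΨ2]
      simp only
      push_cast
      ring
    rw [e, mul_one] at h1
    exact h1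
  have hvar : ∀ (s : ℂ) (M : ℝ), 0 < s.im → (∀ v : ℝ, 0 ≤ v → v ≤ 1 → ‖GG x0 j (s + v * I)‖ ≤ M) →
      ∀ v : ℝ, 0 ≤ v → v ≤ 1 → ‖P (s + v * I) - P s‖ ≤ M := by
    intro s M hs hM v hv0 hv1
    have hM0 : 0 ≤ M := (norm_nonneg _).trans (hM 0 le_rfl zero_le_one)
    have := vert_le (F := P) (f := GG x0 j) (s := s) (u := v) (M := M) hv0
      (fun w hw0 hw1 => hP _ (by rw [him]; linarith)) (fun w hw0 hw1 => hM w hw0 (hw1.trans hv1))
    refine this.trans ?_
    nlinarith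
  have hns : ∀ (s : ℂ) (v : ℝ), 1 ≤ s.im → 0 ≤ v → v ≤ 1 → ‖s + v * I‖ ≤ 2 * ‖s‖ := by
    intro s v hs hv0 hv1
    have h1 := hs.trans (Complex.im_le_norm s)
    calc ‖s + v * I‖ ≤ ‖s‖ + ‖(v : ℂ) * I‖ := norm_add_le _ _
      _ ≤ ‖s‖ + 1 := by
          rw [norm_mul, Complex.norm_I, mul_one, Complex.norm_real, Real.norm_of_nonneg hv0]
          linarith
      _ ≤ _ := by linarith
  have hpoly : ∀ s : ℂ, 1 / 4 ≤ s.re → s.re ≤ 4 → 1 ≤ s.im →
      ‖Ψ1 s‖ ≤ A * 2 ^ (4 + j) * ‖s‖ ^ (4 + j) ∧ ‖Ψ2 s‖ ≤ A * 2 ^ (4 + j) * ‖s‖ ^ (4 + j) := by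
    intro s h1 h2 h3
    apply hgen s _ (by linarith)
    apply hvar s _ (by linarith)
    intro v hv0 hv1
    have g1 := hgr (s + v * I) (by rw [hre]; exact h1) (by rw [hre]; exact h2) (by rw [him]; linarith)
    refine g1.trans ?_
    have := hns s v h3 hv0 hv1
    calc A * ‖s + v * I‖ ^ (4 + j) ≤ A * (2 * ‖s‖) ^ (4 + j) := by gcongr
      _ = _ := by rw [mul_pow]; ring
  -- the left line
  have hleft : ∀ s : ℂ, s.re = 1 / 2 → 1 ≤ s.im → ‖Ψ1 s‖ ≤ (C + A * 6 ^ (4 + j)) * ‖s‖ ^ b ∧ ‖Ψ2 s‖ ≤ (C + A * 6 ^ (4 + j)) * ‖s‖ ^ b := by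
    intro s h1 h3
    have hsn : 1 ≤ ‖s‖ := h3.trans (Complex.im_le_norm s)
    have hb1 : 1 ≤ ‖s‖ ^ b := Real.one_le_rpow hsn hb
    rcases le_total 2 s.im with h4 | h4
    · have key : ∀ v : ℝ, 0 ≤ v → v ≤ 1 → ‖P (s + v * I) - P s‖ ≤ C * ‖s‖ ^ b := by
        intro v hv0 hv1
        have e1 : s = ((1 / 2 : ℝ) : ℂ) + (s.im : ℝ) * I := by
          apply Complex.ext
          · simp [h1]
          · simp
        have e2 : s + v * I = ((1 / 2 : ℝ) : ℂ) + ((s.im + v : ℝ) : ℂ) * I := by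
          conv_lhs => rw [e1]
          push_cast
          ring
        have hv := vert_eq (P := P) (g := GG x0 j) (σ := 1 / 2) (a := s.im) (b := s.im + v)
          (fun t ht => by
            rw [uIcc_of_le (by linarith)] at ht
            apply hP
            simp
            linarith [ht.1]) (GG_cont hx0 j (1 / 2) (by linarith) (by linarith))
        rw [← e2, ← e1] at hv
        rw [hv, norm_mul, Complex.norm_I, one_mul]
        refine (h s.im h4 v hv0 hv1).trans ?_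
        have : s.im ^ b ≤ ‖s‖ ^ b := Real.rpow_le_rpow (by linarith) (Complex.im_le_norm s) hb
        gcongr
      have := hgen s (C * ‖s‖ ^ b) (by linarith) key
      have h5 : C * ‖s‖ ^ b ≤ (C + A * 6 ^ (4 + j)) * ‖s‖ ^ b := by
        apply mul_le_mul_of_nonneg_right _ (by positivity)
        have : 0 ≤ A * 6 ^ (4 + j) := by positivity
        linarith
      exact ⟨this.1.trans h5, this.2.trans h5⟩
    · have := hpoly s (by linarith) (by linarith) h3
      have hn : ‖s‖ ≤ 3 := by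
        have := Complex.norm_le_abs_re_add_abs_im s
        rw [h1, abs_of_pos (by norm_num), abs_of_pos (by linarith : 0 < s.im)] at this
        linarith
      have h5 : A * 2 ^ (4 + j) * ‖s‖ ^ (4 + j) ≤ (C + A * 6 ^ (4 + j)) * ‖s‖ ^ b := by
        calc A * 2 ^ (4 + j) * ‖s‖ ^ (4 + j) ≤ A * 2 ^ (4 + j) * 3 ^ (4 + j) := by gcongr
          _ = A * 6 ^ (4 + j) := by rw [mul_assoc, ← mul_pow]; norm_num
          _ ≤ (C + A * 6 ^ (4 + j)) := by linarith
          _ ≤ _ := by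
            have : 0 ≤ C + A * 6 ^ (4 + j) := by positivity
            nlinarith
      exact ⟨this.1.trans h5, this.2.trans h5⟩
  -- the right line
  have hrline : ∀ s : ℂ, s.re = 2 → 1 ≤ s.im → ‖Ψ1 s‖ ≤ (A2 * 2 ^ (3 / 2 : ℝ)) * ‖s‖ ^ (b + 3 / 2) ∧
      ‖Ψ2 s‖ ≤ (A2 * 2 ^ (3 / 2 : ℝ)) * ‖s‖ ^ (b + 3 / 2) := by
    intro s h1 h3
    apply hgen s _ (by linarith)
    apply hvar s _ (by linarith)
    intro v hv0 hv1
    have g1 := hright (s + v * I) (by rw [hre]; exact h1) (by rw [him]; linarith)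
    have hsn : 1 ≤ ‖s‖ := h3.trans (Complex.im_le_norm s)
    have := hns s v h3 hv0 hv1
    refine g1.trans ?_
    have e : (2 - 1 / 2 : ℝ) = 3 / 2 := by norm_num
    rw [e]
    calc A2 * ‖s + v * I‖ ^ (3 / 2 : ℝ) ≤ A2 * (2 * ‖s‖) ^ (3 / 2 : ℝ) := by
          have := Real.rpow_le_rpow (norm_nonneg _) this (by norm_num : (0:ℝ) ≤ 3 / 2)
          gcongr
      _ = A2 * 2 ^ (3 / 2 : ℝ) * ‖s‖ ^ (3 / 2 : ℝ) := by
          rw [Real.mul_rpow (by norm_num) (norm_nonneg _)]; ring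
      _ ≤ _ := by
          have : ‖s‖ ^ (3 / 2 : ℝ) ≤ ‖s‖ ^ (b + 3 / 2) := Real.rpow_le_rpow_of_exponent_le hsn (by linarith)
          gcongr
  -- differentiability
  have hd1 : ∀ s : ℂ, 0 < s.im → HasDerivAt Ψ1 (GG x0 j (s + (1:ℝ) * I) - GG x0 j s) s := by
    intro s hs
    have h1 : HasDerivAt (fun z : ℂ => z + (1:ℝ) * I) 1 s := (hasDerivAt_id _).add_const _
    have h2 := (hP (s + (1:ℝ) * I) (by rw [him]; linarith)).comp s h1
    rw [mul_one] at h2
    exact h2.sub (hP s hs)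
  have hd2 : ∀ s : ℂ, 0 < s.im → HasDerivAt Ψ2 (Ψ1 s - I * GG x0 j s) s := by
    intro s hs
    have h1 : HasDerivAt (fun z : ℂ => z + (1:ℝ) * I) 1 s := (hasDerivAt_id _).add_const _
    have h2 := (hHd (s + (1:ℝ) * I) (by rw [him]; linarith)).comp s h1
    rw [mul_one] at h2
    exact (h2.sub (hHd s hs)).sub ((hP s hs).const_mul I)
  -- Phragmen-Lindelof
  set M : ℝ := (C + A * 6 ^ (4 + j)) + A2 * 2 ^ (3 / 2 : ℝ) + A * 2 ^ (4 + j) * 3 ^ (4 + j) with hM
  have hMpos : 0 < M := by positivity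
  have hPL : ∀ (f : ℂ → ℂ), (∀ s : ℂ, 0 < s.im → DifferentiableAt ℂ f s) →
      (∀ s : ℂ, s.re = 1 / 2 → 1 ≤ s.im → ‖f s‖ ≤ (C + A * 6 ^ (4 + j)) * ‖s‖ ^ b) →
      (∀ s : ℂ, s.re = 2 → 1 ≤ s.im → ‖f s‖ ≤ (A2 * 2 ^ (3 / 2 : ℝ)) * ‖s‖ ^ (b + 3 / 2)) →
      (∀ s : ℂ, 1 / 4 ≤ s.re → s.re ≤ 4 → 1 ≤ s.im → ‖f s‖ ≤ A * 2 ^ (4 + j) * ‖s‖ ^ (4 + j)) →
      ∀ s ∈ HS (1 / 2) 2 1, ‖f s‖ ≤ M * Real.exp (4 * 1) * ‖s‖ ^ ((b - 1 / 2) + 1 * s.re) := by
    intro f hfd h1 h2 h3
    apply pl_gen (by norm_num) le_rfl zero_le_one (by linarith) hMpos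
    · intro s hs
      exact hfd s (by linarith [hs.2.2])
    · intro s hs hs1
      have e : b - 1 / 2 + 1 * (1 / 2) = b := by ring
      rw [e]
      refine (h1 s hs1 hs.2.2).trans ?_
      apply mul_le_mul_of_nonneg_right _ (by positivity)
      rw [hM]
      have : 0 ≤ A2 * 2 ^ (3 / 2 : ℝ) + A * 2 ^ (4 + j) * 3 ^ (4 + j) := by positivity
      linarith
    · intro s hs hs1
      have e : b - 1 / 2 + 1 * 2 = b + 3 / 2 := by ring
      rw [e]
      refine (h2 s hs1 hs.2.2).trans ?_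
      apply mul_le_mul_of_nonneg_right _ (by positivity)
      rw [hM]
      have : 0 ≤ (C + A * 6 ^ (4 + j)) + A * 2 ^ (4 + j) * 3 ^ (4 + j) := by positivity
      linarith
    · intro s hs hs1
      refine (h3 s (by linarith [hs.1]) (by linarith [hs.2.1]) hs.2.2).trans ?_
      have hn : ‖s‖ ≤ 3 := by
        have := Complex.norm_le_abs_re_add_abs_im s
        rw [hs1, abs_of_pos (by linarith [hs.1] : 0 < s.re), abs_one] at this
        linarith [hs.2.1]
      calc A * 2 ^ (4 + j) * ‖s‖ ^ (4 + j) ≤ A * 2 ^ (4 + j) * 3 ^ (4 + j) := by gcongr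
        _ ≤ M := by
            rw [hM]
            have : 0 ≤ (C + A * 6 ^ (4 + j)) + A2 * 2 ^ (3 / 2 : ℝ) := by positivity
            linarith
    · exact ⟨A * 2 ^ (4 + j), 4 + j, by positivity, fun s hs =>
        h3 s (by linarith [hs.1]) (by linarith [hs.2.1]) hs.2.2⟩
  have k1 := hPL Ψ1 (fun s hs => (hd1 s hs).differentiableAt) (fun s a b => (hleft s a b).1)
    (fun s a b => (hrline s a b).1) (fun s a b c => (hpoly s a b c).1)
  have k2 := hPL Ψ2 (fun s hs => (hd2 s hs).differentiableAt) (fun s a b => (hleft s a b).2)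
    (fun s a b => (hrline s a b).2) (fun s a b c => (hpoly s a b c).2)
  set M' : ℝ := M * Real.exp (4 * 1) with hM'
  have hM'pos : 0 < M' := by positivity
  refine ⟨M' + M' * 2 ^ (b + 2 * δ) / δ, by positivity, fun s hs1 hs2 => ?_⟩
  have hsn : 1 ≤ ‖s‖ := (by linarith : (1:ℝ) ≤ s.im).trans (Complex.im_le_norm s)
  have b1 : ‖Ψ1 s‖ ≤ M' * ‖s‖ ^ (b + 2 * δ) := by
    have := k1 s ⟨by linarith, by linarith, by linarith⟩
    refine this.trans ?_
    rw [hs1]
    have : ‖s‖ ^ (b - 1 / 2 + 1 * (1 / 2 + δ)) ≤ ‖s‖ ^ (b + 2 * δ) :=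
      Real.rpow_le_rpow_of_exponent_le hsn (by linarith)
    gcongr
  have b2 : ‖deriv Ψ2 s‖ ≤ M' * 2 ^ (b + 2 * δ) * ‖s‖ ^ (b + 2 * δ) / δ := by
    apply Complex.norm_deriv_le_of_forall_mem_sphere_norm_le hδ0
    · apply DifferentiableOn.diffContOnCl
      intro w hw
      apply DifferentiableAt.differentiableWithinAt
      apply (hd2 w _).differentiableAt
      rw [closure_ball _ hδ0.ne', mem_closedBall_iff_norm] at hw
      have := (abs_le.1 ((Complex.abs_im_le_norm (w - s)).trans hw)).1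
      rw [Complex.sub_im] at this
      linarith
    · intro w hw
      rw [mem_sphere_iff_norm] at hw
      have hwi := (abs_le.1 ((Complex.abs_im_le_norm (w - s)).trans hw.le)).1
      have hwr := abs_le.1 ((Complex.abs_re_le_norm (w - s)).trans hw.le)
      rw [Complex.sub_im] at hwi
      rw [Complex.sub_re] at hwr
      have hmem : w ∈ HS (1 / 2) 2 1 := ⟨by linarith [hwr.1], by linarith [hwr.2], by linarith⟩
      refine (k2 w hmem).trans ?_
      have hwn1 : 1 ≤ ‖w‖ := hmem.2.2.trans (Complex.im_le_norm w)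
      have hwn : ‖w‖ ≤ 2 * ‖s‖ := by
        calc ‖w‖ = ‖s + (w - s)‖ := by congr 1; ring
          _ ≤ ‖s‖ + ‖w - s‖ := norm_add_le _ _
          _ ≤ _ := by rw [hw]; linarith
      calc M' * ‖w‖ ^ (b - 1 / 2 + 1 * w.re) ≤ M' * ‖w‖ ^ (b + 2 * δ) := by
            have : ‖w‖ ^ (b - 1 / 2 + 1 * w.re) ≤ ‖w‖ ^ (b + 2 * δ) :=
              Real.rpow_le_rpow_of_exponent_le hwn1 (by linarith [hwr.2])
            gcongr
        _ ≤ M' * (2 * ‖s‖) ^ (b + 2 * δ) := by
            have := Real.rpow_le_rpow (norm_nonneg _) hwn (by linarith : 0 ≤ b + 2 * δ)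
            gcongr
        _ = _ := by rw [Real.mul_rpow (by norm_num) (norm_nonneg _)]; ring
  rw [(hd2 s (by linarith)).deriv] at b2
  have e : GG x0 j s = -I * (Ψ1 s - (Ψ1 s - I * GG x0 j s)) := by
    have : -I * (Ψ1 s - (Ψ1 s - I * GG x0 j s)) = -(I * I) * GG x0 j s := by ring
    rw [this, Complex.I_mul_I]
    ring
  rw [e, norm_mul, norm_neg, Complex.norm_I, one_mul]
  refine (norm_sub_le _ _).trans ?_
  calc ‖Ψ1 s‖ + ‖Ψ1 s - I * GG x0 j s‖ ≤ M' * ‖s‖ ^ (b + 2 * δ) + M' * 2 ^ (b + 2 * δ) * ‖s‖ ^ (b + 2 * δ) / δ :=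
        add_le_add b1 b2
    _ = _ := by ring

end Pool.Agent.H16.MM
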