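import Mathlib
import Pool.Agent.H16.MM.G10

set_option autoImplicit false

namespace Pool.Agent.H16.MM

open Complex Filter Topology Set MeasureTheory
open Pool.Agent.Helper156_SM (ak ak_nonneg ak_zero ak_bound ak_hasSum ak_summable)
open Pool.Agent.H388LH (HS pl_half zeta_growth zeta_growth' diffAt_zeta_im cont_zeta_line extend_bound)

theorem Icc_one (n : ℕ) : Finset.Icc 1 n = Finset.Ioc 0 n := by
  ext m
  simp only [Finset.mem_Icc, Finset.mem_Ioc]
  omega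

/-- the divisor sum changes little on short intervals -/
theorem DD_diff {α : ℝ} (hα : 0 < α) (k : ℕ) {b : ℝ} (hb : 0 < b) : ∃ C : ℝ, 0 < C ∧ ∀ t u : ℝ, 2 ≤ t → 0 ≤ u → u ≤ 1 →
    ‖DD k α (t + u) - DD k α t‖ ≤ C * t ^ b := by
  obtain ⟨C1, hC1, hak⟩ := ak_bound (k + 1) b hb
  have hpi := Real.pi_pos
  set x0 : ℝ := 2 * Real.pi * α with hx0d
  have hx0 : 0 < x0 := by positivity
  refine ⟨2 * Real.pi * √α * ((1 / x0 + 1) * (C1 * (2 / x0) ^ b)), by positivity, fun t u ht hu0 hu1 => ?_⟩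
  have ht0 : 0 < t := by linarith
  have hle : ⌊t / x0⌋₊ ≤ ⌊(t + u) / x0⌋₊ := by
    apply Nat.floor_le_floor
    apply div_le_div_of_nonneg_right _ hx0.le
    linarith
  unfold DD
  rw [← hx0d, Icc_one, Icc_one, ← Finset.sum_Ioc_consecutive _ (Nat.zero_le _) hle]
  set S1 := ∑ n ∈ Finset.Ioc 0 ⌊t / x0⌋₊, (ak (k + 1) n : ℂ) * cexp (-(2 * Real.pi * α * n * I))
  set S2 := ∑ n ∈ Finset.Ioc ⌊t / x0⌋₊ ⌊(t + u) / x0⌋₊, (ak (k + 1) n : ℂ) * cexp (-(2 * Real.pi * α * n * I)) with hS2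
  have e : 2 * Real.pi * (√α : ℂ) * (S1 + S2) - 2 * Real.pi * (√α : ℂ) * S1 = 2 * Real.pi * (√α : ℂ) * S2 := by ring
  rw [e, norm_mul]
  have hn : ‖(2 * Real.pi * (√α : ℂ) : ℂ)‖ = 2 * Real.pi * √α := by
    rw [norm_mul, norm_mul, Complex.norm_real, Complex.norm_real, Real.norm_of_nonneg hpi.le,
      Real.norm_of_nonneg (Real.sqrt_nonneg _)]
    simp
  rw [hn]
  have hterm : ∀ n ∈ Finset.Ioc ⌊t / x0⌋₊ ⌊(t + u) / x0⌋₊,
      ‖(ak (k + 1) n : ℂ) * cexp (-(2 * Real.pi * α * n * I))‖ ≤ C1 * (2 / x0) ^ b * t ^ b := by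
    intro n hn
    rw [Finset.mem_Ioc] at hn
    have h1 : 1 ≤ n := by omega
    have h2 : (n:ℝ) ≤ (t + u) / x0 := by
      have : (n:ℝ) ≤ (⌊(t + u) / x0⌋₊ : ℝ) := by exact_mod_cast hn.2
      exact this.trans (Nat.floor_le (by positivity))
    have h3 : (n:ℝ) ≤ 2 / x0 * t := by
      refine h2.trans ?_
      rw [div_mul_eq_mul_div]
      apply div_le_div_of_nonneg_right _ hx0.le
      linarith
    rw [norm_mul, Complex.norm_real, Real.norm_of_nonneg (ak_nonneg _ _), Complex.norm_exp]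
    have e1 : (-(2 * (Real.pi : ℂ) * α * n * I)).re = 0 := by
      have : -(2 * (Real.pi : ℂ) * α * n * I) = ((-(2 * Real.pi * α * n) : ℝ) : ℂ) * I := by push_cast; ring
      rw [this, Complex.re_ofReal_mul, Complex.I_re, mul_zero]
    rw [e1, Real.exp_zero, mul_one]
    refine (hak n h1).trans ?_
    rw [mul_assoc, ← Real.mul_rpow (by positivity) ht0.le]
    have := Real.rpow_le_rpow (by positivity) h3 hb.le
    gcongr
  have hsum : ‖S2‖ ≤ (1 / x0 + 1) * (C1 * (2 / x0) ^ b * t ^ b) := by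
    refine (norm_sum_le_of_le _ hterm).trans ?_
    rw [Finset.sum_const, Nat.card_Ioc, nsmul_eq_mul]
    apply mul_le_mul_of_nonneg_right _ (by positivity)
    push_cast [Nat.cast_sub hle]
    have h1 : (⌊(t + u) / x0⌋₊ : ℝ) ≤ (t + u) / x0 := Nat.floor_le (by positivity)
    have h2 : t / x0 < (⌊t / x0⌋₊ : ℝ) + 1 := Nat.lt_floor_add_one _
    have h3 : (t + u) / x0 = t / x0 + u / x0 := by ring
    have h4 : u / x0 ≤ 1 / x0 := by gcongr
    linarith
  calc 2 * Real.pi * √α * ‖S2‖ ≤ 2 * Real.pi * √α * ((1 / x0 + 1) * (C1 * (2 / x0) ^ b * t ^ b)) := by gcongr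
    _ = _ := by ring

/-- the converse -/
theorem lower {α : ℝ} (hα : 0 < α) (k : ℕ) {A : ℝ} (hA : 0 ≤ A)
    (h : ∀ ε : ℝ, 0 < ε → ∃ C : ℝ, ∀ T : ℝ, 2 ≤ T → ‖MMt k α T - DD k α T‖ ≤ C * T ^ (A + ε)) :
    ZOrder (A / (k + 1)) := by
  intro ε hε
  have hpi := Real.pi_pos
  have hx0 : 0 < 2 * Real.pi * α := by positivity
  set x0 : ℝ := 2 * Real.pi * α with hx0d
  set δ : ℝ := min (1 / 8) (ε / 12) with hδ
  have hδ0 : 0 < δ := lt_min (by norm_num) (by linarith)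
  have hδ1 : δ < 1 / 4 := (min_le_left _ _).trans_lt (by norm_num)
  have hδ2 : 12 * δ ≤ ε := by
    have := min_le_right (1 / 8) (ε / 12)
    linarith
  set b : ℝ := A + ε / 2 with hb
  have hb0 : 0 < b := by rw [hb]; linarith
  obtain ⟨C0, hC0⟩ := h (ε / 2) (by linarith)
  rw [← hb] at hC0
  have hC0' : 0 ≤ C0 := by
    have h1 := (norm_nonneg _).trans (hC0 2 le_rfl)
    have h2 : (0:ℝ) < 2 ^ b := by positivity
    by_contra h3
    rw [not_le] at h3
    nlinarith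
  obtain ⟨CD, hCD, hDD⟩ := DD_diff hα k hb0
  obtain ⟨B, hB, hEB⟩ := EB_bound hx0 (k + 1)
  have hsq : 0 < √α := Real.sqrt_pos.2 hα
  -- the local bound
  have hloc : ∀ t : ℝ, 2 ≤ t → ∀ u : ℝ, 0 ≤ u → u ≤ 1 →
      ‖∫ v in t..(t + u), GG x0 (k + 1) (((1 / 2 : ℝ) : ℂ) + v * I)‖ ≤
        ((C0 * 2 ^ b + C0 + CD) / √α + B) * t ^ b := by
    intro t ht u hu0 hu1
    have ht0 : 0 < t := by linarith
    have e1 : MMt k α (t + u) - MMt k α t = ∫ v in t..(t + u), ff k α v := by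
      unfold MMt
      rw [intervalIntegral.integral_interval_sub_left ((ff_cont hα k).intervalIntegrable _ _)
        ((ff_cont hα k).intervalIntegrable _ _)]
    rw [MMt_eq hα k, ← hx0d] at e1
    set X := ∫ v in t..(t + u), GG x0 (k + 1) (((1 / 2 : ℝ) : ℂ) + v * I) with hX
    set W := ∫ v in t..(t + u), EB x0 (k + 1) v with hW
    have hW' : ‖W‖ ≤ B := hEB t (t + u) (by linarith) (by linarith)
    have hsqne : (√α : ℂ) ≠ 0 := by exact_mod_cast hsq.ne'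
    have e2 : X = ((MMt k α (t + u) - DD k α (t + u)) - (MMt k α t - DD k α t) + (DD k α (t + u) - DD k α t)) / (√α : ℂ) - W := by
      have : (MMt k α (t + u) - DD k α (t + u)) - (MMt k α t - DD k α t) + (DD k α (t + u) - DD k α t) =
        MMt k α (t + u) - MMt k α t := by ring
      rw [this, e1]
      field_simp
      ring
    rw [e2]
    refine (norm_sub_le _ _).trans ?_
    rw [norm_div, Complex.norm_real, Real.norm_of_nonneg hsq.le, add_mul, div_mul_eq_mul_div]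
    have h1 := hC0 (t + u) (by linarith)
    have h2 := hC0 t ht
    have h3 := hDD t u ht hu0 hu1
    have h4 : (t + u) ^ b ≤ 2 ^ b * t ^ b := by
      rw [← Real.mul_rpow (by norm_num) ht0.le]
      exact Real.rpow_le_rpow (by linarith) (by linarith) hb0.le
    have h5 : 1 ≤ t ^ b := Real.one_le_rpow (by linarith) hb0.le
    apply add_le_add
    · apply div_le_div_of_nonneg_right _ hsq.le
      refine (norm_add_le _ _).trans ?_
      refine (add_le_add (norm_sub_le _ _) le_rfl).trans ?_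
      have h6 := mul_le_mul_of_nonneg_left h4 hC0'
      linarith
    · nlinarith
  obtain ⟨C1, hC1, hcc⟩ := conv_core hx0 (k + 1) hb0.le (by positivity) hloc hδ0 hδ1
  obtain ⟨κ, hκ, hlo⟩ := Gamma_lo
  have hk1 : (0:ℝ) < k + 1 := by positivity
  set κ' : ℝ := κ * x0 ^ (-(1 / 2 + δ)) with hκ'
  have hκ'0 : 0 < κ' := by positivity
  set C2 : ℝ := C1 * 2 ^ (b + 2 * δ) / κ' with hC2
  have hC2pos : 0 < C2 := by positivity
  have hz : ∀ s : ℂ, s.re = 1 / 2 + δ → 2 ≤ s.im →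
      ‖riemannZeta s‖ ≤ C2 ^ (1 / ((k:ℝ) + 1)) * s.im ^ ((b + 2 * δ) / (k + 1)) := by
    intro s hs1 hs2
    have hi : 0 < s.im := by linarith
    have h1 := hcc s hs1 hs2
    have h2 : κ' ≤ ‖gg x0 (Real.pi / 2) s‖ := by
      rw [norm_gg hx0]
      have h3 := hlo s (by rw [hs1]; linarith) (by rw [hs1]; linarith) (by linarith)
      rw [hs1] at h3 ⊢
      have h4 : (1:ℝ) ≤ s.im ^ (1 / 2 + δ - 1 / 2) := Real.one_le_rpow (by linarith) (by linarith)
      have h5 : 0 < x0 ^ (-(1 / 2 + δ)) := by positivity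
      calc κ' = κ * 1 * x0 ^ (-(1 / 2 + δ)) := by rw [hκ']; ring
        _ ≤ κ * s.im ^ (1 / 2 + δ - 1 / 2) * x0 ^ (-(1 / 2 + δ)) := by gcongr
        _ = (κ * s.im ^ (1 / 2 + δ - 1 / 2) * (Real.exp (-(Real.pi / 2 * s.im)) * Real.exp (Real.pi / 2 * s.im))) *
              x0 ^ (-(1 / 2 + δ)) := by rw [← Real.exp_add, neg_add_cancel, Real.exp_zero, mul_one]
        _ = (κ * s.im ^ (1 / 2 + δ - 1 / 2) * Real.exp (-(Real.pi / 2 * s.im))) *
              x0 ^ (-(1 / 2 + δ)) * Real.exp (Real.pi / 2 * s.im) := by ring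
        _ ≤ ‖Complex.Gamma s‖ * x0 ^ (-(1 / 2 + δ)) * Real.exp (Real.pi / 2 * s.im) := by gcongr
    have h3 : ‖riemannZeta s‖ ^ (k + 1) ≤ C2 * s.im ^ (b + 2 * δ) := by
      unfold GG at h1
      rw [norm_mul, norm_pow] at h1
      have h4 : κ' * ‖riemannZeta s‖ ^ (k + 1) ≤ C1 * ‖s‖ ^ (b + 2 * δ) := by
        refine le_trans ?_ h1
        gcongr
      have h5 : ‖s‖ ≤ 2 * s.im := by
        have := Complex.norm_le_abs_re_add_abs_im s
        rw [hs1, abs_of_pos (by linarith), abs_of_pos hi] at this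
        linarith
      have h6 : ‖s‖ ^ (b + 2 * δ) ≤ 2 ^ (b + 2 * δ) * s.im ^ (b + 2 * δ) := by
        rw [← Real.mul_rpow (by norm_num) hi.le]
        exact Real.rpow_le_rpow (norm_nonneg _) h5 (by linarith)
      have h7 : κ' * ‖riemannZeta s‖ ^ (k + 1) ≤ C1 * (2 ^ (b + 2 * δ) * s.im ^ (b + 2 * δ)) := by
        refine h4.trans ?_
        gcongr
      rw [hC2, div_mul_eq_mul_div, le_div_iff₀ hκ'0]
      linarith
    have h4 : ‖riemannZeta s‖ = (‖riemannZeta s‖ ^ (k + 1)) ^ (1 / ((k:ℝ) + 1)) := by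
      rw [← Real.rpow_natCast, ← Real.rpow_mul (norm_nonneg _)]
      push_cast
      rw [mul_one_div_cancel hk1.ne', Real.rpow_one]
    rw [h4]
    calc (‖riemannZeta s‖ ^ (k + 1)) ^ (1 / ((k:ℝ) + 1)) ≤ (C2 * s.im ^ (b + 2 * δ)) ^ (1 / ((k:ℝ) + 1)) :=
          Real.rpow_le_rpow (by positivity) h3 (by positivity)
      _ = C2 ^ (1 / ((k:ℝ) + 1)) * s.im ^ ((b + 2 * δ) / (k + 1)) := by
          rw [Real.mul_rpow (by positivity) (by positivity), ← Real.rpow_mul hi.le, mul_one_div]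
  have hβ0 : 0 ≤ (b + 2 * δ) / (k + 1) := by
    have : 0 ≤ b + 2 * δ := by linarith
    positivity
  obtain ⟨C3, hC3⟩ := extend_bound (β := (b + 2 * δ) / (k + 1)) (T1 := 2) hβ0 hδ0 hδ1
    (by positivity : 0 ≤ C2 ^ (1 / ((k:ℝ) + 1))) (by norm_num) (fun s hs1 hs2 => hz s hs1 hs2)
  obtain ⟨C4, hC4⟩ := to_crit hβ0 hδ0 hδ1 ⟨C3, hC3⟩
  refine ⟨C4, fun t => (hC4 t).trans ?_⟩
  have hC4' : 0 ≤ C4 := by
    have := (norm_nonneg _).trans (hC4 0)
    simpa using this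
  apply mul_le_mul_of_nonneg_left _ hC4'
  apply Real.rpow_le_rpow_of_exponent_le (by linarith [abs_nonneg t])
  have e : (b + 2 * δ) / (k + 1) = A / (k + 1) + (ε / 2 + 2 * δ) / (k + 1) := by
    rw [hb, ← add_div]; ring
  rw [e]
  have h1 : (ε / 2 + 2 * δ) / (k + 1) ≤ ε / 2 + 2 * δ := by
    apply div_le_self (by linarith)
    have : (0:ℝ) ≤ k := Nat.cast_nonneg k
    linarith
  linarith

end Pool.Agent.H16.MM
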