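import Mathlib

set_option autoImplicit false

/-!
# Mean values in a strip from mean values on its boundary
-/

namespace Pool.Agent.H16.MM

open Complex Filter Topology Set MeasureTheory

/-- a weighted mean over a vertical segment is analytic -/
theorem H_diff {f : ℂ → ℂ} (hd : ∀ s : ℂ, 0 < s.im → DifferentiableAt ℂ f s) {a b : ℝ} (hab : a ≤ b)
    {φ : ℝ → ℂ} (hφ : ContinuousOn φ (Icc a b)) {z : ℂ} (hz : 0 < z.im + a) :
    DifferentiableAt ℂ (fun z : ℂ => ∫ u in a..b, φ u * f (z + u * I)) z := by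
  have hUo : IsOpen {s : ℂ | 0 < s.im} := isOpen_lt continuous_const Complex.continuous_im
  have hfd : DifferentiableOn ℂ f {s : ℂ | 0 < s.im} := fun s hs => (hd s hs).differentiableWithinAt
  have hdc : ContinuousOn (deriv f) {s : ℂ | 0 < s.im} := (hfd.deriv hUo).continuousOn
  have hfc : ContinuousOn f {s : ℂ | 0 < s.im} := hfd.continuousOn
  set δ : ℝ := (z.im + a) / 2 with hδ
  have hδ0 : 0 < δ := by rw [hδ]; linarith
  have hmem : ∀ x ∈ Metric.closedBall z δ, ∀ u ∈ Icc a b, x + (u : ℂ) * I ∈ {s : ℂ | 0 < s.im} := by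
    intro x hx u hu
    rw [Metric.mem_closedBall, Complex.dist_eq] at hx
    have h1 := (abs_le.1 ((Complex.abs_im_le_norm (x - z)).trans hx)).1
    rw [Complex.sub_im] at h1
    simp only [mem_ofPred_eq, add_im, mul_im, ofReal_re, I_im, mul_one, ofReal_im, I_re, mul_zero, add_zero]
    have := hu.1
    linarith
  have hcompact : IsCompact (Metric.closedBall z δ ×ˢ Icc a b) :=
    (isCompact_closedBall z δ).prod isCompact_Icc
  have hcont : ContinuousOn (fun q : ℂ × ℝ => φ q.2 * deriv f (q.1 + q.2 * I)) (Metric.closedBall z δ ×ˢ Icc a b) := by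
    apply ContinuousOn.mul
    · exact hφ.comp continuousOn_snd (fun q hq => hq.2)
    · apply hdc.comp
      · fun_prop
      · intro q hq
        exact hmem q.1 hq.1 q.2 hq.2
  obtain ⟨M, hM⟩ := hcompact.exists_bound_of_continuousOn hcont
  have hball : Metric.ball z δ ∈ 𝓝 z := Metric.ball_mem_nhds z hδ0
  have hcf : ∀ x ∈ Metric.closedBall z δ, ContinuousOn (fun u : ℝ => φ u * f (x + u * I)) (Icc a b) := by
    intro x hx
    apply hφ.mul
    apply hfc.comp
    · fun_prop
    · intro u hu
      exact hmem x hx u hu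
  have key := intervalIntegral.hasDerivAt_integral_of_dominated_loc_of_deriv_le (𝕜 := ℂ) (μ := volume) (a := a) (b := b)
    (bound := fun _ => M) (F := fun (x : ℂ) (u : ℝ) => φ u * f (x + u * I))
    (F' := fun (x : ℂ) (u : ℝ) => φ u * deriv f (x + u * I)) (x₀ := z) (s := Metric.ball z δ) hball
    (by
      filter_upwards [hball] with x hx
      have := (hcf x (Metric.ball_subset_closedBall hx)).aestronglyMeasurable (μ := volume) measurableSet_Icc
      rw [uIoc_of_le hab]
      exact this.mono_measure (Measure.restrict_mono Ioc_subset_Icc_self le_rfl))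
    (by
      apply ContinuousOn.intervalIntegrable
      rw [uIcc_of_le hab]
      exact hcf z (Metric.mem_closedBall_self hδ0.le))
    (by
      have hc : ContinuousOn (fun u : ℝ => φ u * deriv f (z + u * I)) (Icc a b) := by
        apply hφ.mul
        apply hdc.comp
        · fun_prop
        · intro u hu
          exact hmem z (Metric.mem_closedBall_self hδ0.le) u hu
      have := hc.aestronglyMeasurable (μ := volume) measurableSet_Icc
      rw [uIoc_of_le hab]
      exact this.mono_measure (Measure.restrict_mono Ioc_subset_Icc_self le_rfl))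
    (by
      apply ae_of_all
      intro u hu x hx
      rw [uIoc_of_le hab] at hu
      exact hM (x, u) ⟨Metric.ball_subset_closedBall hx, Ioc_subset_Icc_self hu⟩)
    (intervalIntegrable_const)
    (by
      apply ae_of_all
      intro u hu x hx
      rw [uIoc_of_le hab] at hu
      have h1 : HasDerivAt (fun x : ℂ => x + u * I) 1 x := (hasDerivAt_id _).add_const _
      have h2 : HasDerivAt f (deriv f (x + u * I)) (x + u * I) :=
        (hd _ (hmem x (Metric.ball_subset_closedBall hx) u (Ioc_subset_Icc_self hu))).hasDerivAt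
      have h3 := (h2.comp x h1).const_mul (φ u)
      rw [mul_one] at h3
      exact h3)
  exact key.2.differentiableAt

/-- `X^(m+1) exp(-X^2/4)` is bounded -/
theorem pow_exp_le (m : ℕ) {X : ℝ} (hX : 1 ≤ X) :
    X ^ (m + 1) * Real.exp (-(X ^ 2 / 4)) ≤ 4 ^ (m + 1) * (m + 1).factorial := by
  have h1 := Real.pow_div_factorial_le_exp (X ^ 2 / 4) (by positivity) (m + 1)
  have hf : (0:ℝ) < (m + 1).factorial := by exact_mod_cast (m + 1).factorial_pos
  rw [div_le_iff₀ hf, div_pow, div_le_iff₀ (by positivity)] at h1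
  have h2 : X ^ (m + 1) ≤ (X ^ 2) ^ (m + 1) := by
    apply pow_le_pow_left₀ (by linarith)
    nlinarith
  have h3 : X ^ (m + 1) ≤ Real.exp (X ^ 2 / 4) * (m + 1).factorial * 4 ^ (m + 1) := h2.trans h1
  calc X ^ (m + 1) * Real.exp (-(X ^ 2 / 4)) ≤
        (Real.exp (X ^ 2 / 4) * (m + 1).factorial * 4 ^ (m + 1)) * Real.exp (-(X ^ 2 / 4)) := by gcongr
    _ = (Real.exp (X ^ 2 / 4) * Real.exp (-(X ^ 2 / 4))) * (4 ^ (m + 1) * (m + 1).factorial) := by ring
    _ = _ := by rw [← Real.exp_add, add_neg_cancel, Real.exp_zero, one_mul]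

/-- mean values in a strip from those on its boundary lines -/
theorem mean_strip {f : ℂ → ℂ} {c : ℝ} (hc : 1 / 2 < c) (hc2 : c ≤ 2) {m : ℕ} {A : ℝ} (hA : 0 < A)
    (hd : ∀ s : ℂ, 0 < s.im → DifferentiableAt ℂ f s)
    (hgr : ∀ s : ℂ, 1 / 4 ≤ s.re → s.re ≤ 4 → 1 ≤ s.im → ‖f s‖ ≤ A * ‖s‖ ^ m)
    {b B X₀ : ℝ} (hb : 1 ≤ b) (hB : 0 < B) (hX₀ : 2 ≤ X₀)
    (hl : ∀ X : ℝ, X₀ ≤ X → ∫ u in (X / 2)..(5 * X / 2), ‖f (((1 / 2 : ℝ) : ℂ) + u * I)‖ ≤ B * X ^ b)
    (hr : ∀ X : ℝ, X₀ ≤ X → ∫ u in (X / 2)..(5 * X / 2), ‖f ((c : ℂ) + u * I)‖ ≤ B * X ^ b) :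
    ∃ C : ℝ, 0 < C ∧ ∀ X : ℝ, X₀ ≤ X → ∀ σ : ℝ, 1 / 2 ≤ σ → σ ≤ c →
      ∫ u in X..(2 * X), ‖f ((σ : ℂ) + u * I)‖ ≤ C * X ^ b := by
  set C0 : ℝ := Real.exp 4 * B + A * 5 ^ m * Real.exp 4 * (4 ^ (m + 1) * (m + 1).factorial) with hC0
  have hfac : (0:ℝ) < (m + 1).factorial := by exact_mod_cast (m + 1).factorial_pos
  have hC0pos : 0 < C0 := by positivity
  refine ⟨C0 + 1, by positivity, fun X hX σ hσ1 hσ2 => ?_⟩
  have hX2 : 2 ≤ X := hX₀.trans hX
  have hX0 : 0 < X := by linarith
  have hX1 : 1 ≤ X := by linarith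
  have hXb : X ≤ X ^ b := by
    calc X = X ^ (1:ℝ) := (Real.rpow_one _).symm
      _ ≤ X ^ b := Real.rpow_le_rpow_of_exponent_le hX1 hb
  have hfd : DifferentiableOn ℂ f {s : ℂ | 0 < s.im} := fun s hs => (hd s hs).differentiableWithinAt
  have hfc : ContinuousOn f {s : ℂ | 0 < s.im} := hfd.continuousOn
  have hline : ∀ (z : ℂ) (a b : ℝ), (∀ u ∈ Icc a b, 0 < z.im + u) →
      ContinuousOn (fun u : ℝ => f (z + u * I)) (Icc a b) := by
    intro z a b h
    apply hfc.comp
    · fun_prop
    · intro u hu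
      simp only [mem_ofPred_eq, add_im, mul_im, ofReal_re, I_im, mul_one, ofReal_im, I_re, mul_zero, add_zero]
      exact h u hu
  set g : ℝ → ℂ := fun u => f ((σ : ℂ) + u * I) with hg
  have hgc : ContinuousOn g (Icc X (2 * X)) := by
    apply hline σ
    intro u hu
    simp only [ofReal_im, zero_add]
    linarith [hu.1]
  set φ : ℝ → ℂ := fun u => (starRingEnd ℂ) (g u) / ((‖g u‖ + 1 : ℝ) : ℂ) with hφ
  have hφc : ContinuousOn φ (Icc X (2 * X)) := by
    apply ContinuousOn.div
    · exact Complex.continuous_conj.comp_continuousOn hgc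
    · exact Complex.continuous_ofReal.comp_continuousOn (hgc.norm.add continuousOn_const)
    · intro u _
      have : 0 < ‖g u‖ + 1 := by positivity
      exact_mod_cast this.ne'
  have hφ1 : ∀ u, ‖φ u‖ ≤ 1 := by
    intro u
    rw [hφ]
    simp only
    rw [norm_div, Complex.norm_conj, Complex.norm_real, Real.norm_of_nonneg (by positivity)]
    rw [div_le_one (by positivity)]
    linarith
  set H : ℂ → ℂ := fun z => ∫ u in X..(2 * X), φ u * f (z + u * I) with hH
  set F : ℂ → ℂ := fun z => H z * cexp ((z - σ) ^ 2) with hF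
  have hHd : ∀ z : ℂ, -X < z.im → DifferentiableAt ℂ H z := by
    intro z hz
    exact H_diff hd (by linarith) hφc (by linarith)
  have hFd : ∀ z : ℂ, -X < z.im → DifferentiableAt ℂ F z := by
    intro z hz
    exact (hHd z hz).mul (by fun_prop)
  -- norm of the mean
  have hHn : ∀ z : ℂ, -(X / 2) ≤ z.im → ‖H z‖ ≤ ∫ u in X..(2 * X), ‖f (z + u * I)‖ := by
    intro z hz
    have hcz := hline z X (2 * X) (fun u hu => by linarith [hu.1])
    rw [hH]
    simp only
    refine (intervalIntegral.norm_integral_le_integral_norm (by linarith)).trans ?_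
    apply intervalIntegral.integral_mono_on (by linarith)
    · apply ContinuousOn.intervalIntegrable
      rw [uIcc_of_le (by linarith)]
      exact (hφc.mul hcz).norm
    · apply ContinuousOn.intervalIntegrable
      rw [uIcc_of_le (by linarith)]
      exact hcz.norm
    · intro u _
      rw [norm_mul]
      have := norm_nonneg (f (z + u * I))
      have := hφ1 u
      nlinarith
  have hexp : ∀ z : ℂ, 1 / 2 ≤ z.re → z.re ≤ c → ‖cexp ((z - σ) ^ 2)‖ ≤ Real.exp 4 * Real.exp (-z.im ^ 2) := by
    intro z h1 h2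
    rw [Complex.norm_exp, ← Real.exp_add]
    apply Real.exp_le_exp.2
    have : ((z - σ) ^ 2).re = (z.re - σ) ^ 2 - z.im ^ 2 := by
      rw [sq, Complex.mul_re]
      simp
      ring
    rw [this]
    nlinarith
  have hexp0 : ∀ y : ℝ, Real.exp (-y ^ 2) ≤ 1 := by
    intro y
    rw [Real.exp_le_one_iff]
    nlinarith
  -- side edges
  have hside : ∀ (d : ℝ), 1 / 2 ≤ d → d ≤ c →
      (∫ u in (X / 2)..(5 * X / 2), ‖f ((d : ℂ) + u * I)‖ ≤ B * X ^ b) →
      ∀ v : ℝ, -(X / 2) ≤ v → v ≤ X / 2 → ‖F ((d : ℂ) + v * I)‖ ≤ C0 * X ^ b := by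
    intro d hd1 hd2 hI v hv1 hv2
    have hre : ((d : ℂ) + v * I).re = d := by simp
    have him : ((d : ℂ) + v * I).im = v := by simp
    have h1 := hHn ((d : ℂ) + v * I) (by rw [him]; exact hv1)
    have h2 : (∫ u in X..(2 * X), ‖f ((d : ℂ) + v * I + u * I)‖) = ∫ u in (X + v)..(2 * X + v), ‖f ((d : ℂ) + u * I)‖ := by
      have := intervalIntegral.integral_comp_add_right (a := X) (b := 2 * X) (fun u : ℝ => ‖f ((d : ℂ) + u * I)‖) v
      rw [← this]
      congr 1
      ext u
      congr 2
      push_cast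
      ring
    have hcd := hline (d : ℂ) (X / 2) (5 * X / 2) (fun u hu => by
      simp only [ofReal_im, zero_add]
      linarith [hu.1])
    have h3 : (∫ u in (X + v)..(2 * X + v), ‖f ((d : ℂ) + u * I)‖) ≤ ∫ u in (X / 2)..(5 * X / 2), ‖f ((d : ℂ) + u * I)‖ := by
      apply intervalIntegral.integral_mono_interval (by linarith) (by linarith) (by linarith)
      · exact ae_of_all _ (fun u => norm_nonneg _)
      · apply ContinuousOn.intervalIntegrable
        rw [uIcc_of_le (by linarith)]
        exact hcd.norm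
    have h4 := hexp ((d : ℂ) + v * I) (by rw [hre]; exact hd1) (by rw [hre]; exact hd2)
    rw [him] at h4
    have h5 : ‖cexp (((d : ℂ) + v * I - σ) ^ 2)‖ ≤ Real.exp 4 := by
      refine h4.trans ?_
      have := hexp0 v
      have := Real.exp_pos 4
      nlinarith
    rw [hF]
    simp only
    rw [norm_mul]
    calc ‖H ((d : ℂ) + v * I)‖ * ‖cexp (((d : ℂ) + v * I - σ) ^ 2)‖ ≤ (B * X ^ b) * Real.exp 4 := by
          apply mul_le_mul _ h5 (norm_nonneg _) (by positivity)
          rw [h2] at h1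
          exact (h1.trans h3).trans hI
      _ ≤ C0 * X ^ b := by
          rw [hC0]
          have : 0 ≤ A * 5 ^ m * Real.exp 4 * (4 ^ (m + 1) * (m + 1).factorial) * X ^ b := by positivity
          nlinarith
  -- horizontal edges
  have hhor : ∀ z : ℂ, 1 / 2 ≤ z.re → z.re ≤ c → |z.im| = X / 2 → ‖F z‖ ≤ C0 * X ^ b := by
    intro z h1 h2 h3
    have h3' : -(X / 2) ≤ z.im ∧ z.im ≤ X / 2 := abs_le.1 h3.le
    have hn := hHn z h3'.1
    have h4 : (∫ u in X..(2 * X), ‖f (z + u * I)‖) ≤ ∫ u in X..(2 * X), A * (5 * X) ^ m := by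
      apply intervalIntegral.integral_mono_on (by linarith)
      · apply ContinuousOn.intervalIntegrable
        rw [uIcc_of_le (by linarith)]
        exact (hline z X (2 * X) (fun u hu => by linarith [hu.1])).norm
      · exact intervalIntegrable_const
      · intro u hu
        have hre : (z + u * I).re = z.re := by simp
        have him : (z + u * I).im = z.im + u := by simp
        refine (hgr (z + u * I) (by rw [hre]; linarith) (by rw [hre]; linarith) (by rw [him]; linarith [hu.1])).trans ?_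
        have hnn : ‖z + u * I‖ ≤ 5 * X := by
          have := Complex.norm_le_abs_re_add_abs_im (z + u * I)
          rw [hre, him, abs_of_pos (by linarith), abs_of_pos (by linarith [hu.1])] at this
          linarith [hu.2]
        gcongr
    rw [intervalIntegral.integral_const, smul_eq_mul] at h4
    have h5 := hexp z h1 h2
    have h6 : z.im ^ 2 = X ^ 2 / 4 := by
      rw [← sq_abs, h3]; ring
    rw [h6] at h5
    rw [hF]
    simp only
    rw [norm_mul]
    have h7 : ‖H z‖ ≤ X * (A * (5 * X) ^ m) := by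
      refine hn.trans (h4.trans (le_of_eq ?_))
      ring
    calc ‖H z‖ * ‖cexp ((z - σ) ^ 2)‖ ≤ (X * (A * (5 * X) ^ m)) * (Real.exp 4 * Real.exp (-(X ^ 2 / 4))) := by
          apply mul_le_mul h7 h5 (norm_nonneg _) (by positivity)
      _ = A * 5 ^ m * Real.exp 4 * (X ^ (m + 1) * Real.exp (-(X ^ 2 / 4))) := by
          rw [mul_pow, pow_succ]; ring
      _ ≤ A * 5 ^ m * Real.exp 4 * (4 ^ (m + 1) * (m + 1).factorial) := by
          exact mul_le_mul_of_nonneg_left (pow_exp_le m hX1) (by positivity)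
      _ ≤ C0 := by
          rw [hC0]
          have : 0 ≤ Real.exp 4 * B := by positivity
          linarith
      _ ≤ C0 * X ^ b := by nlinarith
  -- the maximum principle
  have hmax : ‖F σ‖ ≤ C0 * X ^ b := by
    have hcl : closure (Ioo (1 / 2) c ×ℂ Ioo (-(X / 2)) (X / 2)) = Icc (1 / 2) c ×ℂ Icc (-(X / 2)) (X / 2) := by
      rw [Complex.closure_reProdIm, closure_Ioo (by linarith), closure_Ioo (by linarith)]
    apply Complex.norm_le_of_forall_mem_frontier_norm_le (U := Ioo (1 / 2) c ×ℂ Ioo (-(X / 2)) (X / 2))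
    · exact (Metric.isBounded_Ioo _ _).reProdIm (Metric.isBounded_Ioo _ _)
    · apply DifferentiableOn.diffContOnCl
      rw [hcl]
      intro z hz
      apply (hFd z _).differentiableWithinAt
      have := hz.2.1
      linarith
    · intro z hz
      rw [Complex.frontier_reProdIm, closure_Ioo (by linarith), closure_Ioo (by linarith), frontier_Ioo (by linarith),
        frontier_Ioo (by linarith)] at hz
      rcases hz with hz | hz
      · have h1 := hz.1
        have h2 := hz.2
        apply hhor z h1.1 h1.2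
        rcases h2 with h2 | h2
        · rw [h2, abs_neg, abs_of_pos (by linarith)]
        · rw [show z.im = X / 2 from h2, abs_of_pos (by linarith)]
      · have h1 := hz.1
        have h2 := hz.2
        have e : z = ((z.re : ℝ) : ℂ) + (z.im : ℝ) * I := (Complex.re_add_im z).symm
        rcases h1 with h1 | h1
        · rw [e, h1]
          exact hside (1 / 2) le_rfl hc.le (hl X hX) z.im h2.1 h2.2
        · rw [e, show z.re = c from h1]
          exact hside c hc.le le_rfl (hr X hX) z.im h2.1 h2.2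
    · rw [hcl]
      refine ⟨⟨by simpa using hσ1, by simpa using hσ2⟩, ⟨?_, ?_⟩⟩
      · simp; linarith
      · simp; linarith
  -- conclusion
  have e1 : F σ = H σ := by
    rw [hF]
    simp
  rw [e1] at hmax
  have e2 : H σ = ((∫ u in X..(2 * X), ‖g u‖ ^ 2 / (‖g u‖ + 1) : ℝ) : ℂ) := by
    rw [hH]
    simp only
    rw [← intervalIntegral.integral_ofReal]
    congr 1
    ext u
    rw [hφ]
    simp only
    have : (starRingEnd ℂ) (g u) * g u = ((‖g u‖ ^ 2 : ℝ) : ℂ) := by
      rw [← Complex.normSq_eq_conj_mul_self, Complex.normSq_eq_norm_sq]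
    rw [div_mul_eq_mul_div, show f ((σ : ℂ) + u * I) = g u from rfl, this]
    push_cast
    ring
  have hg2 : IntervalIntegrable (fun u => ‖g u‖ ^ 2 / (‖g u‖ + 1)) volume X (2 * X) := by
    apply ContinuousOn.intervalIntegrable
    rw [uIcc_of_le (by linarith)]
    apply (hgc.norm.pow 2).div (hgc.norm.add continuousOn_const)
    intro u _
    have : 0 < ‖g u‖ + 1 := by positivity
    exact this.ne'
  have hg1 : IntervalIntegrable (fun u => ‖g u‖) volume X (2 * X) := by
    apply ContinuousOn.intervalIntegrable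
    rw [uIcc_of_le (by linarith)]
    exact hgc.norm
  have e3 : (∫ u in X..(2 * X), ‖g u‖) ≤ ∫ u in X..(2 * X), (‖g u‖ ^ 2 / (‖g u‖ + 1) + 1) := by
    apply intervalIntegral.integral_mono_on (by linarith) hg1 (hg2.add intervalIntegrable_const)
    intro u _
    have hn := norm_nonneg (g u)
    have : ‖g u‖ - 1 ≤ ‖g u‖ ^ 2 / (‖g u‖ + 1) := by
      rw [le_div_iff₀ (by positivity)]
      nlinarith
    linarith
  rw [intervalIntegral.integral_add hg2 intervalIntegrable_const, intervalIntegral.integral_const, smul_eq_mul, mul_one] at e3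
  have e4 : (∫ u in X..(2 * X), ‖g u‖ ^ 2 / (‖g u‖ + 1)) ≤ C0 * X ^ b := by
    rw [e2, Complex.norm_real] at hmax
    exact (le_abs_self _).trans hmax
  calc ∫ u in X..(2 * X), ‖f ((σ : ℂ) + u * I)‖ ≤ (∫ u in X..(2 * X), ‖g u‖ ^ 2 / (‖g u‖ + 1)) + (2 * X - X) := e3
    _ ≤ C0 * X ^ b + X ^ b := by linarith
    _ = _ := by ring

end Pool.Agent.H16.MM
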