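import Mathlib
import Pool.Agent.H16.MM.U1
import Pool.Agent.H16.MM.G9
import Pool.Graph.R_pool_sql_team_seeded_2aa45f1a.Q231.RS.Weyl
import Pool.Graph.R_seed8.TH158.FM.Main

set_option autoImplicit false

/-!
# Unconditional mean values of the integrand
-/

namespace Pool.Agent.H16.MM

open Complex Filter Topology Set MeasureTheory
open Pool.Agent.H388LH (HS pl_half zeta_growth zeta_growth' diffAt_zeta_im cont_zeta_line extend_bound)

theorem zc_cont : Continuous (fun t : ℝ => riemannZeta (((1 / 2 : ℝ) : ℂ) + t * I)) := by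
  refine cont_zeta_line.congr (fun t => ?_)
  rw [half_eq]

/-- Weyl's bound with an exponent -/
theorem weyl_pow {η : ℝ} (hη : 0 < η) : ∃ C : ℝ, 0 < C ∧ ∀ t : ℝ, 2 ≤ t →
    ‖riemannZeta (((1 / 2 : ℝ) : ℂ) + t * I)‖ ≤ C * t ^ (1 / 6 + η) := by
  obtain ⟨C, hC, h⟩ := Pool.Agent.Q231.RS.weyl_log
  refine ⟨C / η, by positivity, fun t ht => ?_⟩
  have ht0 : 0 < t := by linarith
  rw [half_eq]
  refine (h t ht).trans ?_
  have h1 := Real.log_le_rpow_div ht0.le hη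
  calc C * (t ^ (1 / 6 : ℝ) * Real.log t) ≤ C * (t ^ (1 / 6 : ℝ) * (t ^ η / η)) := by gcongr
    _ = C / η * (t ^ (1 / 6 : ℝ) * t ^ η) := by ring
    _ = C / η * t ^ (1 / 6 + η) := by rw [← Real.rpow_add ht0]

theorem zorder_weyl : ZOrder (1 / 6) := by
  intro ε hε
  obtain ⟨C, hC, h⟩ := weyl_pow hε
  obtain ⟨D, hD⟩ := (isCompact_Icc (a := (-2 : ℝ)) (b := 2)).exists_bound_of_continuousOn zc_cont.continuousOn
  refine ⟨C + D, fun t => ?_⟩
  have hD0 : 0 ≤ D := (norm_nonneg _).trans (hD 0 ⟨by norm_num, by norm_num⟩)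
  have h1 : (1:ℝ) ≤ (1 + |t|) ^ (1 / 6 + ε) := Real.one_le_rpow (by linarith [abs_nonneg t]) (by linarith)
  have h2 : ∀ t : ℝ, 2 ≤ t → ‖riemannZeta (1 / 2 + t * I)‖ ≤ C * (1 + |t|) ^ (1 / 6 + ε) := by
    intro t ht
    have h3 := h t ht
    rw [half_eq] at h3
    refine h3.trans ?_
    have : t ^ (1 / 6 + ε) ≤ (1 + |t|) ^ (1 / 6 + ε) := by
      apply Real.rpow_le_rpow (by linarith) _ (by linarith)
      linarith [le_abs_self t]
    gcongr
  rcases le_total 2 |t| with h3 | h3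
  · have h4 : ‖riemannZeta (1 / 2 + t * I)‖ ≤ C * (1 + |t|) ^ (1 / 6 + ε) := by
      rcases le_abs'.1 h3 with h5 | h5
      · have h6 := h2 (-t) (by linarith)
        rw [abs_neg] at h6
        have h7 : ‖riemannZeta (1 / 2 + ((-t : ℝ) : ℂ) * I)‖ = ‖riemannZeta (1 / 2 + t * I)‖ := by
          have e : (1 / 2 + ((-t : ℝ) : ℂ) * I) = (starRingEnd ℂ) (1 / 2 + t * I) := by
            have e2 : (starRingEnd ℂ) 2 = 2 := map_ofNat _ 2
            simp [e2]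
          rw [e, riemannZeta_conj, Complex.norm_conj]
        rwa [h7] at h6
      · exact h2 t h5
    refine h4.trans ?_
    nlinarith
  · have h4 := hD t ⟨by linarith [(abs_le.1 h3).1], (abs_le.1 h3).2⟩
    rw [half_eq] at h4
    nlinarith

/-- a moment of zeta of order `n ≤ 4 + 6β` -/
theorem zeta_moment (n : ℕ) {β : ℝ} (hβ0 : 0 ≤ β) (hnp : (n : ℝ) ≤ 4 + 6 * β) {ε : ℝ} (hε : 0 < ε) :
    ∃ B : ℝ, 0 < B ∧ ∀ X : ℝ, 1000 ≤ X →
    ∫ u in (X / 2)..(5 * X / 2), ‖riemannZeta (((1 / 2 : ℝ) : ℂ) + u * I)‖ ^ n ≤ B * X ^ (1 + β + ε) := by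
  set m : ℕ := n - 4 with hm
  have hm6 : (m : ℝ) ≤ 6 * β := by
    rcases le_total n 4 with h | h
    · have : m = 0 := by omega
      rw [this]; push_cast; linarith
    · have : (m : ℝ) = n - 4 := by
        rw [hm]; push_cast [Nat.cast_sub h]; ring
      linarith
  set η : ℝ := min (ε / (2 * (m + 1))) (1 / 2) with hη
  have hη0 : 0 < η := lt_min (by positivity) (by norm_num)
  have hη1 : η ≤ 1 / 2 := min_le_right _ _
  have hη2 : m * η ≤ ε / 2 := by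
    have h1 : η ≤ ε / (2 * (m + 1)) := min_le_left _ _
    rw [le_div_iff₀ (by positivity)] at h1
    nlinarith
  obtain ⟨C, hC, hw⟩ := weyl_pow hη0
  set D : ℝ := 1 + 3 * C with hD
  have hD0 : 0 < D := by positivity
  set ζ' : ℝ := ε / 8 with hζ'
  have hζ0 : 0 < ζ' := by positivity
  refine ⟨(2 + 4 / 5 * (3 / ζ') ^ 4 * 3) * D ^ m, by positivity, fun X hX => ?_⟩
  have hX0 : 0 < X := by linarith
  have hX1 : 1 ≤ X := by linarith
  set G : ℝ := D * X ^ (1 / 6 + η) with hG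
  have hXp : 1 ≤ X ^ (1 / 6 + η) := Real.one_le_rpow hX1 (by positivity)
  have hG1 : 1 ≤ G := by
    rw [hG]
    nlinarith
  have hpt : ∀ u ∈ Icc (X / 2) (5 * X / 2), ‖riemannZeta (((1 / 2 : ℝ) : ℂ) + u * I)‖ ≤ G := by
    intro u hu
    have hu0 : 0 < u := by linarith [hu.1]
    have h1 := hw u (by linarith [hu.1])
    have h2 : u ^ (1 / 6 + η) ≤ 3 * X ^ (1 / 6 + η) := by
      calc u ^ (1 / 6 + η) ≤ (3 * X) ^ (1 / 6 + η) := Real.rpow_le_rpow hu0.le (by linarith [hu.2]) (by positivity)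
        _ = 3 ^ (1 / 6 + η) * X ^ (1 / 6 + η) := Real.mul_rpow (by norm_num) hX0.le
        _ ≤ 3 ^ (1:ℝ) * X ^ (1 / 6 + η) := by
            gcongr
            · norm_num
            · linarith
        _ = _ := by rw [Real.rpow_one]
    calc _ ≤ C * u ^ (1 / 6 + η) := h1
      _ ≤ C * (3 * X ^ (1 / 6 + η)) := by gcongr
      _ ≤ G := by
        rw [hG, hD]
        nlinarith
  have hpt2 : ∀ u ∈ Icc (X / 2) (5 * X / 2), ‖riemannZeta (((1 / 2 : ℝ) : ℂ) + u * I)‖ ^ n ≤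
      (1 + ‖riemannZeta (((1 / 2 : ℝ) : ℂ) + u * I)‖ ^ 4) * G ^ m := by
    intro u hu
    set z := ‖riemannZeta (((1 / 2 : ℝ) : ℂ) + u * I)‖ with hz
    have hz0 : 0 ≤ z := norm_nonneg _
    have hzG := hpt u hu
    have h4 : 0 ≤ z ^ 4 := by positivity
    rcases le_total n 4 with h | h
    · have h1 : z ^ n ≤ 1 + z ^ 4 := by
        rcases le_total z 1 with h2 | h2
        · have := pow_le_one₀ (n := n) hz0 h2
          linarith
        · have := pow_le_pow_right₀ h2 h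
          linarith
      have h2 : 1 ≤ G ^ m := one_le_pow₀ hG1
      nlinarith
    · have hn : n = 4 + m := by omega
      calc z ^ n = z ^ 4 * z ^ m := by rw [hn, pow_add]
        _ ≤ z ^ 4 * G ^ m := by gcongr
        _ ≤ _ := by
            have : 0 ≤ G ^ m := by positivity
            nlinarith
  have hc4 : Continuous (fun u : ℝ => ‖riemannZeta (((1 / 2 : ℝ) : ℂ) + u * I)‖ ^ 4) := zc_cont.norm.pow 4
  have hcn : Continuous (fun u : ℝ => ‖riemannZeta (((1 / 2 : ℝ) : ℂ) + u * I)‖ ^ n) := zc_cont.norm.pow n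
  have s1 : ∫ u in (X / 2)..(5 * X / 2), ‖riemannZeta (((1 / 2 : ℝ) : ℂ) + u * I)‖ ^ n ≤
      ∫ u in (X / 2)..(5 * X / 2), (1 + ‖riemannZeta (((1 / 2 : ℝ) : ℂ) + u * I)‖ ^ 4) * G ^ m := by
    apply intervalIntegral.integral_mono_on (by linarith) (hcn.intervalIntegrable _ _)
    · exact ((continuous_const.add hc4).mul continuous_const).intervalIntegrable _ _
    · exact hpt2
  rw [intervalIntegral.integral_mul_const, intervalIntegral.integral_add intervalIntegrable_const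
    (hc4.intervalIntegrable _ _), intervalIntegral.integral_const, smul_eq_mul, mul_one] at s1
  have s2 : ∫ u in (X / 2)..(5 * X / 2), ‖riemannZeta (((1 / 2 : ℝ) : ℂ) + u * I)‖ ^ 4 ≤
      ∫ u in (0 : ℝ)..(5 * X / 2), ‖riemannZeta (((1 / 2 : ℝ) : ℂ) + u * I)‖ ^ 4 := by
    apply intervalIntegral.integral_mono_interval (by linarith) (by linarith) le_rfl
    · exact ae_of_all _ (fun u => by positivity)
    · exact hc4.intervalIntegrable _ _
  have s3 := Pool.Agent.TH158.FM.fourth_all (5 * X / 2) (by linarith)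
  have s3' : ∫ u in (0 : ℝ)..(5 * X / 2), ‖riemannZeta (((1 / 2 : ℝ) : ℂ) + u * I)‖ ^ 4 ≤
      4 / 5 * (5 * X / 2 * Real.log (5 * X / 2) ^ 4) := s3
  have s4 : Real.log (5 * X / 2) ^ 4 ≤ (3 / ζ') ^ 4 * X ^ (ε / 2) := by
    have h1 : Real.log (5 * X / 2) ≤ 3 / ζ' * X ^ ζ' := by
      have h3 := Real.log_le_rpow_div (x := X) hX0.le hζ0
      have h4 : Real.log (5 * X / 2) = Real.log (5 / 2) + Real.log X := by
        rw [← Real.log_mul (by norm_num) hX0.ne']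
        congr 1; ring
      have h5 : Real.log (5 / 2 : ℝ) ≤ 2 * Real.log X := by
        have h6 : Real.log (5 / 2 : ℝ) ≤ Real.log X := Real.log_le_log (by norm_num) (by linarith)
        have h7 : 0 ≤ Real.log X := Real.log_nonneg hX1
        linarith
      rw [h4]
      calc Real.log (5 / 2) + Real.log X ≤ 3 * Real.log X := by linarith
        _ ≤ 3 * (X ^ ζ' / ζ') := by linarith
        _ = _ := by ring
    have h0 : 0 ≤ Real.log (5 * X / 2) := Real.log_nonneg (by linarith)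
    calc Real.log (5 * X / 2) ^ 4 ≤ (3 / ζ' * X ^ ζ') ^ 4 := pow_le_pow_left₀ h0 h1 4
      _ = (3 / ζ') ^ 4 * (X ^ ζ') ^ 4 := mul_pow _ _ _
      _ = (3 / ζ') ^ 4 * X ^ (ε / 2) := by
          rw [← Real.rpow_natCast (X ^ ζ') 4, ← Real.rpow_mul hX0.le]
          congr 2
          rw [hζ']; push_cast; ring
  have s5 : (5 * X / 2 - X / 2) + ∫ u in (X / 2)..(5 * X / 2), ‖riemannZeta (((1 / 2 : ℝ) : ℂ) + u * I)‖ ^ 4 ≤
      (2 + 4 / 5 * (3 / ζ') ^ 4 * 3) * X ^ (1 + ε / 2) := by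
    have h1 : X ^ (1 + ε / 2) = X * X ^ (ε / 2) := by rw [Real.rpow_add hX0, Real.rpow_one]
    have h2 : 1 ≤ X ^ (ε / 2) := Real.one_le_rpow hX1 (by linarith)
    have h3 : 4 / 5 * (5 * X / 2 * Real.log (5 * X / 2) ^ 4) ≤ 4 / 5 * (3 * X * ((3 / ζ') ^ 4 * X ^ (ε / 2))) := by
      gcongr
      linarith
    rw [h1]
    have h4 : X ≤ X * X ^ (ε / 2) := by nlinarith
    calc _ ≤ 2 * X + 4 / 5 * (3 * X * ((3 / ζ') ^ 4 * X ^ (ε / 2))) := by linarith
      _ ≤ 2 * (X * X ^ (ε / 2)) + 4 / 5 * (3 * X * ((3 / ζ') ^ 4 * X ^ (ε / 2))) := by linarith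
      _ = _ := by ring
  have s6 : G ^ m ≤ D ^ m * X ^ (β + ε / 2) := by
    rw [hG, mul_pow]
    apply mul_le_mul_of_nonneg_left _ (by positivity)
    rw [← Real.rpow_natCast (X ^ (1 / 6 + η)) m, ← Real.rpow_mul hX0.le]
    apply Real.rpow_le_rpow_of_exponent_le hX1
    nlinarith
  have hG0 : 0 ≤ G ^ m := by positivity
  have s7 : X ^ (1 + ε / 2) * X ^ (β + ε / 2) = X ^ (1 + β + ε) := by
    rw [← Real.rpow_add hX0]
    congr 1; ring
  calc _ ≤ ((5 * X / 2 - X / 2) + ∫ u in (X / 2)..(5 * X / 2), ‖riemannZeta (((1 / 2 : ℝ) : ℂ) + u * I)‖ ^ 4) * G ^ m := s1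
    _ ≤ ((2 + 4 / 5 * (3 / ζ') ^ 4 * 3) * X ^ (1 + ε / 2)) * (D ^ m * X ^ (β + ε / 2)) := by
        gcongr
    _ = (2 + 4 / 5 * (3 / ζ') ^ 4 * 3) * D ^ m * (X ^ (1 + ε / 2) * X ^ (β + ε / 2)) := by ring
    _ = (2 + 4 / 5 * (3 / ζ') ^ 4 * 3) * D ^ m * X ^ (1 + β + ε) := by
        rw [s7]

/-- the left edge -/
theorem GG_left_mean {x0 : ℝ} (hx0 : 0 < x0) (j p : ℕ) {β : ℝ} (hβ0 : 0 ≤ β) (hjp : ((j * p : ℕ) : ℝ) ≤ 4 + 6 * β)
    {ε : ℝ} (hε : 0 < ε) :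
    ∃ B : ℝ, 0 < B ∧ ∀ X : ℝ, 1000 ≤ X →
      ∫ u in (X / 2)..(5 * X / 2), ‖GG x0 j (((1 / 2 : ℝ) : ℂ) + u * I) ^ p‖ ≤ B * X ^ (1 + β + ε) := by
  obtain ⟨K, hK, hgp⟩ := gg_poly hx0
  obtain ⟨B, hB, hz⟩ := zeta_moment (j * p) hβ0 hjp hε
  refine ⟨K ^ p * B, by positivity, fun X hX => ?_⟩
  have hX0 : 0 < X := by linarith
  have hcn : Continuous (fun u : ℝ => ‖riemannZeta (((1 / 2 : ℝ) : ℂ) + u * I)‖ ^ (j * p)) := zc_cont.norm.pow _
  have h1 : ∫ u in (X / 2)..(5 * X / 2), ‖GG x0 j (((1 / 2 : ℝ) : ℂ) + u * I) ^ p‖ ≤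
      ∫ u in (X / 2)..(5 * X / 2), K ^ p * ‖riemannZeta (((1 / 2 : ℝ) : ℂ) + u * I)‖ ^ (j * p) := by
    apply intervalIntegral.integral_mono_on (by linarith)
    · exact (((GGl_cont hx0 j).pow p).norm).intervalIntegrable _ _
    · exact (continuous_const.mul hcn).intervalIntegrable _ _
    · intro u hu
      have e1 : ((((1 / 2 : ℝ)) : ℂ) + u * I).re = 1 / 2 := by simp
      have e2 : ((((1 / 2 : ℝ)) : ℂ) + u * I).im = u := by simp
      have g1 := (hgp (((1 / 2 : ℝ) : ℂ) + u * I) (by rw [e1]; norm_num) (by rw [e1]; norm_num)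
        (by rw [e2]; linarith [hu.1])).1
      rw [e1, e2, sub_self, Real.rpow_zero, mul_one] at g1
      unfold GG
      rw [norm_pow, norm_mul, norm_pow, mul_pow, ← pow_mul]
      gcongr
  refine h1.trans ?_
  rw [intervalIntegral.integral_const_mul, mul_assoc]
  have := hz X hX
  gcongr

/-- the right edge -/
theorem GG_right_mean {x0 : ℝ} (hx0 : 0 < x0) (j p : ℕ) {c : ℝ} (hc : 1 < c) (hc2 : c ≤ 2) {b : ℝ}
    (hb : 1 + p * (c - 1 / 2) ≤ b) :
    ∃ B : ℝ, 0 < B ∧ ∀ X : ℝ, 1000 ≤ X →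
      ∫ u in (X / 2)..(5 * X / 2), ‖GG x0 j ((c : ℂ) + u * I) ^ p‖ ≤ B * X ^ b := by
  obtain ⟨A, hA, h⟩ := GG_right hx0 j hc hc2
  refine ⟨2 * (A * 5 ^ (c - 1 / 2)) ^ p, by positivity, fun X hX => ?_⟩
  have hX0 : 0 < X := by linarith
  have hX1 : 1 ≤ X := by linarith
  have hcont := GG_cont hx0 j c (a := X / 2) (b := 5 * X / 2) (by linarith) (by linarith)
  have h1 : ∫ u in (X / 2)..(5 * X / 2), ‖GG x0 j ((c : ℂ) + u * I) ^ p‖ ≤
      ∫ u in (X / 2)..(5 * X / 2), (A * (5 * X) ^ (c - 1 / 2)) ^ p := by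
    apply intervalIntegral.integral_mono_on (by linarith)
    · apply ContinuousOn.intervalIntegrable
      exact (hcont.pow p).norm
    · exact intervalIntegrable_const
    · intro u hu
      have e1 : ((c : ℂ) + u * I).re = c := by simp
      have e2 : ((c : ℂ) + u * I).im = u := by simp
      have g1 := h ((c : ℂ) + u * I) e1 (by rw [e2]; linarith [hu.1])
      have hn : ‖(c : ℂ) + u * I‖ ≤ 5 * X := by
        have := Complex.norm_le_abs_re_add_abs_im ((c : ℂ) + u * I)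
        rw [e1, e2, abs_of_pos (by linarith), abs_of_pos (by linarith [hu.1])] at this
        linarith [hu.2]
      have h2 : ‖(c : ℂ) + u * I‖ ^ (c - 1 / 2) ≤ (5 * X) ^ (c - 1 / 2) :=
        Real.rpow_le_rpow (norm_nonneg _) hn (by linarith)
      rw [norm_pow]
      apply pow_le_pow_left₀ (norm_nonneg _)
      exact g1.trans (by gcongr)
  refine h1.trans ?_
  rw [intervalIntegral.integral_const, smul_eq_mul, Real.mul_rpow (by norm_num) hX0.le, ← mul_assoc A, mul_pow]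
  have h3 : X * (X ^ (c - 1 / 2)) ^ p ≤ X ^ b := by
    rw [← Real.rpow_natCast (X ^ (c - 1 / 2)) p, ← Real.rpow_mul hX0.le]
    calc X * X ^ ((c - 1 / 2) * (p:ℝ)) = X ^ (1:ℝ) * X ^ ((c - 1 / 2) * (p:ℝ)) := by rw [Real.rpow_one]
      _ = X ^ (1 + (c - 1 / 2) * (p:ℝ)) := by rw [← Real.rpow_add hX0]
      _ ≤ X ^ b := by
          apply Real.rpow_le_rpow_of_exponent_le hX1
          linarith
  calc (5 * X / 2 - X / 2) * ((A * 5 ^ (c - 1 / 2)) ^ p * (X ^ (c - 1 / 2)) ^ p) =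
        2 * (A * 5 ^ (c - 1 / 2)) ^ p * (X * (X ^ (c - 1 / 2)) ^ p) := by ring
    _ ≤ _ := by gcongr

/-- the mean values in the strip -/
theorem GG_mean_strip {x0 : ℝ} (hx0 : 0 < x0) (j p : ℕ) {β : ℝ} (hβ : (p : ℝ) / 2 ≤ β)
    (hjp : ((j * p : ℕ) : ℝ) ≤ 4 + 6 * β) {ε c : ℝ} (hε : 0 < ε)
    (hc : 1 < c) (hc2 : c ≤ 2) (hcε : p * (c - 1) ≤ ε) :
    ∃ C : ℝ, 0 < C ∧ ∀ X : ℝ, 1000 ≤ X → ∀ σ : ℝ, 1 / 2 ≤ σ → σ ≤ c →
      ∫ u in X..(2 * X), ‖GG x0 j ((σ : ℂ) + u * I) ^ p‖ ≤ C * X ^ (1 + β + ε) := by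
  have hp : (0:ℝ) ≤ p := Nat.cast_nonneg p
  have hβ0 : 0 ≤ β := le_trans (by positivity) hβ
  obtain ⟨A, hA, hgr⟩ := GG_growth hx0 j
  obtain ⟨B1, hB1, h1⟩ := GG_left_mean hx0 j p hβ0 hjp hε
  obtain ⟨B2, hB2, h2⟩ := GG_right_mean hx0 j p hc hc2 (b := 1 + β + ε) (by nlinarith)
  refine mean_strip (f := fun s => GG x0 j s ^ p) (c := c) (by linarith) hc2 (m := (4 + j) * p) (A := A ^ p) (by positivity)
    (fun s hs => (GG_diff hx0 j hs).pow p) ?_ (b := 1 + β + ε) (B := B1 + B2) (X₀ := 1000)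
    (by linarith) (by positivity) (by norm_num) ?_ ?_
  · intro s g1 g2 g3
    rw [norm_pow, pow_mul, ← mul_pow]
    exact pow_le_pow_left₀ (norm_nonneg _) (hgr s g1 g2 g3) p
  · intro X hX
    have hX0 : 0 < X := by linarith
    refine (h1 X hX).trans ?_
    have : 0 ≤ B2 * X ^ (1 + β + ε) := by positivity
    linarith
  · intro X hX
    have hX0 : 0 < X := by linarith
    refine (h2 X hX).trans ?_
    have : 0 ≤ B1 * X ^ (1 + β + ε) := by positivity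
    linarith

end Pool.Agent.H16.MM
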