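import Mathlib
import Pool.Agent.H16.MM.U2
import Pool.Agent.H16.MM.G11

set_option autoImplicit false

/-!
# The error term of the mixed moments in mean
-/

namespace Pool.Agent.H16.MM

open Complex Filter Topology Set MeasureTheory
open Pool.Agent.Helper156_SM (ak ak_nonneg ak_zero ak_bound ak_hasSum ak_summable)
open Pool.Agent.H388LH (HS pl_half zeta_growth zeta_growth' diffAt_zeta_im cont_zeta_line extend_bound)

/-- the tangent line of `x^(q+1)` -/
theorem tangent (q : ℕ) {x m : ℝ} (hx : 0 ≤ x) (hm : 0 ≤ m) :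
    m ^ (q + 1) + (q + 1) * m ^ q * (x - m) ≤ x ^ (q + 1) := by
  induction q with
  | zero => simp
  | succ q ih =>
    have h1 := mul_le_mul_of_nonneg_left ih hx
    have h2 : 0 ≤ (q + 1) * m ^ q * (x - m) ^ 2 := by positivity
    push_cast
    have e1 : x ^ (q + 1 + 1) = x * x ^ (q + 1) := by ring
    have e2 : x * (m ^ (q + 1) + (q + 1) * m ^ q * (x - m)) =
        m ^ (q + 1 + 1) + (q + 1 + 1) * m ^ (q + 1) * (x - m) + (q + 1) * m ^ q * (x - m) ^ 2 := by ring
    rw [e1]
    linarith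

/-- Jensen's inequality on an interval of length at most one -/
theorem jensen_pow {g : ℝ → ℝ} {a b : ℝ} (hab : a < b) (hb : b - a ≤ 1) (hg : ContinuousOn g (Icc a b))
    (h0 : ∀ x ∈ Icc a b, 0 ≤ g x) (q : ℕ) :
    (∫ x in a..b, g x) ^ (q + 1) ≤ ∫ x in a..b, g x ^ (q + 1) := by
  have hL : 0 < b - a := by linarith
  have hgi : IntervalIntegrable g volume a b := by
    apply ContinuousOn.intervalIntegrable
    rwa [uIcc_of_le hab.le]
  have hgp : IntervalIntegrable (fun x => g x ^ (q + 1)) volume a b := by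
    apply ContinuousOn.intervalIntegrable
    rw [uIcc_of_le hab.le]
    exact hg.pow _
  have hI0 : 0 ≤ ∫ x in a..b, g x := intervalIntegral.integral_nonneg hab.le h0
  set J := ∫ x in a..b, g x with hJ
  set m : ℝ := J / (b - a) with hm
  have hm0 : 0 ≤ m := div_nonneg hI0 hL.le
  have h1 : ∫ x in a..b, (m ^ (q + 1) + (q + 1) * m ^ q * (g x - m)) ≤ ∫ x in a..b, g x ^ (q + 1) := by
    apply intervalIntegral.integral_mono_on hab.le
    · exact intervalIntegrable_const.add ((hgi.sub intervalIntegrable_const).const_mul _)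
    · exact hgp
    · intro x hx
      exact tangent q (h0 x hx) hm0
  rw [intervalIntegral.integral_add intervalIntegrable_const ((hgi.sub intervalIntegrable_const).const_mul _),
    intervalIntegral.integral_const_mul, intervalIntegral.integral_sub hgi intervalIntegrable_const,
    intervalIntegral.integral_const, intervalIntegral.integral_const, smul_eq_mul, smul_eq_mul, ← hJ] at h1
  have e1 : J - (b - a) * m = 0 := by
    rw [hm]
    field_simp
    ring
  rw [e1, mul_zero, add_zero] at h1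
  refine le_trans ?_ h1
  have e2 : J = (b - a) * m := by linarith
  rw [e2, mul_pow, pow_succ (b - a) q]
  have h2 : (b - a) ^ q ≤ 1 := pow_le_one₀ hL.le hb
  have h3 : 0 ≤ (b - a) * m ^ (q + 1) := by positivity
  calc (b - a) ^ q * (b - a) * m ^ (q + 1) = (b - a) ^ q * ((b - a) * m ^ (q + 1)) := by ring
    _ ≤ 1 * ((b - a) * m ^ (q + 1)) := by gcongr
    _ = _ := one_mul _

/-- the horizontal integral in mean -/
theorem hor_mean {x0 : ℝ} (hx0 : 0 < x0) (j q : ℕ) {β : ℝ} (hβ : ((q + 1 : ℕ) : ℝ) / 2 ≤ β)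
    (hjp : ((j * (q + 1) : ℕ) : ℝ) ≤ 4 + 6 * β) {ε c : ℝ} (hε : 0 < ε)
    (hc : 1 < c) (hc2 : c ≤ 3 / 2) (hcε : (q + 1 : ℕ) * (c - 1) ≤ ε) {P : ℂ → ℂ}
    (hP : ∀ s : ℂ, 0 < s.im → HasDerivAt P (GG x0 j s) s) :
    ∃ C : ℝ, 0 < C ∧ ∀ X : ℝ, 1000 ≤ X →
      ∫ t in X..(2 * X), ‖P ((c : ℂ) + t * I) - P (((1 / 2 : ℝ) : ℂ) + t * I)‖ ^ (q + 1) ≤
        C * X ^ (1 + β + ε) := by
  obtain ⟨C, hC, hm⟩ := GG_mean_strip hx0 j (q + 1) hβ hjp hε hc (by linarith) hcε
  refine ⟨C, hC, fun X hX => ?_⟩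
  have hX0 : 0 < X := by linarith
  have hcd : (1 / 2 : ℝ) < c := by linarith
  have hGd : DifferentiableOn ℂ (GG x0 j) {s : ℂ | 0 < s.im} := fun s hs => (GG_diff hx0 j hs).differentiableWithinAt
  have hGc : ContinuousOn (GG x0 j) {s : ℂ | 0 < s.im} := hGd.continuousOn
  have hPc : ContinuousOn P {s : ℂ | 0 < s.im} := fun s hs => (hP s hs).continuousAt.continuousWithinAt
  have him : ∀ (σ t : ℝ), ((σ : ℂ) + t * I).im = t := by intro σ t; simp
  -- the function of two variables
  have h2c : ContinuousOn (fun q' : ℝ × ℝ => ‖GG x0 j ((q'.2 : ℂ) + q'.1 * I)‖ ^ (q + 1)) (Icc X (2 * X) ×ˢ Icc (1 / 2) c) := by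
    apply ContinuousOn.pow
    apply ContinuousOn.norm
    apply hGc.comp
    · fun_prop
    · intro r hr
      simp only [mem_ofPred_eq, him]
      linarith [hr.1.1]
  have h2i : IntegrableOn (fun q' : ℝ × ℝ => ‖GG x0 j ((q'.2 : ℂ) + q'.1 * I)‖ ^ (q + 1)) (uIoc X (2 * X) ×ˢ uIoc (1 / 2) c) := by
    have h1 := h2c.integrableOn_compact (μ := volume) (isCompact_Icc.prod isCompact_Icc)
    apply h1.mono_set
    rw [uIoc_of_le (by linarith), uIoc_of_le hcd.le]
    exact prod_mono Ioc_subset_Icc_self Ioc_subset_Icc_self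
  -- pointwise
  have hpt : ∀ t ∈ Icc X (2 * X), ‖P ((c : ℂ) + t * I) - P (((1 / 2 : ℝ) : ℂ) + t * I)‖ ^ (q + 1) ≤
      ∫ σ in (1 / 2 : ℝ)..c, ‖GG x0 j ((σ : ℂ) + t * I)‖ ^ (q + 1) := by
    intro t ht
    have ht0 : 0 < t := by linarith [ht.1]
    have hgc : ContinuousOn (fun σ : ℝ => GG x0 j ((σ : ℂ) + t * I)) (Icc (1 / 2) c) := by
      apply hGc.comp
      · fun_prop
      · intro σ _
        simp only [mem_ofPred_eq, him]
        exact ht0
    have hgi : IntervalIntegrable (fun σ : ℝ => GG x0 j ((σ : ℂ) + t * I)) volume (1 / 2) c := by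
      apply ContinuousOn.intervalIntegrable
      rwa [uIcc_of_le hcd.le]
    have hder : ∀ σ ∈ uIcc (1 / 2) c, HasDerivAt (fun σ : ℝ => P ((σ : ℂ) + t * I)) (GG x0 j ((σ : ℂ) + t * I)) σ := by
      intro σ _
      have h1 : HasDerivAt (fun z : ℂ => z + t * I) 1 (σ : ℂ) := (hasDerivAt_id _).add_const _
      have h3 := ((hP ((σ : ℂ) + t * I) (by rw [him]; exact ht0)).comp (σ : ℂ) h1).comp_ofReal
      rw [mul_one] at h3
      exact h3
    have e1 := intervalIntegral.integral_eq_sub_of_hasDerivAt hder hgi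
    rw [← e1]
    calc ‖∫ σ in (1 / 2 : ℝ)..c, GG x0 j ((σ : ℂ) + t * I)‖ ^ (q + 1) ≤
          (∫ σ in (1 / 2 : ℝ)..c, ‖GG x0 j ((σ : ℂ) + t * I)‖) ^ (q + 1) := by
          apply pow_le_pow_left₀ (norm_nonneg _)
          exact intervalIntegral.norm_integral_le_integral_norm hcd.le
      _ ≤ _ := jensen_pow hcd (by linarith) hgc.norm (fun σ _ => norm_nonneg _) q
  have hPi : IntervalIntegrable (fun t : ℝ => ‖P ((c : ℂ) + t * I) - P (((1 / 2 : ℝ) : ℂ) + t * I)‖ ^ (q + 1)) volume X (2 * X) := by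
    apply ContinuousOn.intervalIntegrable
    rw [uIcc_of_le (by linarith)]
    apply ContinuousOn.pow
    apply ContinuousOn.norm
    apply ContinuousOn.sub
    · apply hPc.comp
      · fun_prop
      · intro t ht
        simp only [mem_ofPred_eq, him]
        linarith [ht.1]
    · apply hPc.comp
      · fun_prop
      · intro t ht
        simp only [mem_ofPred_eq, him]
        linarith [ht.1]
  have hRi : IntervalIntegrable (fun t : ℝ => ∫ σ in (1 / 2 : ℝ)..c, ‖GG x0 j ((σ : ℂ) + t * I)‖ ^ (q + 1)) volume X (2 * X) := by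
    have h1 : Integrable (fun q' : ℝ × ℝ => ‖GG x0 j ((q'.2 : ℂ) + q'.1 * I)‖ ^ (q + 1))
        ((volume.restrict (Ioc X (2 * X))).prod (volume.restrict (Ioc (1 / 2) c))) := by
      rw [Measure.prod_restrict]
      rw [uIoc_of_le (by linarith), uIoc_of_le hcd.le] at h2i
      exact h2i
    have h2 := h1.integral_prod_left
    rw [intervalIntegrable_iff, uIoc_of_le (by linarith)]
    refine h2.congr ?_
    apply ae_of_all
    intro t
    exact (intervalIntegral.integral_of_le hcd.le).symm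
  calc ∫ t in X..(2 * X), ‖P ((c : ℂ) + t * I) - P (((1 / 2 : ℝ) : ℂ) + t * I)‖ ^ (q + 1)
      ≤ ∫ t in X..(2 * X), ∫ σ in (1 / 2 : ℝ)..c, ‖GG x0 j ((σ : ℂ) + t * I)‖ ^ (q + 1) :=
        intervalIntegral.integral_mono_on (by linarith) hPi hRi hpt
    _ = ∫ σ in (1 / 2 : ℝ)..c, ∫ t in X..(2 * X), ‖GG x0 j ((σ : ℂ) + t * I)‖ ^ (q + 1) :=
        intervalIntegral_intervalIntegral_swap (F := fun t σ : ℝ => ‖GG x0 j ((σ : ℂ) + t * I)‖ ^ (q + 1)) h2i
    _ ≤ C * X ^ (1 + β + ε) := by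
        have h3 : ‖∫ σ in (1 / 2 : ℝ)..c, ∫ t in X..(2 * X), ‖GG x0 j ((σ : ℂ) + t * I)‖ ^ (q + 1)‖ ≤
            C * X ^ (1 + β + ε) * |c - 1 / 2| := by
          apply intervalIntegral.norm_integral_le_of_norm_le_const
          intro σ hσ
          rw [uIoc_of_le hcd.le] at hσ
          have h4 := hm X hX σ hσ.1.le hσ.2
          have h5 : 0 ≤ ∫ t in X..(2 * X), ‖GG x0 j ((σ : ℂ) + t * I)‖ ^ (q + 1) :=
            intervalIntegral.integral_nonneg (by linarith) (fun t _ => by positivity)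
          rw [Real.norm_of_nonneg h5]
          simp only [norm_pow] at h4
          exact h4
        have h6 : |c - 1 / 2| ≤ 1 := by rw [abs_le]; constructor <;> linarith
        have h7 : 0 ≤ C * X ^ (1 + β + ε) := by positivity
        refine (le_abs_self _).trans (h3.trans ?_)
        nlinarith

/-- the divisor sum is a step function -/
theorem DD_meas (k : ℕ) (α : ℝ) : Measurable (DD k α) := by
  unfold DD
  apply Measurable.const_mul
  have h1 : Measurable (fun n : ℕ => ∑ m ∈ Finset.Icc 1 n, (ak (k + 1) m : ℂ) * cexp (-(2 * Real.pi * α * m * I))) :=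
    measurable_of_countable _
  exact h1.comp (Nat.measurable_floor.comp (measurable_id.div_const _))

theorem MMt_cont {α : ℝ} (hα : 0 < α) (k : ℕ) : Continuous (MMt k α) := by
  unfold MMt
  exact intervalIntegral.continuous_primitive (fun a b => (ff_cont hα k).intervalIntegrable a b) 0

end Pool.Agent.H16.MM
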