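import Mathlib
import Pool.Agent.H16.MM.U3

set_option autoImplicit false

/-!
# The error term of the mixed moments in mean: conclusion
-/

namespace Pool.Agent.H16.MM

open Complex Filter Topology Set MeasureTheory
open Pool.Agent.Helper156_SM (ak ak_nonneg ak_zero ak_bound ak_hasSum ak_summable)

/-- pointwise unconditional bound for the error term -/
theorem err_poly {α : ℝ} (hα : 0 < α) (k : ℕ) : ∃ C b : ℝ, 0 ≤ C ∧ 0 ≤ b ∧ ∀ T : ℝ, 2 ≤ T →
    ‖MMt k α T - DD k α T‖ ≤ C * T ^ b := by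
  obtain ⟨C, hC⟩ := upper hα k (a := 1 / 6) (by norm_num) zorder_weyl one_pos
  set b : ℝ := max (1 / 2) (((k : ℝ) + 1) * (1 / 6)) + 1 with hb
  have hb0 : 0 ≤ b := by
    have := le_max_left (1 / 2 : ℝ) (((k : ℝ) + 1) * (1 / 6))
    rw [hb]; linarith
  refine ⟨C, b, ?_, hb0, hC⟩
  have h1 := (norm_nonneg _).trans (hC 2 le_rfl)
  have h2 : (0:ℝ) < 2 ^ b := by positivity
  by_contra h3
  rw [not_le] at h3
  nlinarith

theorem err_meas {α : ℝ} (hα : 0 < α) (k p : ℕ) : Measurable (fun T : ℝ => ‖MMt k α T - DD k α T‖ ^ p) :=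
  ((MMt_cont hα k).measurable.sub (DD_meas k α)).norm.pow_const p

theorem err_int {α : ℝ} (hα : 0 < α) (k p : ℕ) {X : ℝ} (hX : 2 ≤ X) :
    IntervalIntegrable (fun T : ℝ => ‖MMt k α T - DD k α T‖ ^ p) volume X (2 * X) := by
  obtain ⟨C, b, hC0, hb0, hC⟩ := err_poly hα k
  rw [intervalIntegrable_iff, uIoc_of_le (by linarith)]
  have hfin : volume (Ioc X (2 * X)) ≠ ⊤ := by
    rw [Real.volume_Ioc]; exact ENNReal.ofReal_ne_top
  refine Measure.integrableOn_of_bounded (M := (C * (2 * X) ^ b) ^ p) hfin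
    (err_meas hα k p).aestronglyMeasurable ?_
  refine (ae_restrict_iff' measurableSet_Ioc).2 (ae_of_all _ (fun T hT => ?_))
  rw [norm_pow, norm_norm]
  apply pow_le_pow_left₀ (norm_nonneg _)
  refine (hC T (by linarith [hT.1])).trans ?_
  have h1 : T ^ b ≤ (2 * X) ^ b := Real.rpow_le_rpow (by linarith [hT.1]) hT.2 hb0
  gcongr

/-- the error term in mean -/
theorem mean_upper {α : ℝ} (hα : 0 < α) (k q : ℕ) {β : ℝ} (hβ : ((q + 1 : ℕ) : ℝ) / 2 ≤ β)
    (hk : (((k + 1) * (q + 1) : ℕ) : ℝ) ≤ 4 + 6 * β) {ε : ℝ} (hε : 0 < ε) :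
    ∃ C : ℝ, ∀ X : ℝ, 2 ≤ X → ∫ T in X..(2 * X), ‖MMt k α T - DD k α T‖ ^ (q + 1) ≤
      C * X ^ (1 + β + ε) := by
  have hpi := Real.pi_pos
  have hx0 : 0 < 2 * Real.pi * α := by positivity
  set x0 : ℝ := 2 * Real.pi * α with hx0d
  have hq : (0:ℝ) < ((q + 1 : ℕ) : ℝ) := by positivity
  have hβ0 : 0 < β := lt_of_lt_of_le (by positivity) hβ
  set p : ℝ := ((q + 1 : ℕ) : ℝ) with hp
  set ε' : ℝ := min (ε / (2 * p)) (1 / 2) with hε'
  have hε'0 : 0 < ε' := lt_min (by positivity) (by norm_num)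
  have hε'1 : ε' ≤ 1 / 2 := min_le_right _ _
  have hε'2 : 2 * p * ε' ≤ ε := by
    have h1 : ε' ≤ ε / (2 * p) := min_le_left _ _
    rw [le_div_iff₀ (by positivity)] at h1
    linarith
  obtain ⟨P, hP⟩ := GG_prim hx0 (k + 1)
  obtain ⟨C1, hC1, hh⟩ := hor_mean hx0 (k + 1) q hβ hk hε (c := 1 + ε') (by linarith) (by linarith)
    (by rw [← hp]; nlinarith) hP
  obtain ⟨C2, hC2, hlc⟩ := line_c hx0 (k + 1) hε'0 (by linarith)
  obtain ⟨B, hB, hEB⟩ := EB_bound hx0 (k + 1)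
  set κ : ℝ := ‖P (((1 + ε' : ℝ) : ℂ) + (1:ℝ) * I) - P (((1 / 2 : ℝ) : ℂ) + (1:ℝ) * I)‖ with hκ
  set V : ℂ := ∫ t in (0:ℝ)..1, ff k α t with hV
  set C3 : ℝ := ‖V‖ + √α * (κ + C2 + B) with hC3
  have hsq0 : 0 ≤ √α := Real.sqrt_nonneg _
  have hκ0 : 0 ≤ κ := norm_nonneg _
  have hC30 : 0 ≤ C3 := by
    have := norm_nonneg V
    positivity
  -- pointwise
  have hpt : ∀ T : ℝ, 2 ≤ T → ‖MMt k α T - DD k α T‖ ≤
      √α * ‖P (((1 + ε' : ℝ) : ℂ) + T * I) - P (((1 / 2 : ℝ) : ℂ) + T * I)‖ + C3 * T ^ (1 / 2 + 2 * ε') := by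
    intro T hT
    have hTb : 1 ≤ T ^ (1 / 2 + 2 * ε') := Real.one_le_rpow (by linarith) (by linarith)
    have e1 : MMt k α T = V + ∫ t in (1:ℝ)..T, ff k α t := by
      unfold MMt
      rw [hV, intervalIntegral.integral_add_adjacent_intervals ((ff_cont hα k).intervalIntegrable _ _)
        ((ff_cont hα k).intervalIntegrable _ _)]
    rw [e1, MMt_eq hα k (a := 1) (b := T), DD_eq, ← hx0d]
    have hvert : ∀ σ : ℝ, (∫ t in (1:ℝ)..T, GG x0 (k + 1) (σ + t * I)) = -I * (P (σ + T * I) - P (σ + (1:ℝ) * I)) := by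
      intro σ
      have := vert_eq (P := P) (g := GG x0 (k + 1)) (σ := σ) (a := 1) (b := T) (fun t ht => by
        rw [uIcc_of_le (by linarith)] at ht
        apply hP
        simp
        linarith [ht.1]) (GG_cont hx0 (k + 1) σ one_pos (by linarith))
      rw [this, ← mul_assoc]; simp
    have s2 := hlc T hT
    have s3 := hEB 1 T le_rfl (by linarith)
    set Y := ∫ t in (1:ℝ)..T, GG x0 (k + 1) (((1 + ε' : ℝ) : ℂ) + t * I) with hY
    have e3 : (∫ t in (1:ℝ)..T, GG x0 (k + 1) (((1 / 2 : ℝ) : ℂ) + t * I)) = Y +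
        I * ((P (((1 + ε' : ℝ) : ℂ) + T * I) - P (((1 / 2 : ℝ) : ℂ) + T * I)) -
          (P (((1 + ε' : ℝ) : ℂ) + (1:ℝ) * I) - P (((1 / 2 : ℝ) : ℂ) + (1:ℝ) * I))) := by
      rw [hY, hvert, hvert]
      ring
    rw [e3]
    set D := P (((1 + ε' : ℝ) : ℂ) + T * I) - P (((1 / 2 : ℝ) : ℂ) + T * I) with hD
    set D1 := P (((1 + ε' : ℝ) : ℂ) + (1:ℝ) * I) - P (((1 / 2 : ℝ) : ℂ) + (1:ℝ) * I) with hD1
    set Z := ∑ n ∈ Finset.Icc 1 ⌊T / x0⌋₊, (ak (k + 1) n : ℂ) *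
      (2 * Real.pi * cexp (-(I * ((x0 * n : ℝ) : ℂ)))) with hZ
    set W := ∫ t in (1:ℝ)..T, EB x0 (k + 1) t with hW
    have e2 : V + (√α : ℂ) * (Y + I * (D - D1) + W) - (√α : ℂ) * Z =
        (√α : ℂ) * (I * D) + (V + (√α : ℂ) * ((-(I * D1)) + (Y - Z) + W)) := by ring
    rw [e2]
    have hsq : ‖(√α : ℂ)‖ = √α := by
      rw [Complex.norm_real, Real.norm_of_nonneg (Real.sqrt_nonneg _)]
    have hV0 := norm_nonneg V
    refine (norm_add_le _ _).trans ?_
    have t1 : ‖(√α : ℂ) * (I * D)‖ = √α * ‖D‖ := by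
      rw [norm_mul, norm_mul, hsq, Complex.norm_I, one_mul]
    rw [t1]
    apply add_le_add le_rfl
    calc ‖V + (√α : ℂ) * ((-(I * D1)) + (Y - Z) + W)‖ ≤ ‖V‖ + √α * ‖(-(I * D1)) + (Y - Z) + W‖ := by
          refine (norm_add_le _ _).trans ?_
          rw [norm_mul, hsq]
      _ ≤ ‖V‖ + √α * (κ + C2 * T ^ (1 / 2 + 2 * ε') + B) := by
          gcongr
          refine norm_add₃_le.trans ?_
          have t2 : ‖-(I * D1)‖ = κ := by
            rw [norm_neg, norm_mul, Complex.norm_I, one_mul, hκ]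
          rw [t2]
          gcongr
      _ ≤ ‖V‖ * T ^ (1 / 2 + 2 * ε') + √α * (κ * T ^ (1 / 2 + 2 * ε') + C2 * T ^ (1 / 2 + 2 * ε') +
            B * T ^ (1 / 2 + 2 * ε')) := by
          gcongr
          · nlinarith
          · nlinarith
          · nlinarith
      _ = C3 * T ^ (1 / 2 + 2 * ε') := by rw [hC3]; ring
  -- large X
  have hlarge : ∀ X : ℝ, 1000 ≤ X → ∫ T in X..(2 * X), ‖MMt k α T - DD k α T‖ ^ (q + 1) ≤
      (2 ^ q * (√α ^ (q + 1) * C1 + (C3 * 3 ^ (2 : ℝ)) ^ (q + 1))) * X ^ (1 + β + ε) := by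
    intro X hX
    have hX0 : 0 < X := by linarith
    have hX1 : 1 ≤ X := by linarith
    have h1 := hh X hX
    set E : ℝ → ℝ := fun T => ‖P (((1 + ε' : ℝ) : ℂ) + T * I) - P (((1 / 2 : ℝ) : ℂ) + T * I)‖ ^ (q + 1) with hE
    have hPc : ContinuousOn P {s : ℂ | 0 < s.im} := fun s hs => (hP s hs).continuousAt.continuousWithinAt
    have hEi : IntervalIntegrable E volume X (2 * X) := by
      apply ContinuousOn.intervalIntegrable
      rw [uIcc_of_le (by linarith)]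
      apply ContinuousOn.pow
      apply ContinuousOn.norm
      apply ContinuousOn.sub
      · apply hPc.comp
        · fun_prop
        · intro t ht
          simp
          linarith [ht.1]
      · apply hPc.comp
        · fun_prop
        · intro t ht
          simp
          linarith [ht.1]
    have h2 : ∫ T in X..(2 * X), ‖MMt k α T - DD k α T‖ ^ (q + 1) ≤
        ∫ T in X..(2 * X), (2 ^ q * √α ^ (q + 1) * E T + 2 ^ q * (C3 * 3 ^ (2 : ℝ)) ^ (q + 1) * (X ^ (1 / 2 + 2 * ε')) ^ (q + 1)) := by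
      apply intervalIntegral.integral_mono_on (by linarith) (err_int hα k (q + 1) (by linarith))
      · exact (hEi.const_mul _).add intervalIntegrable_const
      · intro T hT
        have hT0 : 0 < T := by linarith [hT.1]
        have g1 := hpt T (by linarith [hT.1])
        have g2 : T ^ (1 / 2 + 2 * ε') ≤ 3 ^ (2:ℝ) * X ^ (1 / 2 + 2 * ε') := by
          calc T ^ (1 / 2 + 2 * ε') ≤ (3 * X) ^ (1 / 2 + 2 * ε') :=
                Real.rpow_le_rpow hT0.le (by linarith [hT.2]) (by linarith)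
            _ = 3 ^ (1 / 2 + 2 * ε') * X ^ (1 / 2 + 2 * ε') := Real.mul_rpow (by norm_num) hX0.le
            _ ≤ 3 ^ (2:ℝ) * X ^ (1 / 2 + 2 * ε') := by
                gcongr
                · norm_num
                · linarith
        have g3 : ‖MMt k α T - DD k α T‖ ≤ √α * ‖P (((1 + ε' : ℝ) : ℂ) + T * I) - P (((1 / 2 : ℝ) : ℂ) + T * I)‖ +
            C3 * 3 ^ (2:ℝ) * X ^ (1 / 2 + 2 * ε') := by
          refine g1.trans ?_
          have := mul_le_mul_of_nonneg_left g2 hC30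
          linarith
        refine (pow_le_pow_left₀ (norm_nonneg _) g3 (q + 1)).trans ?_
        refine (add_pow_le (by positivity) (by positivity) (q + 1)).trans (le_of_eq ?_)
        rw [hE]
        simp only [Nat.add_sub_cancel]
        rw [mul_pow, mul_pow (C3 * 3 ^ (2:ℝ))]
        ring
    rw [intervalIntegral.integral_add (hEi.const_mul _) intervalIntegrable_const, intervalIntegral.integral_const_mul,
      intervalIntegral.integral_const, smul_eq_mul] at h2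
    have h3 : X * (X ^ (1 / 2 + 2 * ε')) ^ (q + 1) ≤ X ^ (1 + β + ε) := by
      rw [← Real.rpow_natCast (X ^ (1 / 2 + 2 * ε')) (q + 1), ← Real.rpow_mul hX0.le]
      calc X * X ^ ((1 / 2 + 2 * ε') * ((q + 1 : ℕ) : ℝ)) = X ^ (1:ℝ) * X ^ ((1 / 2 + 2 * ε') * ((q + 1 : ℕ) : ℝ)) := by
            rw [Real.rpow_one]
        _ = X ^ (1 + (1 / 2 + 2 * ε') * ((q + 1 : ℕ) : ℝ)) := by rw [← Real.rpow_add hX0]
        _ ≤ X ^ (1 + β + ε) := by
            apply Real.rpow_le_rpow_of_exponent_le hX1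
            rw [← hp]
            nlinarith
    calc _ ≤ _ := h2
      _ = 2 ^ q * √α ^ (q + 1) * (∫ T in X..(2 * X), E T) + 2 ^ q * (C3 * 3 ^ (2 : ℝ)) ^ (q + 1) *
            (X * (X ^ (1 / 2 + 2 * ε')) ^ (q + 1)) := by ring
      _ ≤ 2 ^ q * √α ^ (q + 1) * (C1 * X ^ (1 + β + ε)) + 2 ^ q * (C3 * 3 ^ (2 : ℝ)) ^ (q + 1) *
            X ^ (1 + β + ε) := by
          gcongr
      _ = _ := by ring
  -- small X
  obtain ⟨C4, b, hC40, hb0, hC4⟩ := err_poly hα k
  set C5 : ℝ := 2 ^ q * (√α ^ (q + 1) * C1 + (C3 * 3 ^ (2 : ℝ)) ^ (q + 1)) with hC5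
  have hC50 : 0 ≤ C5 := by positivity
  refine ⟨C5 + 1000 * (C4 * 2000 ^ b) ^ (q + 1), fun X hX => ?_⟩
  have hX0 : 0 < X := by linarith
  have hXb : 1 ≤ X ^ (1 + β + ε) := Real.one_le_rpow (by linarith) (by positivity)
  have hC6 : 0 ≤ 1000 * (C4 * 2000 ^ b) ^ (q + 1) := by positivity
  rcases le_total 1000 X with h | h
  · refine (hlarge X h).trans ?_
    have : 0 ≤ X ^ (1 + β + ε) := by positivity
    nlinarith
  · have h1 : ∫ T in X..(2 * X), ‖MMt k α T - DD k α T‖ ^ (q + 1) ≤ ∫ T in X..(2 * X), (C4 * 2000 ^ b) ^ (q + 1) := by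
      apply intervalIntegral.integral_mono_on (by linarith) (err_int hα k (q + 1) hX) intervalIntegrable_const
      intro T hT
      apply pow_le_pow_left₀ (norm_nonneg _)
      refine (hC4 T (by linarith [hT.1])).trans ?_
      have h2 : T ^ b ≤ 2000 ^ b := Real.rpow_le_rpow (by linarith [hT.1]) (by linarith [hT.2]) hb0
      gcongr
    rw [intervalIntegral.integral_const, smul_eq_mul] at h1
    have h3 : (2 * X - X) * (C4 * 2000 ^ b) ^ (q + 1) ≤ 1000 * (C4 * 2000 ^ b) ^ (q + 1) := by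
      apply mul_le_mul_of_nonneg_right _ (by positivity)
      linarith
    have h4 : 0 ≤ C5 * X ^ (1 + β + ε) := by positivity
    nlinarith

end Pool.Agent.H16.MM
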